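import Mathlib

set_option autoImplicit false

/-!
# Holomorphic dependence of integrals over compact sets on parameters
-/

open MeasureTheory Complex Set Topology Metric

namespace Pool.Agent.Y813.RL

variable {E : Type*} [NormedAddCommGroup E] [NormedSpace ℂ E]

/-- Cauchy estimate for the derivative. -/
theorem norm_fderiv_le_of_bound {f : E → ℂ} {c : E} {r M : ℝ} (hr : 0 < r)
    (hd : DifferentiableOn ℂ f (ball c r)) (hM : ∀ z ∈ ball c r, ‖f z‖ ≤ M) :
    ‖fderiv ℂ f c‖ ≤ 2 * M / r := by
  apply norm_fderiv_le_div_of_mapsTo_ball hd ?_ hr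
  intro z hz
  rw [mem_closedBall, dist_eq_norm]
  have h1 := hM z hz
  have h2 := hM c (mem_ball_self hr)
  calc ‖f z - f c‖ ≤ ‖f z‖ + ‖f c‖ := norm_sub_le _ _
    _ ≤ 2 * M := by linarith

/-- Integrals over a compact set of functions which are jointly continuous and holomorphic in
the parameter are holomorphic. -/
theorem differentiableOn_setIntegral [FiniteDimensional ℂ E] {X : Type*} [PseudoMetricSpace X]
    [MeasurableSpace X] [OpensMeasurableSpace X] (μ : Measure X) {K : Set X} (hK : IsCompact K)
    (hKm : MeasurableSet K) (hμ : μ K < ⊤) {U : Set E} (hU : IsOpen U) {f : E → X → ℂ}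
    (hc : ContinuousOn (fun q : E × X => f q.1 q.2) (U ×ˢ K))
    (hd : ∀ x ∈ K, DifferentiableOn ℂ (fun p => f p x) U) :
    DifferentiableOn ℂ (fun p => ∫ x in K, f p x ∂μ) U := by
  intro p₀ hp₀
  have : ProperSpace E := FiniteDimensional.proper ℂ E
  obtain ⟨r₀, hr₀, hball⟩ := Metric.isOpen_iff.1 hU p₀ hp₀
  set r := r₀ / 4 with hr
  have hr1 : 0 < r := by positivity
  have hsub : closedBall p₀ (2 * r) ⊆ U := by
    refine (closedBall_subset_ball ?_).trans hball
    rw [hr]; linarith
  have hcomp : IsCompact (closedBall p₀ (2 * r) ×ˢ K) := (isCompact_closedBall _ _).prod hK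
  have hcc : ContinuousOn (fun q : E × X => f q.1 q.2) (closedBall p₀ (2 * r) ×ˢ K) :=
    hc.mono (prod_mono hsub subset_rfl)
  obtain ⟨M, hM⟩ := hcomp.exists_bound_of_continuousOn hcc
  have hslice : ∀ p ∈ U, ContinuousOn (f p) K := by
    intro p hp
    exact hc.comp (Continuous.prodMk_right p).continuousOn fun x hx => ⟨hp, hx⟩
  have hmeas : ∀ p ∈ U, AEStronglyMeasurable (f p) (μ.restrict K) := fun p hp =>
    (hslice p hp).aestronglyMeasurable_of_isCompact hK hKm
  have hfin : IsFiniteMeasure (μ.restrict K) := ⟨by simpa using hμ⟩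
  -- continuity of the derivative in the integration variable
  have hder : ContinuousOn (fun x => fderiv ℂ (fun p => f p x) p₀) K := by
    have huc := hcomp.uniformContinuousOn_of_continuous hcc
    rw [Metric.uniformContinuousOn_iff] at huc
    rw [Metric.continuousOn_iff]
    intro x hx ε hε
    obtain ⟨δ, hδ, h⟩ := huc (ε * r / 4) (by positivity)
    refine ⟨δ, hδ, fun y hy hxy => ?_⟩
    have hdx : DifferentiableAt ℂ (fun p => f p x) p₀ := (hd x hx).differentiableAt (hU.mem_nhds hp₀)
    have hdy : DifferentiableAt ℂ (fun p => f p y) p₀ := (hd y hy).differentiableAt (hU.mem_nhds hp₀)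
    rw [dist_eq_norm, ← fderiv_sub hdy hdx]
    have hb : ball p₀ r ⊆ closedBall p₀ (2 * r) :=
      (ball_subset_closedBall).trans (closedBall_subset_closedBall (by linarith))
    have := norm_fderiv_le_of_bound (f := (fun p => f p y) - fun p => f p x) (c := p₀) (r := r)
      (M := ε * r / 4) hr1
      (((hd y hy).mono (hb.trans hsub)).sub ((hd x hx).mono (hb.trans hsub))) (by
        intro z hz
        have := h (z, y) ⟨hb hz, hy⟩ (z, x) ⟨hb hz, hx⟩ (by
          rw [Prod.dist_eq]; simpa using hxy)
        rw [dist_eq_norm] at this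
        exact this.le)
    refine this.trans_lt ?_
    rw [div_lt_iff₀ hr1]
    nlinarith
  refine (HasFDerivAt.differentiableAt (hasFDerivAt_integral_of_dominated_of_fderiv_le
    (F := f) (F' := fun p x => fderiv ℂ (fun p => f p x) p) (bound := fun _ => 2 * M / r)
    (x₀ := p₀) (s := ball p₀ r) (ball_mem_nhds _ hr1) ?_ ?_ ?_ ?_ ?_ ?_)).differentiableWithinAt
  · filter_upwards [hU.mem_nhds hp₀] with p hp using hmeas p hp
  · refine Integrable.of_bound (hmeas p₀ hp₀) M ?_
    filter_upwards [ae_restrict_mem hKm] with x hx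
    exact hM (p₀, x) ⟨mem_closedBall_self (by positivity), hx⟩
  · exact hder.aestronglyMeasurable_of_isCompact hK hKm
  · filter_upwards [ae_restrict_mem hKm] with x hx p hp
    have hb : ball p r ⊆ closedBall p₀ (2 * r) := by
      intro z hz
      rw [mem_closedBall]
      rw [mem_ball] at hz hp
      linarith [dist_triangle z p p₀]
    exact norm_fderiv_le_of_bound hr1 ((hd x hx).mono (hb.trans hsub))
      fun z hz => hM (z, x) ⟨hb hz, hx⟩
  · exact integrable_const _
  · filter_upwards [ae_restrict_mem hKm] with x hx p hp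
    have hpU : p ∈ U := hsub (mem_closedBall.2 (by rw [mem_ball] at hp; linarith))
    exact ((hd x hx).differentiableAt (hU.mem_nhds hpU)).hasFDerivAt

end Pool.Agent.Y813.RL
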