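import Mathlib

set_option autoImplicit false

/-!
# Intermediate statements for MP_f1d0b6_nt (reflective lattices of signature (2,22))

Every `Job...` below is a `Prop`; a job is to prove `theorem job : Job...` in a module of your own.
-/

open MeasureTheory Complex Set Topology

namespace Pool.Agent.Y813.RL

noncomputable section

/-- The bilinear form with integer Gram matrix `B`, extended to a commutative ring `R`. -/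
def bf {ι R : Type*} [Fintype ι] [CommRing R] (B : Matrix ι ι ℤ) (x y : ι → R) : R :=
  ∑ i, ∑ j, x i * (B i j : R) * y j

/-- `e(x) = exp(2 pi i x)` -/
def ee (x : ℂ) : ℂ := Complex.exp (2 * Real.pi * Complex.I * x)

/-- pairing of an integral dual vector (in the dual basis) with a vector: `sum mu_i z_i` -/
def dt {R : Type*} [CommRing R] (μ : Fin 20 → ℤ) (z : Fin 20 → R) : R := ∑ i, (μ i : R) * z i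

/-- the pairing `mu^T A^{-1} nu` of the dual lattice -/
def bd (A : Matrix (Fin 20) (Fin 20) ℤ) (μ ν : Fin 20 → ℤ) : ℝ :=
  ∑ i, (μ i : ℝ) * ((A.map (Int.cast : ℤ → ℝ))⁻¹.mulVec (fun j => (ν j : ℝ))) i

/-- symmetric, positive definite -/
structure PosSymm (A : Matrix (Fin 20) (Fin 20) ℤ) : Prop where
  symm : A.IsSymm
  pos : ∀ x : Fin 20 → ℝ, x ≠ 0 → 0 < bf A x x

/-- Jacobi forms of weight 0 and index 1 for the lattice with Gram matrix `A` (no growth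
condition). -/
structure JacobiZero (A : Matrix (Fin 20) (Fin 20) ℤ) (c : ℂ → (Fin 20 → ℂ) → ℂ) : Prop where
  holo : DifferentiableOn ℂ (fun p : ℂ × (Fin 20 → ℂ) => c p.1 p.2) {p | 0 < p.1.im}
  perτ : ∀ (τ : ℂ) (z : Fin 20 → ℂ), 0 < τ.im → c (τ + 1) z = c τ z
  perz : ∀ (τ : ℂ) (z : Fin 20 → ℂ) (v : Fin 20 → ℤ), 0 < τ.im →
    c τ (fun i => z i + (v i : ℂ)) = c τ z
  quasi : ∀ (τ : ℂ) (z : Fin 20 → ℂ) (v : Fin 20 → ℤ), 0 < τ.im →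
    c τ (fun i => z i + τ * (v i : ℂ)) =
      ee (-(bf A (fun i => (v i : ℂ)) z + τ * bf A (fun i => (v i : ℂ)) (fun i => (v i : ℂ)) / 2))
        * c τ z
  S : ∀ (τ : ℂ) (z : Fin 20 → ℂ), 0 < τ.im →
    c (-1 / τ) (fun i => z i / τ) = ee (bf A z z / (2 * τ)) * c τ z

/-- Fourier coefficient in `z` -/
def fc (c : ℂ → (Fin 20 → ℂ) → ℂ) (μ : Fin 20 → ℤ) (τ : ℂ) : ℂ :=
  ∫ y in Set.Icc (0 : Fin 20 → ℝ) 1, c τ (fun i => (y i : ℂ)) * ee (-(dt μ (fun i => (y i : ℂ))))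

/-- theta component -/
def vf (A : Matrix (Fin 20) (Fin 20) ℤ) (c : ℂ → (Fin 20 → ℂ) → ℂ) (μ : Fin 20 → ℤ) (τ : ℂ) : ℂ :=
  ee (-(τ * (bd A μ μ : ℂ) / 2)) * fc c μ τ

/-- `R` is a complete set of representatives of `Z^20 / A Z^20` -/
def IsReps (A : Matrix (Fin 20) (Fin 20) ℤ) (R : Finset (Fin 20 → ℤ)) : Prop :=
  ∀ μ : Fin 20 → ℤ, ∃! ρ, ρ ∈ R ∧ ∃ v : Fin 20 → ℤ, μ = ρ + A.mulVec v

/-- A vector valued modular form of weight -10 for the Weil representation type data of `A`. -/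
structure VV10 (A : Matrix (Fin 20) (Fin 20) ℤ) (R : Finset (Fin 20 → ℤ))
    (f : (Fin 20 → ℤ) → ℂ → ℂ) : Prop where
  holo : ∀ μ, DifferentiableOn ℂ (f μ) {τ | 0 < τ.im}
  inv : ∀ μ (v : Fin 20 → ℤ) (τ : ℂ), 0 < τ.im → f (μ + A.mulVec v) τ = f μ τ
  T : ∀ μ (τ : ℂ), 0 < τ.im → f μ (τ + 1) = ee (-((bd A μ μ : ℂ) / 2)) * f μ τ
  S : ∀ μ (τ : ℂ), 0 < τ.im →
    f μ τ = -(τ ^ 10) / (Real.sqrt (A.det : ℝ) : ℂ) *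
      ∑ ρ ∈ R, ee (-(bd A μ ρ : ℂ)) * f ρ (-1 / τ)

/-! ### Job THETA1: Fourier facts -/

/-- THETA1. -/
def JobTheta1 : Prop := ∀ (A : Matrix (Fin 20) (Fin 20) ℤ) (c : ℂ → (Fin 20 → ℂ) → ℂ),
  PosSymm A → JacobiZero A c →
  (∀ μ, DifferentiableOn ℂ (fc c μ) {τ | 0 < τ.im}) ∧
  (∀ μ (τ : ℂ), 0 < τ.im → fc c μ (τ + 1) = fc c μ τ) ∧
  -- shift of the contour
  (∀ μ (τ : ℂ) (w : Fin 20 → ℂ), 0 < τ.im → fc c μ τ =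
    ∫ y in Set.Icc (0 : Fin 20 → ℝ) 1, c τ (fun i => w i + (y i : ℂ)) *
      ee (-(dt μ (fun i => w i + (y i : ℂ))))) ∧
  (∀ μ (v : Fin 20 → ℤ) (τ : ℂ), 0 < τ.im → vf A c (μ + A.mulVec v) τ = vf A c μ τ) ∧
  -- Fourier expansion
  (∀ (τ : ℂ) (z : Fin 20 → ℂ), 0 < τ.im →
    HasSum (fun μ : Fin 20 → ℤ => fc c μ τ * ee (dt μ z)) (c τ z))

/-- THETA2: the inversion formula. -/
def JobTheta2 : Prop := ∀ (A : Matrix (Fin 20) (Fin 20) ℤ) (c : ℂ → (Fin 20 → ℂ) → ℂ)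
  (R : Finset (Fin 20 → ℤ)), PosSymm A → JacobiZero A c → IsReps A R →
  ∀ μ (τ : ℂ), 0 < τ.im →
    vf A c μ τ = -(τ ^ 10) / (Real.sqrt (A.det : ℝ) : ℂ) *
      ∑ ρ ∈ R, ee (-(bd A μ ρ : ℂ)) * vf A c ρ (-1 / τ)

/-- FINFOUR: representatives and unitarity of the finite Fourier transform. -/
def JobFinFour : Prop := ∀ (A : Matrix (Fin 20) (Fin 20) ℤ), PosSymm A →
  0 < A.det ∧
  ∃ R : Finset (Fin 20 → ℤ), IsReps A R ∧ (R.card : ℤ) = A.det ∧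
  ∀ a : (Fin 20 → ℤ) → ℂ,
    ∑ μ ∈ R, ‖∑ ρ ∈ R, ee (-(bd A μ ρ : ℂ)) * a ρ‖ ^ 2 = (A.det : ℝ) * ∑ ρ ∈ R, ‖a ρ‖ ^ 2

/-- VV: the vanishing lemma for vector valued forms of negative weight `-w`. -/
def JobVV : Prop := ∀ (ι : Type) [Fintype ι] (w : ℕ) (κ : ℝ) (Ψ : ℂ → ι → ℂ),
  -(w : ℝ) / 12 < κ →
  DifferentiableOn ℂ Ψ {τ | 0 < τ.im} →
  (∀ τ : ℂ, 0 < τ.im → ∑ i, ‖Ψ (τ + 1) i‖ ^ 2 = ∑ i, ‖Ψ τ i‖ ^ 2) →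
  (∀ τ : ℂ, 0 < τ.im → ‖τ‖ ^ (2 * w) * ∑ i, ‖Ψ (-1 / τ) i‖ ^ 2 = ∑ i, ‖Ψ τ i‖ ^ 2) →
  (∃ C : ℝ, ∀ τ : ℂ, 1 / 2 ≤ τ.im → ∀ i, ‖Ψ τ i‖ ≤ C * Real.exp (-(2 * Real.pi * κ * τ.im))) →
  ∀ τ : ℂ, 0 < τ.im → ∀ i, Ψ τ i = 0

/-- ODE: the conclusion on the discriminant form. -/
def JobODE : Prop := ∀ (G : Matrix (Fin 20) (Fin 20) ℤ) (R : Finset (Fin 20 → ℤ))
  (f : (Fin 20 → ℤ) → ℂ → ℂ), PosSymm G → (∀ i, Even (G i i)) → IsReps G R → VV10 G R f →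
  (∀ μ, ∃ C : ℝ, ∀ τ : ℂ, 1 / 2 ≤ τ.im → ‖f μ τ‖ ≤ C * Real.exp (2 * Real.pi * τ.im)) →
  (∀ μ, (¬ ∃ v : Fin 20 → ℤ, μ = G.mulVec v) →
    ∃ C : ℝ, ∀ τ : ℂ, 1 / 2 ≤ τ.im → ‖f μ τ‖ ≤ C * Real.exp (Real.pi * τ.im)) →
  (∃ μ, ∃ τ : ℂ, 0 < τ.im ∧ f μ τ ≠ 0) →
  (∀ μ, (¬ ∃ v : Fin 20 → ℤ, μ = G.mulVec v) → ∃ k : ℤ, bd G μ μ = 2 * k + 1) ∧ G.det ≠ 1

/-- KD: the Koecher principle in one direction, as a statement in two variables. -/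
def JobKD : Prop := ∀ (θ c : ℂ) (m : ℝ) (b : ℝ → ℝ) (Φ : ℂ × ℂ → ℂ),
  0 < θ.im → 0 < m → Continuous b → b 0 < 0 →
  (∀ v, b (v + θ.im) = b v + m * v + m * θ.im / 2 - c.im) →
  DifferentiableOn ℂ Φ {q | b q.1.im < q.2.im} →
  (∀ ζ t : ℂ, b ζ.im < t.im → Φ (ζ + 1, t) = Φ (ζ, t)) →
  (∀ ζ t : ℂ, b ζ.im < t.im → Φ (ζ, t + 1) = Φ (ζ, t)) →
  (∀ ζ t : ℂ, b ζ.im < t.im → Φ (ζ + θ, t + m * ζ + m * θ / 2 - c) = Φ (ζ, t)) →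
  ∀ M : ℝ, (∀ x : ℝ, ‖Φ (0, (x : ℂ))‖ ≤ M) → ∀ t : ℂ, 0 ≤ t.im → ‖Φ (0, t)‖ ≤ M

/-- the Fourier-Jacobi coefficient -/
def fj {E : Type*} (b : E → ℝ) (F : ℂ × E → ℂ) (j : ℕ) (p : E) : ℂ :=
  ∫ u in (0 : ℝ)..1, F ((u : ℂ) + ((b p + 1 : ℝ) : ℂ) * Complex.I, p) *
    ee (-(j * ((u : ℂ) + ((b p + 1 : ℝ) : ℂ) * Complex.I)))

/-- FJ: Fourier expansion in one variable of functions with holomorphic parameters. -/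
def JobFJ : Prop := ∀ (E : Type) [NormedAddCommGroup E] [NormedSpace ℂ E] [FiniteDimensional ℂ E]
  (P : Set E) (b : E → ℝ) (F : ℂ × E → ℂ),
  IsOpen P → ContinuousOn b P →
  DifferentiableOn ℂ F {W | W.2 ∈ P ∧ b W.2 < W.1.im} →
  (∀ (ω : ℂ) (p : E), p ∈ P → b p < ω.im → F (ω + 1, p) = F (ω, p)) →
  (∀ p ∈ P, ∃ M : ℝ, ∀ ω : ℂ, b p + 1 ≤ ω.im → ‖F (ω, p)‖ ≤ M) →
  (∀ j, DifferentiableOn ℂ (fj b F j) P) ∧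
  (∀ (j : ℕ) (p : E) (v : ℝ), p ∈ P → b p < v →
    fj b F j p = ∫ u in (0 : ℝ)..1, F ((u : ℂ) + (v : ℂ) * Complex.I, p) *
      ee (-(j * ((u : ℂ) + (v : ℂ) * Complex.I)))) ∧
  (∀ (p : E) (ω : ℂ), p ∈ P → b p < ω.im →
    HasSum (fun j : ℕ => fj b F j p * ee (j * ω)) (F (ω, p))) ∧
  (∀ (p p' : E) (κ c : ℂ), p ∈ P → p' ∈ P →
    (∀ ω : ℂ, b p < ω.im → b p' < (ω + κ).im → F (ω + κ, p') = c * F (ω, p)) →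
    ∀ j : ℕ, fj b F j p' = c * ee (-(j * κ)) * fj b F j p)

/-- DIV: a quotient of logarithmic growth is holomorphic. -/
def JobDIV : Prop := ∀ (E : Type) [NormedAddCommGroup E] [NormedSpace ℂ E] [FiniteDimensional ℂ E]
  (Ω : Set E) (A B : E → ℂ), IsOpen Ω → DifferentiableOn ℂ A Ω → DifferentiableOn ℂ B Ω →
  (∀ p ∈ Ω, ∀ U ∈ 𝓝 p, ∃ q ∈ U, q ∈ Ω ∧ B q ≠ 0) →
  (∀ p ∈ Ω, ∃ U ∈ 𝓝 p, ∃ K : ℝ, ∀ q ∈ U, q ∈ Ω → ‖A q‖ ≤ K * ‖B q‖ * (1 + |Real.log ‖B q‖|)) →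
  ∃ c : E → ℂ, DifferentiableOn ℂ c Ω ∧ ∀ p ∈ Ω, A p = B p * c p

/-- VD: zeros on a small circle at few possible arguments force a low order coefficient. -/
def JobVD : Prop := ∀ (m : ℕ) (E : Finset ℂ), E.card < m → (∀ ε ∈ E, ‖ε‖ = 1) →
  ∃ K : ℝ, 0 < K ∧ ∀ (g h : ℂ → ℂ) (a : ℂ) (M : ℝ),
    0 < ‖a‖ → ‖a‖ ≤ 1 / 2 →
    AnalyticOnNhd ℂ g (Metric.closedBall 0 1) → AnalyticOnNhd ℂ h (Metric.closedBall 0 1) →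
    (∀ s ∈ Metric.closedBall (0 : ℂ) 1, g s = 1 + s ^ m * h s) →
    (∀ s ∈ Metric.closedBall (0 : ℂ) 1, ‖g s‖ ≤ Real.exp M) →
    (∀ s ∈ Metric.closedBall (0 : ℂ) 1, g s = 0 → ∃ ε ∈ E, s = a * ε) →
    (∃ s ∈ Metric.closedBall (0 : ℂ) 1, g s = 0) →
    1 ≤ K * M * ‖a‖

/-- BC: coefficient estimate for zero-free functions. -/
def JobBC : Prop := ∀ (m : ℕ) (R M : ℝ) (g h : ℂ → ℂ), 0 < m → 0 < R → 0 < M →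
  DifferentiableOn ℂ g (Metric.ball 0 R) → ContinuousAt h 0 →
  (∀ s ∈ Metric.ball (0 : ℂ) R, g s = 1 + s ^ m * h s) →
  (∀ s ∈ Metric.ball (0 : ℂ) R, g s ≠ 0) →
  (∀ s ∈ Metric.ball (0 : ℂ) R, ‖g s‖ ≤ Real.exp M) →
  ‖h 0‖ ≤ 2 * M * (2 / R) ^ m

/-- The two lattices with Gram matrices `B`, `C` are in the same genus. -/
def SameGenus {ι κ : Type} [Fintype ι] [Fintype κ] (B : Matrix ι ι ℤ) (C : Matrix κ κ ℤ) : Prop :=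
  (∃ e : (ι → ℝ) ≃ₗ[ℝ] (κ → ℝ), ∀ x y, bf C (e x) (e y) = bf B x y) ∧
  ∀ (p : ℕ) [Fact p.Prime],
    ∃ e : (ι → ℤ_[p]) ≃ₗ[ℤ_[p]] (κ → ℤ_[p]), ∀ x y, bf C (e x) (e y) = bf B x y

/-- The Gram matrix of the root lattice `2E_8 + D_4`. -/
def gramEED : Matrix (Fin 8 ⊕ (Fin 8 ⊕ Fin 4)) (Fin 8 ⊕ (Fin 8 ⊕ Fin 4)) ℤ :=
  Matrix.fromBlocks CartanMatrix.E₈ 0 0 (Matrix.fromBlocks CartanMatrix.E₈ 0 0 (CartanMatrix.D 4))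

/-- GENUS: the discriminant form determines the genus. -/
def JobGenus : Prop := ∀ (G : Matrix (Fin 20) (Fin 20) ℤ), PosSymm G → (∀ i, Even (G i i)) →
  (∀ μ, (¬ ∃ v : Fin 20 → ℤ, μ = G.mulVec v) → ∃ k : ℤ, bd G μ μ = 2 * k + 1) → G.det ≠ 1 →
  SameGenus G gramEED

end

end Pool.Agent.Y813.RL
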