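import Pool.Agent.Y813.RL.Tube4

set_option autoImplicit false

/-!
# Independence of the component of the domain
-/

namespace Pool.Agent.Y813.RL

open Complex Set Finset Pool.Agent.Y813.Refl

noncomputable section

section

variable {ι : Type} [Fintype ι] [DecidableEq ι] {B : Matrix ι ι ℤ}

theorem act_act_inv {R : Type*} [CommRing R] (g : Matrix.GeneralLinearGroup ι ℤ) (x : ι → R) :
    act g.val (act (g⁻¹).val x) = x := by
  rw [← act_mul, ← Units.val_mul, mul_inv_cancel, Units.val_one, act_one]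

theorem act_inv_act {R : Type*} [CommRing R] (g : Matrix.GeneralLinearGroup ι ℤ) (x : ι → R) :
    act (g⁻¹).val (act g.val x) = x := by
  rw [← act_mul, ← Units.val_mul, inv_mul_cancel, Units.val_one, act_one]

theorem conj_mem {g : Matrix.GeneralLinearGroup ι ℤ} {A A' : Set (ι → ℂ)}
    (hg : ∀ x y : ι → ℤ, form B (act g.val x) (act g.val y) = form B x y)
    (hA : ∀ Z, Z ∈ A' ↔ act g.val Z ∈ A) {γ : Matrix.GeneralLinearGroup ι ℤ}
    (hγ : γ ∈ discKernel B A') : g * γ * g⁻¹ ∈ discKernel B A := by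
  obtain ⟨h1, h2, h3⟩ := hγ
  refine ⟨fun x y => ?_, fun Z => ?_, fun x hx => ?_⟩
  · rw [Units.val_mul, Units.val_mul, act_mul, act_mul, act_mul, act_mul, hg, h1, ← hg,
      act_act_inv, act_act_inv]
  · rw [Units.val_mul, Units.val_mul, act_mul, act_mul, ← hA, h2, hA, act_act_inv]
  · obtain ⟨w, hw⟩ := h3 (act (g⁻¹).val x) (by
      intro y
      obtain ⟨m, hm⟩ := hx (act g.val y)
      refine ⟨m, ?_⟩
      rw [← hm, ← act_cast, ← form_act_of_int hg (act (g⁻¹).val x), act_act_inv])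
    refine ⟨act g.val w, fun i => ?_⟩
    rw [Units.val_mul, Units.val_mul, act_mul, act_mul]
    have e1 : act γ.val (act (g⁻¹).val x) = fun i => (act (g⁻¹).val x) i -
        (fun i => -(w i : ℚ)) i := by
      funext i
      linarith [hw i]
    rw [e1, act_sub, act_act_inv]
    have e2 := congrFun (act_cast (R := ℚ) g.val w) i
    rw [← e2]
    simp [act]

/-- conjugation as a homomorphism of the discriminant kernels -/
def conjHom (g : Matrix.GeneralLinearGroup ι ℤ) {A A' : Set (ι → ℂ)}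
    (hg : ∀ x y : ι → ℤ, form B (act g.val x) (act g.val y) = form B x y)
    (hA : ∀ Z, Z ∈ A' ↔ act g.val Z ∈ A) : discKernel B A' →* discKernel B A where
  toFun := fun γ => ⟨g * γ.1 * g⁻¹, conj_mem hg hA γ.2⟩
  map_one' := by
    apply Subtype.ext
    simp
  map_mul' := by
    intro a b
    apply Subtype.ext
    simp [mul_assoc]

theorem reflective_inv {g : Matrix.GeneralLinearGroup ι ℤ}
    (hg : ∀ x y : ι → ℤ, form B (act g.val x) (act g.val y) = form B x y) {v : ι → ℤ}
    (hv : IsReflective B v) : IsReflective B (act (g⁻¹).val v) := by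
  obtain ⟨h1, h2, h3⟩ := hv
  have hinv : ∀ x y : ι → ℤ, form B (act (g⁻¹).val x) (act (g⁻¹).val y) = form B x y := by
    intro x y
    rw [← hg, act_act_inv, act_act_inv]
  refine ⟨fun d w hw => ?_, by rw [hinv]; exact h2, fun x => ?_⟩
  · apply h1 d (act g.val w)
    intro i
    have e1 : act (g⁻¹).val v = fun i => d * w i := funext hw
    have e2 : v = act g.val (act (g⁻¹).val v) := (act_act_inv g v).symm
    rw [e2, e1]
    simp only [act, Finset.mul_sum]
    exact Finset.sum_congr rfl fun j _ => by push_cast; ring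
  · obtain ⟨y, hy⟩ := h3 (act g.val x)
    refine ⟨act (g⁻¹).val y, fun i => ?_⟩
    have e1 : form B x (act (g⁻¹).val v) = form B (act g.val x) v := by
      rw [← hg, act_act_inv]
    rw [hinv, e1]
    set q : ℚ := 2 * ((form B (act g.val x) v : ℤ) : ℚ) / ((form B v v : ℤ) : ℚ) with hq
    have e2 := congrFun (act_cast (R := ℚ) (g⁻¹).val y) i
    have e3 := congrFun (act_cast (R := ℚ) (g⁻¹).val v) i
    have e4 := congrFun (act_cast (R := ℚ) (g⁻¹).val (act g.val x)) i
    rw [act_inv_act] at e4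
    rw [← e2, ← e3, ← e4]
    have e5 : (fun i => (y i : ℚ)) = fun i => ((act g.val x i : ℤ) : ℚ) -
        (fun i => q * (v i : ℚ)) i := by
      funext i
      rw [hy i]
    rw [e5, act_sub]
    simp only
    congr 1
    simp only [act, Finset.mul_sum]
    exact Finset.sum_congr rfl fun j _ => by ring

/-- transport of reflectivity along an isometry -/
theorem transport {g : Matrix.GeneralLinearGroup ι ℤ} {A A' : Set (ι → ℂ)}
    (hg : ∀ x y : ι → ℤ, form B (act g.val x) (act g.val y) = form B x y)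
    (hA : ∀ Z, Z ∈ A' ↔ act g.val Z ∈ A) (hR : IsReflectiveLattice B A) :
    IsReflectiveLattice B A' := by
  obtain ⟨k, χ, F, ⟨hholo, hhom, ⟨n, hn, hχ⟩, hequi⟩, hnc, hz⟩ := hR
  refine ⟨k, χ.comp (conjHom g hg hA), fun Z => F (act g.val Z), ⟨?_, ?_, ?_, ?_⟩, ?_, ?_⟩
  · refine hholo.comp ?_ fun Z hZ => (hA Z).1 hZ
    unfold act
    fun_prop
  · intro Z hZ t ht
    rw [← hhom _ ((hA Z).1 hZ) t ht]
    congr 1
    funext i
    simp only [act, Finset.mul_sum]
    exact Finset.sum_congr rfl fun j _ => by ring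
  · exact ⟨n, hn, fun γ => hχ _⟩
  · intro γ Z hZ
    rw [MonoidHom.comp_apply, ← hequi (conjHom g hg hA γ) _ ((hA Z).1 hZ)]
    congr 1
    show _ = act (g * γ.1 * g⁻¹).val (act g.val Z)
    rw [Units.val_mul, Units.val_mul, act_mul, act_mul, act_inv_act]
  · rintro ⟨c, hc⟩
    apply hnc
    refine ⟨c, fun W hW => ?_⟩
    have h1 := hc (act (g⁻¹).val W) (by
      rw [hA, act_act_inv]
      exact hW)
    simp only at h1
    rwa [act_act_inv] at h1
  · intro Z hZ hF
    obtain ⟨v, hv, hvZ⟩ := hz _ ((hA Z).1 hZ) hF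
    refine ⟨act (g⁻¹).val v, reflective_inv hg hv, ?_⟩
    rw [← act_cast, ← form_act_of_int hg, act_act_inv]
    exact hvZ

end

variable {G : Matrix (Fin 20) (Fin 20) ℤ}

theorem param_of_sg {Z : Fin 4 ⊕ Fin 20 → ℂ} (hq : Z ∈ quadric (gramM G))
    (hs : 0 < sg Z) : Z (.inl 0) ≠ 0 ∧ ∃ W ∈ Hd G, Z = fun i => Z (.inl 0) * ZW G W i := by
  have ha : Z (.inl 0) ≠ 0 := by
    intro h0
    simp [sg, h0] at hs
  refine ⟨ha, ?_⟩
  have hq' := hq
  rw [mk_eta Z, quadric_mk] at hq'
  have hZ' := mk_eta Z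
  unfold sg at hs
  set a := Z (.inl 0)
  set b := Z (.inl 1)
  set c := Z (.inl 2)
  set d := Z (.inl 3)
  set z : Fin 20 → ℂ := fun i => Z (.inr i)
  have e1 : (fun i => a⁻¹ * Z i) = mk 1 (a⁻¹ * b) (a⁻¹ * c) (a⁻¹ * d) (fun i => a⁻¹ * z i) := by
    conv_lhs => rw [hZ']
    rw [smul_mk, inv_mul_cancel₀ ha]
  have hmem : (fun i => a⁻¹ * Z i) ∈ quadric (gramM G) := by
    rw [mem_quadric] at hq ⊢
    have f1 : (fun i => a⁻¹ * Z i) = a⁻¹ • Z := by funext i; simp
    have f2 : (fun i => (starRingEnd ℂ) (a⁻¹ * Z i)) =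
        (starRingEnd ℂ a⁻¹) • fun i => (starRingEnd ℂ) (Z i) := by
      funext i; simp
    rw [f1, f2, bf_smul_left, bf_smul_right, bf_smul_left, bf_smul_right, hq.1]
    refine ⟨by simp, ?_⟩
    rw [← mul_assoc, Complex.mul_conj, Complex.re_ofReal_mul]
    exact mul_pos (Complex.normSq_pos.2 (inv_ne_zero ha)) hq.2
  rw [e1] at hmem
  have e2 := eq_ZW G hmem
  have hτ : 0 < (a⁻¹ * d).im := by
    have : a⁻¹ * d = (((Complex.normSq a)⁻¹ : ℝ) : ℂ) * (d * starRingEnd ℂ a) := by
      rw [Complex.inv_def]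
      ring
    rw [this, Complex.im_ofReal_mul]
    exact mul_pos (inv_pos.2 (Complex.normSq_pos.2 ha)) hs
  refine ⟨(a⁻¹ * c, (a⁻¹ * d, fun i => a⁻¹ * z i)), ⟨hτ, ?_⟩, ?_⟩
  · exact (ZW_mem G hτ).1 (e2 ▸ hmem)
  · rw [← e2, ← e1]
    funext i
    field_simp

theorem mem_cone_of_sg (h : PosSymm G) {Z : Fin 4 ⊕ Fin 20 → ℂ} (hq : Z ∈ quadric (gramM G))
    (hs : 0 < sg Z) : Z ∈ coneM G := by
  obtain ⟨ha, W, hW, hZ⟩ := param_of_sg hq hs
  set a := Z (.inl 0)
  have hWc := ZW_mem_cone h hW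
  have hWq : ZW G W ∈ quadric (gramM G) := (ZW_mem G hW.1).2 hW.2
  have heq : connectedComponentIn (quadric (gramM G)) (ZW G W) = coneM G := by
    rw [coneM_eq] at hWc ⊢
    exact (connectedComponentIn_eq hWc).symm
  rw [← heq]
  let γ : ℝ → Fin 4 ⊕ Fin 20 → ℂ := fun s => Complex.exp (s * Complex.log a) • ZW G W
  have hγ1 : γ 1 = Z := by
    rw [hZ]
    simp only [γ]
    rw [Complex.ofReal_one, one_mul, Complex.exp_log ha]
    funext i
    rfl
  rw [← hγ1]
  apply path_mem γ
  · simp only [γ]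
    fun_prop
  · simp [γ]
  · intro s _
    rw [mem_quadric] at hWq ⊢
    simp only [γ]
    have f2 : (fun i => (starRingEnd ℂ) ((Complex.exp (s * Complex.log a) • ZW G W) i)) =
        (starRingEnd ℂ (Complex.exp (s * Complex.log a))) •
          fun i => (starRingEnd ℂ) (ZW G W i) := by
      funext i; simp
    rw [f2, bf_smul_left, bf_smul_right, bf_smul_left, bf_smul_right, hWq.1]
    refine ⟨by simp, ?_⟩
    rw [← mul_assoc, Complex.mul_conj, Complex.re_ofReal_mul]
    exact mul_pos (Complex.normSq_pos.2 (Complex.exp_ne_zero _)) hWq.2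

/-- the matrix interchanging the two components -/
def PC : Matrix (Fin 4) (Fin 4) ℤ := !![1, 0, 0, 0; 0, 1, 0, 0; 0, 0, -1, 0; 0, 0, 0, -1]

theorem PC_mul : PC * PC = 1 := by decide

theorem act_PC {R : Type*} [CommRing R] (a b c d : R) (z : Fin 20 → R) :
    act (blk PC) (mk a b c d z) = mk a b (-c) (-d) z := by
  funext i
  rcases i with i | i
  · match i with
    | 0 => simp [act, blk, mk, PC, Fintype.sum_sum_type, Fin.sum_univ_four]
    | 1 => simp [act, blk, mk, PC, Fintype.sum_sum_type, Fin.sum_univ_four]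
    | 2 => simp [act, blk, mk, PC, Fintype.sum_sum_type, Fin.sum_univ_four]
    | 3 => simp [act, blk, mk, PC, Fintype.sum_sum_type, Fin.sum_univ_four]
  · rw [act_blk_inr]; rfl

theorem PC_form (x y : Fin 4 ⊕ Fin 20 → ℤ) :
    form (gramM G) (act (blkG PC_mul PC_mul).val x) (act (blkG PC_mul PC_mul).val y) =
      form (gramM G) x y := by
  show bf _ (act (blk PC) x) (act (blk PC) y) = bf _ x y
  rw [mk_eta x, mk_eta y, act_PC, act_PC, bf_mk, bf_mk]
  ring

/-- **reflectivity does not depend on the component** -/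
theorem reflective_component (h : PosSymm G) {Z₀ : Fin 4 ⊕ Fin 20 → ℂ}
    (hZ₀ : Z₀ ∈ quadric (gramM G))
    (hR : IsReflectiveLattice (gramM G) (connectedComponentIn (quadric (gramM G)) Z₀)) :
    IsReflectiveLattice (gramM G) (coneM G) := by
  rcases lt_or_gt_of_ne (sg_ne_zero h hZ₀) with hs | hs
  · set g := blkG PC_mul PC_mul with hg
    have hgq : ∀ Z : Fin 4 ⊕ Fin 20 → ℂ, act g.val Z ∈ quadric (gramM G) ↔
        Z ∈ quadric (gramM G) := act_quadric PC_form
    have hsg : 0 < sg (act g.val Z₀) := by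
      have e : sg (act g.val Z₀) = -sg Z₀ := by
        have : act g.val Z₀ = act (blk PC) Z₀ := rfl
        rw [this, mk_eta Z₀, act_PC]
        simp [sg, mk]
      rw [e]
      linarith
    have hc : act g.val Z₀ ∈ coneM G := mem_cone_of_sg h ((hgq Z₀).2 hZ₀) hsg
    have hgg : ∀ Z : Fin 4 ⊕ Fin 20 → ℂ, act g.val (act g.val Z) = Z := by
      intro Z
      rw [← act_mul, hg]
      have : (blkG PC_mul PC_mul).val * (blkG PC_mul PC_mul).val =
          (1 : Matrix (Fin 4 ⊕ Fin 20) (Fin 4 ⊕ Fin 20) ℤ) := (blkG PC_mul PC_mul).val_inv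
      rw [this, act_one]
    have himg : actH g '' quadric (gramM G) = quadric (gramM G) := by
      ext Z
      constructor
      · rintro ⟨Y, hY, rfl⟩
        exact (hgq Y).2 hY
      · intro hZ
        exact ⟨act g.val Z, (hgq Z).2 hZ, hgg Z⟩
    have hcomp : actH g '' connectedComponentIn (quadric (gramM G)) Z₀ = coneM G := by
      rw [Homeomorph.image_connectedComponentIn _ hZ₀, himg]
      have e : actH g Z₀ = act g.val Z₀ := rfl
      rw [e]
      rw [coneM_eq] at hc ⊢
      exact (connectedComponentIn_eq hc).symm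
    refine transport (g := g) PC_form (fun Z => ?_) hR
    rw [← hcomp]
    constructor
    · rintro ⟨Y, hY, rfl⟩
      have : act g.val (actH g Y) = Y := hgg Y
      rwa [this]
    · intro hZ
      exact ⟨act g.val Z, hZ, hgg Z⟩
  · have hc := mem_cone_of_sg h hZ₀ hs
    have heq : connectedComponentIn (quadric (gramM G)) Z₀ = coneM G := by
      rw [coneM_eq] at hc ⊢
      exact (connectedComponentIn_eq hc).symm
    rwa [heq] at hR

end

end Pool.Agent.Y813.RL
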