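import Pool.Agent.Y813.RL.Jac

set_option autoImplicit false

/-!
# The Jacobi form
-/

namespace Pool.Agent.Y813.RL

open Complex Set Finset Topology

noncomputable section

variable {G : Matrix (Fin 20) (Fin 20) ℤ} {k : ℤ} {F : TP → ℂ}
  {φ : ℕ → ℂ × (Fin 20 → ℂ) → ℂ} {C m : ℕ}

/-- bound on horizontal lines, uniformly on compact sets -/
theorem line_bound (hF : TubeForm G k F) {K : Set (ℂ × (Fin 20 → ℂ))}
    (hK : IsCompact K) (hKU : K ⊆ UP) {v : ℝ} (hv : ∀ p ∈ K, bh G p < v) :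
    ∃ M : ℝ, 0 ≤ M ∧ ∀ p ∈ K, ∀ ω : ℂ, ω.im = v → ‖F (ω, p)‖ ≤ M := by
  have hc : ContinuousOn (fun q : ℝ × (ℂ × (Fin 20 → ℂ)) => F ((q.1 : ℂ) + v * Complex.I, q.2))
      (Set.Icc 0 1 ×ˢ K) := by
    refine hF.holo.continuousOn.comp (by fun_prop) ?_
    rintro ⟨u, p⟩ ⟨_, hp⟩
    refine ⟨hKU hp, ?_⟩
    have : ((u : ℂ) + v * Complex.I).im = v := by simp
    simp only [this]
    exact hv p hp
  obtain ⟨M, hM⟩ := (isCompact_Icc.prod hK).exists_bound_of_continuousOn hc
  refine ⟨|M|, abs_nonneg _, fun p hp ω hω => ?_⟩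
  have htr := hF.tr (ω, p) ⟨hKU hp, by rw [hω]; exact hv p hp⟩ (-⌊ω.re⌋) 0 0
  have h1 : ((ω + ((-⌊ω.re⌋ : ℤ) : ℂ), (p.1 + ((0 : ℤ) : ℂ),
      fun i => p.2 i + (((0 : Fin 20 → ℤ) i : ℤ) : ℂ))) : TP) =
      (((Int.fract ω.re : ℝ) : ℂ) + v * Complex.I, p) := by
    refine Prod.ext ?_ (Prod.ext ?_ ?_)
    · apply Complex.ext
      · have : (ω + ((-⌊ω.re⌋ : ℤ) : ℂ)).re = ω.re - ⌊ω.re⌋ := by simp [sub_eq_add_neg]
        simp only
        rw [this, Int.self_sub_floor]
        simp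
      · simp [hω]
    · simp
    · funext i
      simp
  rw [← htr]
  simp only
  rw [h1]
  exact (hM (Int.fract ω.re, p) ⟨⟨Int.fract_nonneg _, (Int.fract_lt_one _).le⟩, hp⟩).trans
    (le_abs_self _)

/-- the leading coefficient is nonzero on a dense set -/
theorem CM.dense (h : PosSymm G) (H : CM G k F φ C m) {p : ℂ × (Fin 20 → ℂ)} (hp : p ∈ UP)
    {U : Set (ℂ × (Fin 20 → ℂ))} (hU : U ∈ 𝓝 p) : ∃ q ∈ U, q ∈ UP ∧ q ∉ Mir G ∧ φ C q ≠ 0 := by
  obtain ⟨q, hq, hqU, hqm⟩ := dense_compl_mir h hp hU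
  exact ⟨q, hq, hqU, hqm, leading_ne_zero h H.tf H.fd H.hC H.hne hqU hqm⟩

theorem CM.dens_eq (h : PosSymm G) (H : CM G k F φ C m) {f g : ℂ × (Fin 20 → ℂ) → ℂ}
    (hf : ContinuousOn f UP) (hg : ContinuousOn g UP) (he : ∀ p ∈ UP, φ C p ≠ 0 → f p = g p)
    {p : ℂ × (Fin 20 → ℂ)} (hp : p ∈ UP) : f p = g p := by
  by_contra hne
  have h1 : ContinuousAt (fun q => f q - g q) p :=
    (hf.sub hg).continuousAt (isOpen_UP.mem_nhds hp)
  have h2 : ∀ᶠ q in 𝓝 p, f q - g q ≠ 0 := h1.eventually_ne (sub_ne_zero.2 hne)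
  obtain ⟨q, hq, hqU, _, hq0⟩ := H.dense h hp h2
  exact hq (sub_eq_zero.2 (he q hqU hq0))

/-- **the quotient** -/
theorem CM.exists_quot (hBC : JobBC) (hDIV : JobDIV) (h : PosSymm G) (H : CM G k F φ C m) :
    ∃ c : ℂ × (Fin 20 → ℂ) → ℂ, DifferentiableOn ℂ c UP ∧
      ∀ p ∈ UP, φ (C + m) p = φ C p * c p := by
  refine hDIV (ℂ × (Fin 20 → ℂ)) UP (φ (C + m)) (φ C) isOpen_UP (H.fd.holo _) (H.fd.holo _) ?_ ?_
  · intro p hp U hU
    obtain ⟨q, h1, h2, _, h3⟩ := H.dense h hp hU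
    exact ⟨q, h1, h2, h3⟩
  · intro p hp
    obtain ⟨r, hr, hball⟩ := Metric.isOpen_iff.1 isOpen_UP p hp
    have hKU : Metric.closedBall p (r / 2) ⊆ UP :=
      (Metric.closedBall_subset_ball (by linarith)).trans hball
    have hKc : IsCompact (Metric.closedBall p (r / 2)) := isCompact_closedBall _ _
    obtain ⟨v, hv⟩ := hKc.exists_bound_of_continuousOn (continuousOn_thr.mono hKU)
    have hvt : ∀ x ∈ Metric.closedBall p (r / 2), thr G x < v + 1 := fun x hx => by
      have := hv x hx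
      rw [Real.norm_eq_abs] at this
      linarith [le_abs_self (thr G x)]
    have hvb : ∀ x ∈ Metric.closedBall p (r / 2), bh G x < v + 1 :=
      fun x hx => (bh_lt_thr (hKU hx)).trans (hvt x hx)
    obtain ⟨M, hM0, hM⟩ := line_bound H.tf hKc hKU hvb
    set K := (2 * (2 / Real.exp (-(2 * Real.pi * (v + 1)))) ^ m *
      (1 + |Real.log (|M| * Real.exp (2 * Real.pi * (v + 1) * C))|)) with hK
    have hoff : ∀ q ∈ Metric.closedBall p (r / 2), q ∉ Mir G →
        ‖φ (C + m) q‖ ≤ K * ‖φ C q‖ * (1 + |Real.log ‖φ C q‖|) := by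
      intro q hq hqm
      exact H.quot_bound hBC h (hKU hq) hqm (hvt q hq) (hM q hq)
    refine ⟨Metric.ball p (r / 2), Metric.ball_mem_nhds _ (by positivity), K, ?_⟩
    intro q hq hqU
    by_contra hcon
    push Not at hcon
    -- continuity
    have hcontφ : ContinuousAt (fun x => ‖φ C x‖) q :=
      ((H.fd.holo C).continuousOn.continuousAt (isOpen_UP.mem_nhds hqU)).norm
    have hcontψ : ContinuousAt (fun x => ‖φ (C + m) x‖) q :=
      ((H.fd.holo (C + m)).continuousOn.continuousAt (isOpen_UP.mem_nhds hqU)).norm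
    have hmul : Continuous fun t : ℝ => K * (t + |t * Real.log t|) := by
      have := Real.continuous_mul_log
      fun_prop
    have hc1 : ContinuousAt (fun x => K * (‖φ C x‖ + |‖φ C x‖ * Real.log ‖φ C x‖|)) q :=
      ContinuousAt.comp (g := fun t : ℝ => K * (t + |t * Real.log t|)) (f := fun x => ‖φ C x‖)
        hmul.continuousAt hcontφ
    have hconv : ∀ x, K * ‖φ C x‖ * (1 + |Real.log ‖φ C x‖|) =
        K * (‖φ C x‖ + |‖φ C x‖ * Real.log ‖φ C x‖|) := by
      intro x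
      rw [abs_mul, abs_of_nonneg (norm_nonneg (φ C x))]
      ring
    rw [hconv] at hcon
    have hev : ∀ᶠ x in 𝓝 q, K * (‖φ C x‖ + |‖φ C x‖ * Real.log ‖φ C x‖|) < ‖φ (C + m) x‖ :=
      hc1.eventually_lt hcontψ hcon
    have hev2 : ∀ᶠ x in 𝓝 q, x ∈ Metric.ball p (r / 2) := Metric.isOpen_ball.mem_nhds hq
    obtain ⟨x, hx, _, hxm, _⟩ := H.dense h hqU (hev.and hev2)
    have h1 := hoff x (Metric.ball_subset_closedBall hx.2) hxm
    rw [hconv] at h1
    exact absurd hx.1 (not_lt.2 h1)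

theorem bf_smulZ (n : ℕ) (x y : Fin 20 → ℂ) : bf ((n : ℤ) • G) x y = n * bf G x y := by
  simp only [bf, Matrix.smul_apply, smul_eq_mul, Int.cast_mul, Int.cast_natCast, Finset.mul_sum]
  exact Finset.sum_congr rfl fun i _ => Finset.sum_congr rfl fun j _ => by ring

theorem bf_smulR (n : ℕ) (x y : Fin 20 → ℝ) : bf ((n : ℤ) • G) x y = n * bf G x y := by
  simp only [bf, Matrix.smul_apply, smul_eq_mul, Int.cast_mul, Int.cast_natCast, Finset.mul_sum]
  exact Finset.sum_congr rfl fun i _ => Finset.sum_congr rfl fun j _ => by ring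

theorem posSymm_smul (h : PosSymm G) {n : ℕ} (hn : 0 < n) : PosSymm ((n : ℤ) • G) where
  symm := by
    have := h.symm
    unfold Matrix.IsSymm at *
    rw [Matrix.transpose_smul, this]
  pos := by
    intro x hx
    rw [bf_smulR]
    exact mul_pos (by exact_mod_cast hn) (h.pos x hx)

/-- **The Jacobi form of weight 0 and index m.** -/
theorem CM.exists_jacobi (hBC : JobBC) (hDIV : JobDIV) (h : PosSymm G) (H : CM G k F φ C m) :
    ∃ c : ℂ → (Fin 20 → ℂ) → ℂ, JacobiZero ((m : ℤ) • G) c ∧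
      ∀ τ z, 0 < τ.im → φ (C + m) (τ, z) = φ C (τ, z) * c τ z := by
  obtain ⟨c, hc, hcq⟩ := H.exists_quot hBC hDIV h
  have hcc := hc.continuousOn
  -- general law
  have glaw : ∀ (α : ℂ × (Fin 20 → ℂ) → ℂ × (Fin 20 → ℂ)) (κ γ : ℂ × (Fin 20 → ℂ) → ℂ),
      ContinuousOn α UP → MapsTo α UP UP → ContinuousOn κ UP → (∀ p ∈ UP, γ p ≠ 0) →
      (∀ p ∈ UP, ∀ j : ℕ, φ j (α p) = γ p * ee (-(j * κ p)) * φ j p) →
      ∀ p ∈ UP, c (α p) = ee (-(m * κ p)) * c p := by
    intro α κ γ hα hm hκ hγ hl p hp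
    refine H.dens_eq h (f := fun p => c (α p)) (g := fun p => ee (-(m * κ p)) * c p)
      (hcc.comp hα hm) ?_ ?_ hp
    · have : Continuous ee := by unfold ee; fun_prop
      exact (this.comp_continuousOn (by fun_prop)).mul hcc
    · intro q hq hq0
      have h1 := hcq (α q) (hm hq)
      rw [hl q hq, hl q hq, hcq q hq] at h1
      have h2 : ee (-(((C + m : ℕ) : ℂ) * κ q)) = ee (-(C * κ q)) * ee (-(m * κ q)) := by
        rw [← ee_add]
        congr 1
        push_cast
        ring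
      rw [h2] at h1
      have h3 : γ q * ee (-(C * κ q)) * φ C q ≠ 0 :=
        mul_ne_zero (mul_ne_zero (hγ q hq) (ee_ne_zero _)) hq0
      apply mul_left_cancel₀ h3
      rw [← h1]
      ring
  refine ⟨fun τ z => c (τ, z), ⟨hc, ?_, ?_, ?_, ?_⟩, fun τ z hτ => hcq (τ, z) hτ⟩
  · intro τ z hτ
    have := glaw (fun p => (p.1 + 1, p.2)) (fun _ => 0) (fun _ => 1) (by fun_prop)
      (fun p hp => by
        have hp' : 0 < p.1.im := hp
        show 0 < (p.1 + 1).im
        simpa using hp') (by fun_prop) (fun _ _ => one_ne_zero) (by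
        intro p hp j
        rw [law_T H.tf H.fd j p.2 hp]
        simp [ee_zero]) (τ, z) hτ
    simpa [ee_zero] using this
  · intro τ z v hτ
    have := glaw (fun p => (p.1, fun i => p.2 i + (v i : ℂ))) (fun _ => 0) (fun _ => 1)
      (by fun_prop) (fun p hp => hp) (by fun_prop) (fun _ _ => one_ne_zero) (by
        intro p hp j
        rw [law_z H.tf H.fd j p.2 v hp]
        simp [ee_zero]) (τ, z) hτ
    simpa [ee_zero] using this
  · intro τ z v hτ
    have hbc : Continuous fun p : ℂ × (Fin 20 → ℂ) => bf G (fun i => (v i : ℂ)) p.2 :=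
      bf_contC G continuous_const (by fun_prop)
    have := glaw (fun p => (p.1, fun i => p.2 i + p.1 * (v i : ℂ)))
      (fun p => bf G (fun i => (v i : ℂ)) p.2 +
        bf G (fun i => (v i : ℂ)) (fun i => (v i : ℂ)) / 2 * p.1) (fun _ => 1)
      (by fun_prop) (fun p hp => hp) (by fun_prop) (fun _ _ => one_ne_zero) (by
        intro p hp j
        rw [law_q H.tf H.fd j p.2 v hp]
        simp) (τ, z) hτ
    simp only at this
    rw [this, bf_smulZ, bf_smulZ]
    congr 2
    ring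
  · intro τ z hτ
    have hbc : Continuous fun p : ℂ × (Fin 20 → ℂ) => bf G p.2 p.2 :=
      bf_contC G (by fun_prop) (by fun_prop)
    have hne : ∀ p ∈ UP, p.1 ≠ 0 := by
      intro p hp h0
      have hp' : 0 < p.1.im := hp
      rw [h0] at hp'
      simp at hp'
    have := glaw (fun p => (-1 / p.1, fun i => p.2 i / p.1))
      (fun p => -(bf G p.2 p.2 / (2 * p.1))) (fun p => p.1 ^ k)
      (by
        refine ContinuousOn.prodMk ?_ ?_
        · exact ContinuousOn.div (by fun_prop) (by fun_prop) hne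
        · rw [continuousOn_pi]
          intro i
          exact ContinuousOn.div (by fun_prop) (by fun_prop) hne)
      (by
        intro p hp
        have hp' : 0 < p.1.im := hp
        show 0 < (-1 / p.1).im
        rw [neg_div, Complex.neg_im, one_div, Complex.inv_im]
        have h1 : 0 < Complex.normSq p.1 := Complex.normSq_pos.2 (hne p hp)
        have h2 := div_pos hp' h1
        rw [neg_div, neg_neg]
        exact h2)
      (by
        refine ContinuousOn.neg (ContinuousOn.div hbc.continuousOn (by fun_prop) ?_)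
        intro p hp
        exact mul_ne_zero two_ne_zero (hne p hp))
      (fun p hp => zpow_ne_zero _ (hne p hp)) (by
        intro p hp j
        exact law_S H.tf H.fd j p.2 hp) (τ, z) hτ
    simp only at this
    rw [this, bf_smulZ]
    congr 2
    ring

end

end Pool.Agent.Y813.RL
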