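import Pool.Agent.Y683.RL.Fou
import Pool.Agent.Y813.RL.Jac2

set_option autoImplicit false

/-!
# Periodic holomorphic functions
-/

namespace Pool.Agent.Y813.RL

open Complex Set Finset Topology Pool.Agent.Y683.RL

noncomputable section

/-- bound for a part of the Fourier series -/
theorem part_bound {f : ℂ → ℂ} (hf : HP 0 f) {g : ℤ → ℂ} {n₁ : ℝ}
    (hg : ∀ n, ‖g n‖ ≤ ‖fco 0 f n‖) (h0 : ∀ n : ℤ, (n : ℝ) < n₁ → g n = 0) :
    ∃ C : ℝ, 0 ≤ C ∧ ∀ t : ℂ, 1 / 2 ≤ t.im → ∀ S : ℂ, HasSum (fun n : ℤ => g n * ee (n * t)) S →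
      ‖S‖ ≤ C * Real.exp (-(2 * Real.pi * n₁ * t.im)) := by
  have hpi := Real.pi_pos
  obtain ⟨hs, _⟩ := hf.hasSum (t := ((1 / 2 : ℝ) : ℂ) * Complex.I) (by
    rw [Complex.im_ofReal_mul]; norm_num)
  have him : (((1 / 2 : ℝ) : ℂ) * Complex.I).im = 1 / 2 := by
    rw [Complex.im_ofReal_mul]; norm_num
  set B := ∑' n : ℤ, ‖fco 0 f n * ee (n * (((1 / 2 : ℝ) : ℂ) * Complex.I))‖ with hB
  have hB0 : 0 ≤ B := tsum_nonneg fun n => norm_nonneg _
  refine ⟨B * Real.exp (Real.pi * n₁), by positivity, fun t ht S hS => ?_⟩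
  have hterm : ∀ n : ℤ, ‖g n * ee (n * t)‖ ≤
      ‖fco 0 f n * ee (n * (((1 / 2 : ℝ) : ℂ) * Complex.I))‖ *
        (Real.exp (Real.pi * n₁) * Real.exp (-(2 * Real.pi * n₁ * t.im))) := by
    intro n
    by_cases hn : (n : ℝ) < n₁
    · rw [h0 n hn, zero_mul, norm_zero]
      positivity
    · push Not at hn
      have e1 : ((n : ℂ) * t).im = n * t.im := by
        rw [Complex.mul_im]; simp
      have e2 : ((n : ℂ) * (((1 / 2 : ℝ) : ℂ) * Complex.I)).im = n * (1 / 2) := by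
        rw [Complex.mul_im, him]; simp
      have e3 : ∀ x y z w : ℝ, x * Real.exp y * (Real.exp z * Real.exp w) =
          x * Real.exp (y + (z + w)) := by
        intro x y z w
        rw [Real.exp_add, Real.exp_add]
        ring
      rw [norm_mul, norm_mul, norm_ee, norm_ee, e1, e2, e3]
      refine mul_le_mul (hg n) (Real.exp_le_exp.2 ?_) (Real.exp_pos _).le (norm_nonneg _)
      have h1 : 0 ≤ ((n : ℝ) - n₁) * (t.im - 1 / 2) := mul_nonneg (by linarith) (by linarith)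
      nlinarith
  have hsum2 := hs.mul_right (Real.exp (Real.pi * n₁) * Real.exp (-(2 * Real.pi * n₁ * t.im)))
  have h1 := tsum_of_norm_bounded hsum2.hasSum hterm
  rw [hS.tsum_eq, tsum_mul_right] at h1
  rw [mul_assoc]
  exact h1

/-- growth from the vanishing of Fourier coefficients -/
theorem per_growth {f : ℂ → ℂ} (hf : HP 0 f) {n₁ : ℝ}
    (h0 : ∀ n : ℤ, (n : ℝ) < n₁ → fco 0 f n = 0) :
    ∃ C : ℝ, 0 ≤ C ∧ ∀ t : ℂ, 1 / 2 ≤ t.im → ‖f t‖ ≤ C * Real.exp (-(2 * Real.pi * n₁ * t.im)) := by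
  obtain ⟨C, hC, h⟩ := part_bound hf (g := fco 0 f) (fun n => le_rfl) h0
  exact ⟨C, hC, fun t ht => h t ht _ (hf.hasSum (by linarith)).2⟩

theorem HP_line_zero {f : ℂ → ℂ} (hf : HP 0 f)
    (hlim : ∀ ε : ℝ, 0 < ε → ∃ T : ℝ, ∀ t : ℂ, T ≤ t.im → ‖f t‖ ≤ ε) {w : ℂ} (hw : 0 < w.im) :
    ∫ x in (0 : ℝ)..1, f ((x : ℂ) + w) = 0 := by
  by_contra hne
  have hpos : 0 < ‖∫ x in (0 : ℝ)..1, f ((x : ℂ) + w)‖ := norm_pos_iff.2 hne
  obtain ⟨T, hT⟩ := hlim (‖∫ x in (0 : ℝ)..1, f ((x : ℂ) + w)‖ / 2) (by positivity)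
  set v : ℝ := max T 1 with hv
  have hv0 : 0 < v := lt_of_lt_of_le one_pos (le_max_right _ _)
  have him : ((v : ℂ) * Complex.I).im = v := by simp
  have h1 := hf.shift (w := w) (w' := (v : ℂ) * Complex.I) hw (by rw [him]; exact hv0)
  have h2 : ∀ x ∈ Set.uIoc (0 : ℝ) 1, ‖f ((x : ℂ) + (v : ℂ) * Complex.I)‖ ≤
      ‖∫ x in (0 : ℝ)..1, f ((x : ℂ) + w)‖ / 2 := by
    intro x _
    apply hT
    have : ((x : ℂ) + (v : ℂ) * Complex.I).im = v := by simp
    rw [this]
    exact le_max_left _ _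
  have h3 := intervalIntegral.norm_integral_le_of_norm_le_const h2
  rw [← h1] at h3
  simp only [sub_zero, abs_one, mul_one] at h3
  linarith

/-- vanishing of the Fourier coefficients from growth -/
theorem fco_zero {f : ℂ → ℂ} (hf : HP 0 f) {M a : ℝ}
    (hM : ∀ t : ℂ, 1 ≤ t.im → ‖f t‖ ≤ M * Real.exp (a * t.im)) {n : ℤ}
    (hn : 2 * Real.pi * n + a < 0) : fco 0 f n = 0 := by
  rw [hf.fco_eq n (w := Complex.I) (by simp)]
  refine HP_line_zero (f := fun t => f t * ee (-(n * t))) (hf.mul_ee n) ?_ (by simp)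
  intro ε hε
  have ht : Filter.Tendsto (fun T : ℝ => |M| * Real.exp ((2 * Real.pi * n + a) * T)) Filter.atTop
      (𝓝 (|M| * 0)) := by
    refine Filter.Tendsto.const_mul _ ?_
    refine Real.tendsto_exp_atBot.comp ?_
    exact Filter.Tendsto.const_mul_atTop_of_neg hn Filter.tendsto_id
  rw [mul_zero] at ht
  obtain ⟨T, hT⟩ := Filter.eventually_atTop.1 (ht.eventually (gt_mem_nhds hε))
  refine ⟨max T 1, fun t htm => ?_⟩
  have h1 : T ≤ t.im := (le_max_left _ _).trans htm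
  have h2 : 1 ≤ t.im := (le_max_right _ _).trans htm
  rw [norm_mul, norm_ee]
  have e1 : (-((n : ℂ) * t)).im = -(n * t.im) := by
    rw [Complex.neg_im, Complex.mul_im]; simp
  rw [e1]
  calc ‖f t‖ * Real.exp (-(2 * Real.pi * -(n * t.im))) ≤
      |M| * Real.exp (a * t.im) * Real.exp (-(2 * Real.pi * -(n * t.im))) := by
        gcongr
        refine (hM t h2).trans ?_
        gcongr
        exact le_abs_self _
    _ = |M| * Real.exp ((2 * Real.pi * n + a) * t.im) := by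
        rw [mul_assoc, ← Real.exp_add]
        congr 2
        ring
    _ ≤ ε := (hT _ h1).le

/-- lower bound for nonzero periodic functions of at most exponential growth -/
theorem per_lower {f : ℂ → ℂ} (hf : HP 0 f) (hne : ∃ t : ℂ, 0 < t.im ∧ f t ≠ 0) {M a : ℝ}
    (hM : ∀ t : ℂ, 1 ≤ t.im → ‖f t‖ ≤ M * Real.exp (a * t.im)) :
    ∃ c a' T₁ : ℝ, 0 < c ∧ ∀ t : ℂ, T₁ ≤ t.im → c * Real.exp (-(a' * t.im)) ≤ ‖f t‖ := by
  classical
  have hpi := Real.pi_pos
  have h1 : ∃ n : ℤ, fco 0 f n ≠ 0 := by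
    by_contra hcon
    push Not at hcon
    obtain ⟨t, ht, hft⟩ := hne
    have := (hf.hasSum ht).2
    simp only [hcon, zero_mul] at this
    exact hft (this.unique hasSum_zero)
  have h2 : ∀ n : ℤ, fco 0 f n ≠ 0 → -⌈|a| + 1⌉ ≤ n := by
    intro n hn
    by_contra hlt
    push Not at hlt
    apply hn
    apply fco_zero hf hM
    have h3 : (n : ℝ) < -(|a| + 1) := by
      have : (n : ℝ) < ((-⌈|a| + 1⌉ : ℤ) : ℝ) := by exact_mod_cast hlt
      push_cast at this
      linarith [Int.le_ceil (|a| + 1)]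
    have h4 : a ≤ |a| := le_abs_self a
    have h5 : (1 : ℝ) ≤ 2 * Real.pi := by linarith [Real.pi_gt_three]
    nlinarith [abs_nonneg a]
  obtain ⟨n₀, hn₀, hmin⟩ := Int.exists_least_of_bdd (P := fun n => fco 0 f n ≠ 0)
    ⟨-⌈|a| + 1⌉, h2⟩ h1
  obtain ⟨C, hC, hb⟩ := part_bound hf (g := fun n => if n = n₀ then 0 else fco 0 f n)
    (n₁ := n₀ + 1) (fun n => by
      by_cases h : n = n₀
      · simp [h]
      · simp [h]) (fun n hn => by
      by_cases h : n = n₀
      · simp [h]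
      · simp only [h, if_false]
        by_contra h3
        have h4 := hmin n h3
        have h5 : n < n₀ + 1 := by exact_mod_cast hn
        omega)
  set c := ‖fco 0 f n₀‖ with hc
  have hc0 : 0 < c := norm_pos_iff.2 hn₀
  have ht : Filter.Tendsto (fun T : ℝ => C * Real.exp (-(2 * Real.pi) * T)) Filter.atTop
      (𝓝 (C * 0)) := by
    refine Filter.Tendsto.const_mul _ ?_
    refine Real.tendsto_exp_atBot.comp ?_
    exact Filter.Tendsto.const_mul_atTop_of_neg (by linarith) Filter.tendsto_id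
  rw [mul_zero] at ht
  obtain ⟨T, hT⟩ := Filter.eventually_atTop.1
    (ht.eventually (gt_mem_nhds (show (0 : ℝ) < c / 2 by positivity)))
  refine ⟨c / 2, 2 * Real.pi * n₀, max T (1 / 2), by positivity, fun t htm => ?_⟩
  have ht1 : T ≤ t.im := (le_max_left _ _).trans htm
  have ht2 : 1 / 2 ≤ t.im := (le_max_right _ _).trans htm
  have hsum := (hf.hasSum (t := t) (by linarith)).2
  have hs1 : HasSum (fun n : ℤ => if n = n₀ then fco 0 f n₀ * ee (n₀ * t) else 0)
      (fco 0 f n₀ * ee (n₀ * t)) := by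
    have := hasSum_single (f := fun n : ℤ => if n = n₀ then fco 0 f n₀ * ee (n₀ * t) else 0) n₀
      (fun n hn => by simp [hn])
    simpa using this
  have hs2 := hsum.sub hs1
  have hs3 : HasSum (fun n : ℤ => (if n = n₀ then 0 else fco 0 f n) * ee (n * t))
      (f t - fco 0 f n₀ * ee (n₀ * t)) := by
    have hfun : (fun n : ℤ => (if n = n₀ then 0 else fco 0 f n) * ee (n * t)) =
        fun n : ℤ => fco 0 f n * ee (n * t) -
          (if n = n₀ then fco 0 f n₀ * ee (n₀ * t) else 0) := by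
      funext n
      by_cases h : n = n₀
      · simp [h]
      · simp [h]
    rw [hfun]
    exact hs2
  have h3 := hb t ht2 _ hs3
  have h4 : ‖fco 0 f n₀ * ee (n₀ * t)‖ = c * Real.exp (-(2 * Real.pi * n₀ * t.im)) := by
    rw [norm_mul, norm_ee]
    congr 2
    rw [Complex.mul_im]
    simp
    ring
  have h5 : ‖fco 0 f n₀ * ee (n₀ * t)‖ ≤ ‖f t‖ + ‖f t - fco 0 f n₀ * ee (n₀ * t)‖ := by
    have := norm_sub_le (f t) (f t - fco 0 f n₀ * ee (n₀ * t))
    rwa [sub_sub_cancel] at this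
  rw [h4] at h5
  have h6 : C * Real.exp (-(2 * Real.pi * (n₀ + 1) * t.im)) =
      (C * Real.exp (-(2 * Real.pi) * t.im)) * Real.exp (-(2 * Real.pi * n₀ * t.im)) := by
    rw [mul_assoc C, ← Real.exp_add]
    congr 2
    ring
  rw [h6] at h3
  have h7 := hT t.im ht1
  have h8 := Real.exp_pos (-(2 * Real.pi * n₀ * t.im))
  have h9 : (C * Real.exp (-(2 * Real.pi) * t.im)) * Real.exp (-(2 * Real.pi * n₀ * t.im)) ≤
      c / 2 * Real.exp (-(2 * Real.pi * n₀ * t.im)) := by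
    gcongr
  linarith

end

end Pool.Agent.Y813.RL
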