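import Pool.Agent.Y813.RL.Bnd

set_option autoImplicit false

/-!
# The Fourier-Jacobi expansion
-/

namespace Pool.Agent.Y813.RL

open Complex Set Finset

noncomputable section

variable {G : Matrix (Fin 20) (Fin 20) ℤ}

/-- the properties of the Fourier-Jacobi coefficients -/
structure FJD (G : Matrix (Fin 20) (Fin 20) ℤ) (F : TP → ℂ) (φ : ℕ → ℂ × (Fin 20 → ℂ) → ℂ) :
    Prop where
  holo : ∀ j, DifferentiableOn ℂ (φ j) UP
  coeff : ∀ (j : ℕ) (p : ℂ × (Fin 20 → ℂ)) (v : ℝ), p ∈ UP → bh G p < v →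
    φ j p = ∫ u in (0 : ℝ)..1, F ((u : ℂ) + (v : ℂ) * Complex.I, p) *
      ee (-(j * ((u : ℂ) + (v : ℂ) * Complex.I)))
  sum : ∀ (p : ℂ × (Fin 20 → ℂ)) (ω : ℂ), p ∈ UP → bh G p < ω.im →
    HasSum (fun j : ℕ => φ j p * ee (j * ω)) (F (ω, p))
  law : ∀ (p p' : ℂ × (Fin 20 → ℂ)) (κ c : ℂ), p ∈ UP → p' ∈ UP →
    (∀ ω : ℂ, bh G p < ω.im → bh G p' < (ω + κ).im → F (ω + κ, p') = c * F (ω, p)) →
    ∀ j : ℕ, φ j p' = c * ee (-(j * κ)) * φ j p

theorem isOpen_UP : IsOpen UP := isOpen_lt continuous_const (by fun_prop)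

theorem convex_UP : Convex ℝ UP := by
  intro p hp q hq a b ha hb hab
  simp only [UP, Set.mem_ofPred_eq] at *
  have : (a • p + b • q).1.im = a * p.1.im + b * q.1.im := by simp
  rw [this]
  rcases eq_or_lt_of_le ha with ha0 | ha0
  · have : b = 1 := by linarith
    rw [← ha0, this]
    simpa using hq
  · have := mul_pos ha0 hp
    have := mul_nonneg hb hq.le
    linarith

theorem continuousOn_bh : ContinuousOn (bh G) UP := by
  unfold bh
  have h1 : Continuous fun p : ℂ × (Fin 20 → ℂ) => imv p.2 := by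
    unfold imv
    fun_prop
  have h2 : Continuous fun p : ℂ × (Fin 20 → ℂ) => bf G (imv p.2) (imv p.2) := bf_contR G h1 h1
  refine h2.continuousOn.div (by fun_prop) ?_
  intro p hp
  have : 0 < p.1.im := hp
  positivity

theorem mem_Hd_iff {ω : ℂ} {p : ℂ × (Fin 20 → ℂ)} : (ω, p) ∈ Hd G ↔ p ∈ UP ∧ bh G p < ω.im :=
  Iff.rfl

theorem exists_FJD (hFJ : JobFJ) (hKD : JobKD) (h : PosSymm G) {k : ℤ} {F : TP → ℂ}
    (hF : TubeForm G k F) : ∃ φ, FJD G F φ := by
  have := hFJ (ℂ × (Fin 20 → ℂ)) UP (bh G) F isOpen_UP continuousOn_bh hF.holo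
    (fun ω p hp hω => by
      have := hF.tr (ω, p) ⟨hp, hω⟩ 1 0 0
      simpa using this)
    (fun p hp => by
      have hp' : 0 < p.1.im := hp
      obtain ⟨M, hM⟩ := bound_omega hKD h hF (bh G p + 1, (p.1.im, imv p.2)) hp' (by
        simp only [kf, bh]
        field_simp
        ring_nf
        positivity)
      exact ⟨M, fun ω hω => hM (ω, p) rfl hω⟩)
  exact ⟨fj (bh G) F, this.1, this.2.1, this.2.2.1, this.2.2.2⟩

section laws

variable {k : ℤ} {F : TP → ℂ} {φ : ℕ → ℂ × (Fin 20 → ℂ) → ℂ}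

theorem law_T (hF : TubeForm G k F) (hφ : FJD G F φ) (j : ℕ) {τ : ℂ} (z : Fin 20 → ℂ)
    (hτ : 0 < τ.im) : φ j (τ + 1, z) = φ j (τ, z) := by
  have := hφ.law (τ, z) (τ + 1, z) 0 1 hτ (by simpa [UP] using hτ) (by
    intro ω h1 _
    have := hF.tr (ω, (τ, z)) ⟨hτ, h1⟩ 0 1 0
    simpa using this) j
  simpa [ee] using this

theorem law_z (hF : TubeForm G k F) (hφ : FJD G F φ) (j : ℕ) {τ : ℂ} (z : Fin 20 → ℂ)
    (v : Fin 20 → ℤ) (hτ : 0 < τ.im) : φ j (τ, fun i => z i + (v i : ℂ)) = φ j (τ, z) := by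
  have := hφ.law (τ, z) (τ, fun i => z i + (v i : ℂ)) 0 1 hτ hτ (by
    intro ω h1 _
    have := hF.tr (ω, (τ, z)) ⟨hτ, h1⟩ 0 0 v
    simpa using this) j
  simpa [ee] using this

theorem law_q (hF : TubeForm G k F) (hφ : FJD G F φ) (j : ℕ) {τ : ℂ} (z : Fin 20 → ℂ)
    (v : Fin 20 → ℤ) (hτ : 0 < τ.im) : φ j (τ, fun i => z i + τ * (v i : ℂ)) =
      ee (-(j * (bf G (fun i => (v i : ℂ)) z +
        bf G (fun i => (v i : ℂ)) (fun i => (v i : ℂ)) / 2 * τ))) * φ j (τ, z) := by
  have hb0 : ∀ w : Fin 20 → ℂ, bf G (fun _ => 0) w = 0 := bf_zero_left G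
  have hbz : ∀ w : Fin 20 → ℤ, bf G 0 w = 0 := bf_zero_left G
  have hbz' : ∀ w : Fin 20 → ℤ, bf G w 0 = 0 := bf_zero_right G
  have := hφ.law (τ, z) (τ, fun i => z i + τ * (v i : ℂ))
    (bf G (fun i => (v i : ℂ)) z + bf G (fun i => (v i : ℂ)) (fun i => (v i : ℂ)) / 2 * τ) 1
    hτ hτ (by
    intro ω h1 _
    have := hF.ei (ω, (τ, z)) ⟨hτ, h1⟩ e1K (0, (0, v)) e1_e1 (by
      simp [kf, e1K, hbz])
    rw [one_mul, ← this]
    congr 1
    refine Prod.ext ?_ (Prod.ext ?_ ?_)
    · simp [kf, cK, e1K, hb0, bf_intCast]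
      ring
    · simp [kf, cK, e1K, hb0]
    · funext i
      simp [kf, cK, e1K, hb0]) j
  rw [this, one_mul]

theorem law_S (hF : TubeForm G k F) (hφ : FJD G F φ) (j : ℕ) {τ : ℂ} (z : Fin 20 → ℂ)
    (hτ : 0 < τ.im) : φ j (-1 / τ, fun i => z i / τ) =
      τ ^ k * ee (-(j * (-(bf G z z / (2 * τ))))) * φ j (τ, z) := by
  have hτ' : 0 < (-1 / τ).im := by
    rw [neg_div, Complex.neg_im, one_div, Complex.inv_im]
    have : 0 < Complex.normSq τ := Complex.normSq_pos.2 (by
      intro h0
      rw [h0] at hτ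
      simp at hτ)
    have := div_pos hτ this
    linarith [neg_div (Complex.normSq τ) τ.im]
  exact hφ.law (τ, z) (-1 / τ, fun i => z i / τ) (-(bf G z z / (2 * τ))) (τ ^ k) hτ hτ' (by
    intro ω h1 _
    have := hF.S (ω, (τ, z)) ⟨hτ, h1⟩
    simpa [sub_eq_add_neg] using this) j

end laws

theorem ee_add (x y : ℂ) : ee (x + y) = ee x * ee y := by
  unfold ee
  rw [mul_add, Complex.exp_add]

theorem ee_neg (x : ℂ) : ee (-x) = (ee x)⁻¹ := by
  unfold ee
  rw [mul_neg, Complex.exp_neg]

theorem ee_zero : ee 0 = 1 := by simp [ee]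

theorem ee_ne_zero (x : ℂ) : ee x ≠ 0 := Complex.exp_ne_zero _

theorem norm_ee (x : ℂ) : ‖ee x‖ = Real.exp (-(2 * Real.pi * x.im)) := by
  unfold ee
  rw [Complex.norm_exp]
  congr 1
  simp

theorem ee_int (n : ℤ) : ee n = 1 := by
  unfold ee
  rw [Complex.exp_eq_one_iff]
  exact ⟨n, by ring⟩

/-- **There is a second coefficient.** -/
theorem exists_second (h : PosSymm G) {k : ℤ} {F : TP → ℂ} (hF : TubeForm G k F)
    {φ : ℕ → ℂ × (Fin 20 → ℂ) → ℂ} (hφ : FJD G F φ) :
    ∃ C m : ℕ, 0 < m ∧ (∀ j < C, ∀ p ∈ UP, φ j p = 0) ∧ (∃ p ∈ UP, φ C p ≠ 0) ∧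
      (∀ j, C < j → j < C + m → ∀ p ∈ UP, φ j p = 0) ∧ ∃ p ∈ UP, φ (C + m) p ≠ 0 := by
  classical
  have h1 : ∃ C, ∃ p ∈ UP, φ C p ≠ 0 := by
    by_contra hcon
    push Not at hcon
    apply hF.nonconst
    refine ⟨0, fun W hW => ?_⟩
    have := hφ.sum W.2 W.1 hW.1 hW.2
    simp only [hcon _ _ hW.1, zero_mul] at this
    exact this.unique hasSum_zero
  let C := Nat.find h1
  have hC : ∃ p ∈ UP, φ C p ≠ 0 := Nat.find_spec h1
  have hC' : ∀ j < C, ∀ p ∈ UP, φ j p = 0 := by
    intro j hj p hp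
    by_contra hne
    exact Nat.find_min h1 hj ⟨p, hp, hne⟩
  have h2 : ∃ m, 0 < m ∧ ∃ p ∈ UP, φ (C + m) p ≠ 0 := by
    by_contra hcon
    push Not at hcon
    -- F = φ_C e(C ω)
    have hz0 : ∀ j, j ≠ C → ∀ p ∈ UP, φ j p = 0 := by
      intro j hj p hp
      rcases lt_or_gt_of_ne hj with h3 | h3
      · exact hC' j h3 p hp
      · have := hcon (j - C) (by omega) p hp
        rwa [show C + (j - C) = j by omega] at this
    have hFe : ∀ (ω : ℂ) (p : ℂ × (Fin 20 → ℂ)), p ∈ UP → bh G p < ω.im →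
        F (ω, p) = φ C p * ee (C * ω) := by
      intro ω p hp hω
      refine (hφ.sum p ω hp hω).unique ?_
      exact hasSum_single C fun j hj => by rw [hz0 j hj p hp, zero_mul]
    obtain ⟨κ, hκ⟩ : ∃ κ : (Fin 20 → ℂ) → ℂ,
        κ = fun z => φ C (Complex.I, z) * ee (-(C * Complex.I)) := ⟨_, rfl⟩
    have hswap : ∀ (τ : ℂ) (z : Fin 20 → ℂ) (v : ℝ), 0 < τ.im → 0 < v → bh G (τ, z) < v →
        φ C (τ, z) * ee (-(C * τ)) = φ C ((v : ℂ) * Complex.I, z) *
          ee (-(C * ((v : ℂ) * Complex.I))) := by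
      intro τ z v hτ hv hbv
      have him : ((v : ℂ) * Complex.I).im = v := by simp
      have e1 := hF.swap ((v : ℂ) * Complex.I, (τ, z)) ⟨hτ, by
        show bh G (τ, z) < ((v : ℂ) * Complex.I).im
        rw [him]; exact hbv⟩
      have e2 := hFe ((v : ℂ) * Complex.I) (τ, z) hτ (by rw [him]; exact hbv)
      have e3 := hFe τ ((v : ℂ) * Complex.I, z) (by
        show 0 < ((v : ℂ) * Complex.I).im
        rw [him]; exact hv) (by
        simp only [bh, him] at hbv ⊢
        rw [div_lt_iff₀ (by positivity)] at hbv ⊢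
        linarith)
      simp only at e1
      rw [e2, e3] at e1
      rw [ee_neg, ee_neg, ← div_eq_mul_inv, ← div_eq_mul_inv,
        div_eq_div_iff (ee_ne_zero _) (ee_ne_zero _)]
      linear_combination -e1
    have hk1 : ∀ (τ : ℂ) (z : Fin 20 → ℂ), 0 < τ.im → φ C (τ, z) = κ z * ee (C * τ) := by
      intro τ z hτ
      obtain ⟨v, hv⟩ := exists_gt (max 0 (max (bh G (τ, z)) (bh G (Complex.I, z))))
      have h3 := hswap τ z v hτ (lt_of_le_of_lt (le_max_left _ _) hv)
        (lt_of_le_of_lt ((le_max_left _ _).trans (le_max_right _ _)) hv)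
      have h4 := hswap Complex.I z v (by simp) (lt_of_le_of_lt (le_max_left _ _) hv)
        (lt_of_le_of_lt ((le_max_right _ _).trans (le_max_right _ _)) hv)
      rw [hκ]
      simp only
      rw [h4, ← h3, ee_neg, mul_assoc, inv_mul_cancel₀ (ee_ne_zero _), mul_one]
    have hk2 : ∀ (τ : ℂ) (z : Fin 20 → ℂ) (v : Fin 20 → ℤ), 0 < τ.im →
        κ (fun i => z i + τ * (v i : ℂ)) = ee (-(C * (bf G (fun i => (v i : ℂ)) z +
          bf G (fun i => (v i : ℂ)) (fun i => (v i : ℂ)) / 2 * τ))) * κ z := by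
      intro τ z v hτ
      have h3 := law_q hF hφ C z v hτ
      rw [hk1 _ _ hτ, hk1 _ _ hτ] at h3
      have h4 := ee_ne_zero (C * τ)
      apply mul_right_cancel₀ h4
      rw [h3]
      ring
    rcases Nat.eq_zero_or_pos C with hC0 | hC0
    · -- index zero
      have hk3 : ∀ (τ : ℂ) (z : Fin 20 → ℂ) (v : Fin 20 → ℤ), 0 < τ.im →
          κ (fun i => z i + τ * (v i : ℂ)) = κ z := by
        intro τ z v hτ
        rw [hk2 τ z v hτ, hC0]
        simp [ee_zero]
      have hk4 : ∀ (w : ℂ) (z : Fin 20 → ℂ) (v : Fin 20 → ℤ),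
          κ (fun i => z i + w * (v i : ℂ)) = κ z := by
        intro w z v
        -- w = τ - τ' with τ, τ' in the upper half plane
        set τ : ℂ := w + (((|w.im| + 1 : ℝ)) : ℂ) * Complex.I with hτ
        have h3 : 0 < τ.im := by
          have : τ.im = w.im + (|w.im| + 1) := by simp [hτ]
          rw [this]
          linarith [neg_abs_le w.im]
        set τ' : ℂ := (((|w.im| + 1 : ℝ)) : ℂ) * Complex.I with hτ'
        have h4 : 0 < τ'.im := by
          have : τ'.im = |w.im| + 1 := by simp [hτ']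
          rw [this]
          positivity
        have h5 := hk3 τ z v h3
        have h6 := hk3 τ' (fun i => z i + w * (v i : ℂ)) v h4
        have h7 : (fun i => (fun i => z i + w * (v i : ℂ)) i + τ' * (v i : ℂ)) =
            fun i => z i + τ * (v i : ℂ) := by
          funext i
          simp only [hτ]
          ring
        rw [h7] at h6
        rw [← h6, h5]
      have hk5 : ∀ (z : Fin 20 → ℂ), κ z = κ 0 := by
        intro z
        have h3 : ∀ s : Finset (Fin 20), κ (∑ i ∈ s, Pi.single i (z i)) = κ 0 := by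
          intro s
          induction s using Finset.induction_on with
          | empty => simp
          | insert a s ha ih =>
            rw [Finset.sum_insert ha, ← ih]
            have := hk4 (z a) (∑ i ∈ s, Pi.single i (z i)) (Pi.single a 1)
            rw [← this]
            congr 1
            funext i
            simp only [Pi.add_apply, Pi.single_apply]
            split_ifs <;> push_cast <;> ring
        have := h3 Finset.univ
        rwa [Finset.univ_sum_single] at this
      apply hF.nonconst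
      refine ⟨κ 0, fun W hW => ?_⟩
      have h3 := hFe W.1 W.2 hW.1 hW.2
      have h4 := hk1 W.2.1 W.2.2 hW.1
      have h5 : φ C W.2 = κ 0 := by
        have : φ C (W.2.1, W.2.2) = φ C W.2 := rfl
        rw [← this, h4, hk5 W.2.2, hC0]
        simp [ee_zero]
      have : F W = F (W.1, W.2) := rfl
      rw [this, h3, h5, hC0]
      simp [ee_zero]
    · -- positive index
      have hk0 : ∀ z : Fin 20 → ℂ, κ z = 0 := by
        intro z
        by_contra hne
        let v : Fin 20 → ℤ := Pi.single 0 1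
        have hv := bf_single_pos h
        set q : ℝ := ((bf G v v : ℤ) : ℝ) with hq
        have hqpos : 0 < q := by
          rw [hq]
          exact_mod_cast hv
        have hqC : bf G (fun i => (v i : ℂ)) (fun i => (v i : ℂ)) = (q : ℂ) := by
          rw [bf_intCast, hq]
          push_cast
          rfl
        set β : ℂ := bf G (fun i => (v i : ℂ)) z with hβ
        have key : ∀ τ : ℂ, 0 < τ.im → ee (C * (β + q * τ)) = 1 := by
          intro τ hτ
          have h3 := hk2 τ z v hτ
          have h4 := hk2 τ (fun i => z i + τ * (v i : ℂ)) v hτ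
          have h5 := hk2 (τ + τ) z v (by simp only [Complex.add_im]; linarith)
          have h6 : (fun i => (fun i => z i + τ * (v i : ℂ)) i + τ * (v i : ℂ)) =
              fun i => z i + (τ + τ) * (v i : ℂ) := by
            funext i
            simp only
            ring
          have h7 : bf G (fun i => (v i : ℂ)) (fun i => z i + τ * (v i : ℂ)) = β + τ * q := by
            have : (fun i => z i + τ * (v i : ℂ)) = z + τ • fun i => (v i : ℂ) := by
              funext i; simp
            rw [this, bf_add_right, bf_smul_right, hqC]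
          rw [h6, h5, h3, h7, hqC, ← hβ, ← mul_assoc, ← ee_add] at h4
          have h8 := mul_right_cancel₀ hne h4
          have h9 : ee (-(C * (β + q / 2 * (τ + τ)))) =
              ee (-(C * (β + τ * q + q / 2 * τ)) + -(C * (β + q / 2 * τ))) *
                ee (C * (β + q * τ)) := by
            rw [← ee_add]
            congr 1
            ring
          rw [h9] at h8
          have h10 := ee_ne_zero (-(C * (β + τ * q + q / 2 * τ)) + -(C * (β + q / 2 * τ)))
          have h11 : ee (-(C * (β + τ * q + q / 2 * τ)) + -(C * (β + q / 2 * τ))) *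
              (ee (C * (β + q * τ)) - 1) = 0 := by linear_combination h8
          rcases mul_eq_zero.1 h11 with h12 | h12
          · exact absurd h12 h10
          · linear_combination h12
        have hn : ∀ τ : ℂ, 0 < τ.im → (C : ℝ) * (β.im + q * τ.im) = 0 := by
          intro τ hτ
          have h3 := key τ hτ
          have h4 : ‖ee (C * (β + q * τ))‖ = 1 := by rw [h3, norm_one]
          rw [norm_ee, Real.exp_eq_one_iff] at h4
          have h5 : ((C : ℂ) * (β + q * τ)).im = C * (β.im + q * τ.im) := by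
            simp [Complex.mul_im]
          rw [h5] at h4
          have := Real.pi_pos
          have h6 : 2 * Real.pi * (C * (β.im + q * τ.im)) = 0 := by linarith
          rcases mul_eq_zero.1 h6 with h7 | h7
          · linarith
          · exact h7
        have a1 := hn Complex.I (by simp)
        have a2 := hn (2 * Complex.I) (by simp)
        have hCpos : (0 : ℝ) < C := by exact_mod_cast hC0
        simp only [Complex.I_im, Complex.mul_im, Complex.re_ofNat, Complex.im_ofNat,
          Complex.I_re] at a1 a2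
        have a3 : (C : ℝ) * q = 0 := by linarith
        rcases mul_eq_zero.1 a3 with a4 | a4
        · linarith
        · linarith
      obtain ⟨p, hp, hp'⟩ := hC
      apply hp'
      have : φ C (p.1, p.2) = φ C p := rfl
      rw [← this, hk1 p.1 p.2 hp, hk0, zero_mul]
  let m := Nat.find h2
  have hm := Nat.find_spec h2
  refine ⟨C, m, hm.1, hC', hC, ?_, hm.2⟩
  intro j hj1 hj2 p hp
  by_contra hne
  exact Nat.find_min h2 (m := j - C) (by omega) ⟨by omega, p, hp, by
    rwa [show C + (j - C) = j by omega]⟩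

end

end Pool.Agent.Y813.RL
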