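import Pool.Agent.Y813.RL.NonV

set_option autoImplicit false

/-!
# The quotient of the two leading Fourier-Jacobi coefficients is a weakly holomorphic Jacobi form
-/

namespace Pool.Agent.Y813.RL

open Complex Set Finset Topology

noncomputable section

variable {G : Matrix (Fin 20) (Fin 20) ℤ}

/-- the data of the two leading coefficients -/
structure CM (G : Matrix (Fin 20) (Fin 20) ℤ) (k : ℤ) (F : TP → ℂ)
    (φ : ℕ → ℂ × (Fin 20 → ℂ) → ℂ) (C m : ℕ) : Prop where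
  tf : TubeForm G k F
  fd : FJD G F φ
  hm : 0 < m
  hC : ∀ j < C, ∀ p ∈ UP, φ j p = 0
  hne : ∃ p ∈ UP, φ C p ≠ 0
  hmid : ∀ j, C < j → j < C + m → ∀ p ∈ UP, φ j p = 0
  hne2 : ∃ p ∈ UP, φ (C + m) p ≠ 0

/-- the tail series -/
def Hs (φ : ℕ → ℂ × (Fin 20 → ℂ) → ℂ) (C m : ℕ) (p : ℂ × (Fin 20 → ℂ)) (s : ℂ) : ℂ :=
  ∑' i : ℕ, φ (C + m + i) p * s ^ i

theorem Hs_zero (φ : ℕ → ℂ × (Fin 20 → ℂ) → ℂ) (C m : ℕ) (p : ℂ × (Fin 20 → ℂ)) :
    Hs φ C m p 0 = φ (C + m) p := by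
  unfold Hs
  rw [tsum_eq_single 0]
  · simp
  · intro i hi
    simp [hi]

theorem exists_ee {s : ℂ} (hs : s ≠ 0) : ∃ ω : ℂ, ee ω = s ∧ ω.im = -Real.log ‖s‖ / (2 * Real.pi) := by
  refine ⟨Complex.log s / (2 * Real.pi * Complex.I), ?_, ?_⟩
  · unfold ee
    rw [mul_div_cancel₀ _ Complex.two_pi_I_ne_zero, Complex.exp_log hs]
  · have h1 : ee (Complex.log s / (2 * Real.pi * Complex.I)) = s := by
      unfold ee
      rw [mul_div_cancel₀ _ Complex.two_pi_I_ne_zero, Complex.exp_log hs]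
    have h2 := congrArg (fun x => Real.log ‖x‖) h1
    simp only [norm_ee, Real.log_exp] at h2
    rw [← h2]
    have := Real.pi_pos
    field_simp

theorem summable_diff {a : ℕ → ℂ} {R : ℝ}
    (ha : ∀ s : ℂ, s ≠ 0 → ‖s‖ < R → Summable fun i => a i * s ^ i) :
    DifferentiableOn ℂ (fun s => ∑' i : ℕ, a i * s ^ i) (Metric.ball 0 R) := by
  intro s hs
  rw [Metric.mem_ball, dist_zero_right] at hs
  obtain ⟨r, hr1, hr2⟩ := exists_between hs
  have hr0 : 0 < r := lt_of_le_of_lt (norm_nonneg _) hr1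
  have hsum : Summable fun i => ‖a i‖ * r ^ i := by
    have := (ha (r : ℂ) (by exact_mod_cast hr0.ne') (by
      rw [Complex.norm_real, Real.norm_eq_abs, abs_of_pos hr0]; exact hr2)).norm
    refine this.congr fun i => ?_
    rw [norm_mul, norm_pow, Complex.norm_real, Real.norm_eq_abs, abs_of_pos hr0]
  have hd : DifferentiableOn ℂ (fun s => ∑' i : ℕ, a i * s ^ i) (Metric.ball 0 r) := by
    refine differentiableOn_tsum_of_summable_norm hsum (fun i => by fun_prop)
      Metric.isOpen_ball fun i w hw => ?_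
    rw [norm_mul, norm_pow]
    rw [Metric.mem_ball, dist_zero_right] at hw
    exact mul_le_mul_of_nonneg_left (pow_le_pow_left₀ (norm_nonneg _) hw.le _) (norm_nonneg _)
  have hmem : s ∈ Metric.ball (0 : ℂ) r := by
    rw [Metric.mem_ball, dist_zero_right]; exact hr1
  exact (hd.differentiableAt (Metric.isOpen_ball.mem_nhds hmem)).differentiableWithinAt

theorem ee_pow (n : ℕ) (x : ℂ) : ee (n * x) = ee x ^ n := by
  unfold ee
  rw [← Complex.exp_nat_mul]
  congr 1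
  ring

section

variable {k : ℤ} {F : TP → ℂ} {φ : ℕ → ℂ × (Fin 20 → ℂ) → ℂ} {C m : ℕ}

/-- the expansion of `F` -/
theorem CM.hasSum_tail (H : CM G k F φ C m) {p : ℂ × (Fin 20 → ℂ)} (hp : p ∈ UP) {ω : ℂ}
    (hω : bh G p < ω.im) :
    HasSum (fun i : ℕ => φ (C + m + i) p * ee ω ^ i)
      ((F (ω, p) - φ C p * ee (C * ω)) * ee (-((C + m : ℕ) * ω))) := by
  have hs := H.fd.sum p ω hp hω
  have hs1 := (hasSum_nat_add_iff' (C + m)).2 hs
  have hsum : ∑ i ∈ Finset.range (C + m), φ i p * ee (i * ω) = φ C p * ee (C * ω) := by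
    rw [Finset.sum_eq_single C]
    · intro i hi hiC
      rcases lt_or_gt_of_ne hiC with h1 | h1
      · rw [H.hC i h1 p hp, zero_mul]
      · rw [H.hmid i h1 (Finset.mem_range.1 hi) p hp, zero_mul]
    · intro hcon
      exfalso
      apply hcon
      rw [Finset.mem_range]
      have := H.hm
      omega
  rw [hsum] at hs1
  have hs2 := hs1.mul_right (ee (-((C + m : ℕ) * ω)))
  have hfun : (fun i : ℕ => φ (C + m + i) p * ee ω ^ i) =
      fun i : ℕ => φ (i + (C + m)) p * ee ((i + (C + m) : ℕ) * ω) * ee (-((C + m : ℕ) * ω)) := by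
    funext i
    rw [mul_assoc, ← ee_add, ← ee_pow, add_comm (C + m) i]
    congr 2
    push_cast
    ring
  rw [hfun]
  exact hs2

theorem CM.F_eq (H : CM G k F φ C m) {p : ℂ × (Fin 20 → ℂ)} (hp : p ∈ UP) {ω : ℂ}
    (hω : bh G p < ω.im) :
    F (ω, p) = ee (C * ω) * (φ C p + ee ω ^ m * Hs φ C m p (ee ω)) := by
  have h1 := (H.hasSum_tail hp hω).tsum_eq
  unfold Hs
  rw [h1, ← ee_pow, mul_add, ← mul_assoc, ← ee_add]
  have h2 : ee (C * ω + m * ω) * ((F (ω, p) - φ C p * ee (C * ω)) * ee (-((C + m : ℕ) * ω))) =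
      (F (ω, p) - φ C p * ee (C * ω)) * (ee (C * ω + m * ω) * ee (-((C + m : ℕ) * ω))) := by ring
  rw [h2, ← ee_add]
  have h3 : (C : ℂ) * ω + m * ω + -((C + m : ℕ) * ω) = 0 := by push_cast; ring
  rw [h3, ee_zero]
  ring

theorem CM.Hs_diff (H : CM G k F φ C m) {p : ℂ × (Fin 20 → ℂ)} (hp : p ∈ UP) :
    DifferentiableOn ℂ (Hs φ C m p) (Metric.ball 0 (Real.exp (-(2 * Real.pi * bh G p)))) := by
  apply summable_diff
  intro s hs hsR
  obtain ⟨ω, hω, him⟩ := exists_ee hs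
  have h1 : bh G p < ω.im := by
    rw [him, lt_div_iff₀ (by positivity)]
    have := Real.log_lt_log (norm_pos_iff.2 hs) hsR
    rw [Real.log_exp] at this
    linarith
  rw [← hω]
  exact (H.hasSum_tail hp h1).summable

/-- the normalised function -/
def gp (φ : ℕ → ℂ × (Fin 20 → ℂ) → ℂ) (C m : ℕ) (p : ℂ × (Fin 20 → ℂ)) (s : ℂ) : ℂ :=
  1 + s ^ m * (Hs φ C m p s / φ C p)

theorem CM.gp_eq (H : CM G k F φ C m) {p : ℂ × (Fin 20 → ℂ)} (hp : p ∈ UP) (h0 : φ C p ≠ 0)
    {ω : ℂ} (hω : bh G p < ω.im) :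
    gp φ C m p (ee ω) = F (ω, p) * ee (-(C * ω)) / φ C p := by
  rw [H.F_eq hp hω, gp, ee_neg]
  field_simp [ee_ne_zero]

theorem CM.gp_diff (H : CM G k F φ C m) {p : ℂ × (Fin 20 → ℂ)} (hp : p ∈ UP) :
    DifferentiableOn ℂ (gp φ C m p) (Metric.ball 0 (Real.exp (-(2 * Real.pi * bh G p)))) := by
  have := H.Hs_diff hp
  unfold gp
  fun_prop

/-- bound for `gp` on a disc from a bound on a horizontal line -/
theorem CM.gp_bound (H : CM G k F φ C m) {p : ℂ × (Fin 20 → ℂ)} (hp : p ∈ UP) (h0 : φ C p ≠ 0)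
    {v M : ℝ} (hv : bh G p < v) (hM : ∀ ω : ℂ, ω.im = v → ‖F (ω, p)‖ ≤ M) {s : ℂ}
    (hs : ‖s‖ ≤ Real.exp (-(2 * Real.pi * v))) :
    ‖gp φ C m p s‖ ≤ M * Real.exp (2 * Real.pi * v * C) / ‖φ C p‖ := by
  set R := Real.exp (-(2 * Real.pi * v)) with hR
  have hR0 : 0 < R := Real.exp_pos _
  have hRR : R < Real.exp (-(2 * Real.pi * bh G p)) := by
    rw [hR, Real.exp_lt_exp]
    have := Real.pi_pos
    nlinarith
  have hd : DiffContOnCl ℂ (gp φ C m p) (Metric.ball 0 R) := by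
    refine DifferentiableOn.diffContOnCl ?_
    rw [closure_ball _ hR0.ne']
    exact (H.gp_diff hp).mono (Metric.closedBall_subset_ball hRR)
  refine Complex.norm_le_of_forall_mem_frontier_norm_le Metric.isBounded_ball hd ?_ ?_
  · intro z hz
    rw [frontier_ball _ hR0.ne', Metric.mem_sphere, dist_zero_right] at hz
    have hz0 : z ≠ 0 := by
      rw [← norm_pos_iff, hz]; exact hR0
    obtain ⟨ω, hω, him⟩ := exists_ee hz0
    have him' : ω.im = v := by
      rw [him, hz, hR, Real.log_exp]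
      have := Real.pi_pos
      field_simp
    rw [← hω, H.gp_eq hp h0 (by rw [him']; exact hv), norm_div, norm_mul, norm_ee]
    have h1 : (-((C : ℂ) * ω)).im = -(C * v) := by
      rw [Complex.neg_im, Complex.mul_im]
      simp [him']
    rw [h1]
    have h2 : -(2 * Real.pi * -(C * v)) = 2 * Real.pi * v * C := by ring
    rw [h2]
    gcongr
    exact hM ω him'
  · rw [closure_ball _ hR0.ne', Metric.mem_closedBall, dist_zero_right]
    exact hs

/-- the estimate used for the division lemma -/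
theorem CM.quot_bound (hBC : JobBC) (h : PosSymm G) (H : CM G k F φ C m)
    {p : ℂ × (Fin 20 → ℂ)} (hp : p ∈ UP) (hm : p ∉ Mir G)
    {v M : ℝ} (hv : thr G p < v) (hM : ∀ ω : ℂ, ω.im = v → ‖F (ω, p)‖ ≤ M) :
    ‖φ (C + m) p‖ ≤ (2 * (2 / Real.exp (-(2 * Real.pi * v))) ^ m *
      (1 + |Real.log (|M| * Real.exp (2 * Real.pi * v * C))|)) *
        ‖φ C p‖ * (1 + |Real.log ‖φ C p‖|) := by
  have h0 : φ C p ≠ 0 := leading_ne_zero h H.tf H.fd H.hC H.hne hp hm
  have hb : bh G p < v := (bh_lt_thr hp).trans hv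
  have hM' : ∀ ω : ℂ, ω.im = v → ‖F (ω, p)‖ ≤ |M| := fun ω hω => (hM ω hω).trans (le_abs_self _)
  set R := Real.exp (-(2 * Real.pi * v)) with hR
  have hR0 : 0 < R := Real.exp_pos _
  have hRR : R < Real.exp (-(2 * Real.pi * bh G p)) := by
    rw [hR, Real.exp_lt_exp]
    have := Real.pi_pos
    nlinarith
  set x := |M| * Real.exp (2 * Real.pi * v * C) with hx
  have hx0 : 0 ≤ x := by positivity
  have hφ0 : 0 < ‖φ C p‖ := norm_pos_iff.2 h0
  have le_exp_abs_log : ∀ y : ℝ, 0 ≤ y → y ≤ Real.exp |Real.log y| := by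
    intro y hy
    rcases eq_or_lt_of_le hy with h1 | h1
    · rw [← h1]; positivity
    · calc y = Real.exp (Real.log y) := (Real.exp_log h1).symm
        _ ≤ _ := Real.exp_le_exp.2 (le_abs_self _)
  have hinv : ‖φ C p‖⁻¹ ≤ Real.exp |Real.log ‖φ C p‖| := by
    have := le_exp_abs_log (‖φ C p‖⁻¹) (by positivity)
    rwa [Real.log_inv, abs_neg] at this
  set M' := 1 + |Real.log x| + |Real.log ‖φ C p‖| with hM'def
  have hM'0 : 0 < M' := by positivity
  have hbound : ∀ s ∈ Metric.ball (0 : ℂ) R, ‖gp φ C m p s‖ ≤ Real.exp M' := by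
    intro s hs
    rw [Metric.mem_ball, dist_zero_right] at hs
    refine (H.gp_bound hp h0 hb hM' hs.le).trans ?_
    rw [← hx, div_eq_mul_inv]
    calc x * ‖φ C p‖⁻¹ ≤ Real.exp |Real.log x| * Real.exp |Real.log ‖φ C p‖| := by
          gcongr
          exact le_exp_abs_log x hx0
      _ = Real.exp (|Real.log x| + |Real.log ‖φ C p‖|) := by rw [Real.exp_add]
      _ ≤ Real.exp M' := Real.exp_le_exp.2 (by rw [hM'def]; linarith)
  have hgne : ∀ s ∈ Metric.ball (0 : ℂ) R, gp φ C m p s ≠ 0 := by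
    intro s hs
    rw [Metric.mem_ball, dist_zero_right] at hs
    by_cases hs0 : s = 0
    · rw [hs0]
      simp [gp, H.hm.ne']
    · obtain ⟨ω, hω, him⟩ := exists_ee hs0
      have hvω : v < ω.im := by
        rw [him, lt_div_iff₀ (by positivity)]
        have := Real.log_lt_log (norm_pos_iff.2 hs0) hs
        rw [hR, Real.log_exp] at this
        linarith
      rw [← hω, H.gp_eq hp h0 (hb.trans hvω)]
      exact div_ne_zero (mul_ne_zero (nonvanish h H.tf hp hm (hv.trans hvω)) (ee_ne_zero _)) h0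
  have hHd := H.Hs_diff hp
  have hcont : ContinuousAt (fun s => Hs φ C m p s / φ C p) 0 := by
    have : DifferentiableAt ℂ (Hs φ C m p) 0 :=
      hHd.differentiableAt (Metric.isOpen_ball.mem_nhds (Metric.mem_ball_self (Real.exp_pos _)))
    exact (this.div_const _).continuousAt
  have key := hBC m R M' (gp φ C m p) (fun s => Hs φ C m p s / φ C p) H.hm hR0 hM'0
    ((H.gp_diff hp).mono (Metric.ball_subset_ball hRR.le)) hcont (fun s _ => rfl) hgne hbound
  simp only [Hs_zero, norm_div] at key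
  rw [div_le_iff₀ hφ0] at key
  refine key.trans ?_
  have h2 : M' ≤ (1 + |Real.log x|) * (1 + |Real.log ‖φ C p‖|) := by
    rw [hM'def]
    nlinarith [abs_nonneg (Real.log x), abs_nonneg (Real.log ‖φ C p‖),
      mul_nonneg (abs_nonneg (Real.log x)) (abs_nonneg (Real.log ‖φ C p‖))]
  have h3 : 0 ≤ (2 / R) ^ m := by positivity
  calc 2 * M' * (2 / R) ^ m * ‖φ C p‖ ≤
      2 * ((1 + |Real.log x|) * (1 + |Real.log ‖φ C p‖|)) * (2 / R) ^ m * ‖φ C p‖ := by gcongr
    _ = _ := by ring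

end

end

end Pool.Agent.Y813.RL
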