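import Pool.Agent.Y813.RL.Tube0

set_option autoImplicit false

/-!
# Eichler transvections
-/

namespace Pool.Agent.Y813.RL

open Complex Set Finset Pool.Agent.Y813.Refl

noncomputable section

section

variable {ι : Type} [Fintype ι] [DecidableEq ι] {R : Type*} [CommRing R]

/-- the Eichler transvection -/
def tv (B : Matrix ι ι ℤ) (e a : ι → R) (N : R) (x : ι → R) : ι → R :=
  x - bf B a x • e + bf B e x • a - (N * bf B e x) • e

omit [DecidableEq ι] in
theorem tv_form {B : Matrix ι ι ℤ} (hB : B.IsSymm) {e a : ι → R} {N : R} (hee : bf B e e = 0)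
    (hea : bf B e a = 0) (haa : bf B a a = 2 * N) (x y : ι → R) :
    bf B (tv B e a N x) (tv B e a N y) = bf B x y := by
  have hae : bf B a e = 0 := by rw [bf_comm hB, hea]
  simp only [tv, bf_sub_left, bf_sub_right, bf_add_left, bf_add_right, bf_smul_left,
    bf_smul_right, hee, hea, haa, hae]
  rw [bf_comm hB x e, bf_comm hB x a]
  ring

omit [DecidableEq ι] in
theorem tv_inv {B : Matrix ι ι ℤ} (hB : B.IsSymm) {e a : ι → R} {N : R} (hee : bf B e e = 0)
    (hea : bf B e a = 0) (haa : bf B a a = 2 * N) (x : ι → R) :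
    tv B e a N (tv B e (-a) N x) = x := by
  have hae : bf B a e = 0 := by rw [bf_comm hB, hea]
  have h1 : bf B a (tv B e (-a) N x) = bf B a x - 2 * N * bf B e x := by
    simp only [tv, bf_sub_right, bf_add_right, bf_smul_right, bf_neg_left, bf_neg_right, hae, haa]
    ring
  have h2 : bf B e (tv B e (-a) N x) = bf B e x := by
    simp only [tv, bf_sub_right, bf_add_right, bf_smul_right, bf_neg_left, bf_neg_right, hee, hea]
    ring
  rw [tv, h1, h2]
  funext i
  simp only [tv, Pi.add_apply, Pi.sub_apply, Pi.smul_apply, smul_eq_mul, Pi.neg_apply, bf_neg_left]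
  ring

/-- the matrix of the Eichler transvection -/
def tvM (B : Matrix ι ι ℤ) (e a : ι → ℤ) (N : ℤ) : Matrix ι ι ℤ :=
  Matrix.of fun i j => (if i = j then 1 else 0) - e i * act B a j + a i * act B e j
    - N * e i * act B e j

theorem act_tvM {B : Matrix ι ι ℤ} (hB : B.IsSymm) (e a : ι → ℤ) (N : ℤ) (x : ι → R) :
    act (tvM B e a N) x =
      tv B (fun i => (e i : R)) (fun i => (a i : R)) (N : R) x := by
  have key : ∀ w : ι → ℤ, ∑ j, ((act B w j : ℤ) : R) * x j = bf B (fun i => (w i : R)) x := by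
    intro w
    simp only [act, Int.cast_sum, Int.cast_mul, bf, Finset.sum_mul]
    rw [Finset.sum_comm]
    refine Finset.sum_congr rfl fun i _ => Finset.sum_congr rfl fun j _ => ?_
    rw [hB.apply]
    simp only [Int.cast_id]
    ring
  funext i
  simp only [tv, Pi.add_apply, Pi.sub_apply, Pi.smul_apply, smul_eq_mul, ← key]
  have : ∀ j, ((tvM B e a N i j : ℤ) : R) * x j
      = (if i = j then x j else 0) - ((act B a j : ℤ) : R) * x j * e i
        + ((act B e j : ℤ) : R) * x j * a i
        - (N : R) * (((act B e j : ℤ) : R) * x j) * e i := by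
    intro j
    simp only [tvM, Matrix.of_apply]
    split_ifs <;> push_cast <;> ring
  rw [act, Finset.sum_congr rfl fun j _ => this j]
  simp only [Finset.sum_sub_distrib, Finset.sum_add_distrib, Finset.sum_ite_eq, Finset.mem_univ,
    if_true, ← Finset.sum_mul, ← Finset.mul_sum]

theorem tvM_mul {B : Matrix ι ι ℤ} (hB : B.IsSymm) {e a : ι → ℤ} {N : ℤ} (hee : bf B e e = 0)
    (hea : bf B e a = 0) (haa : bf B a a = 2 * N) :
    tvM B e a N * tvM B e (-a) N = 1 := by
  ext i j
  have h1 : act (tvM B e a N * tvM B e (-a) N) (Pi.single j (1 : ℤ)) = Pi.single j 1 := by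
    rw [act_mul, act_tvM hB, act_tvM hB]
    exact tv_inv hB hee hea haa _
  have h2 := congrFun h1 i
  simpa [act, Pi.single_apply, Matrix.one_apply] using h2

/-- the transvection as an invertible matrix -/
def tvG {B : Matrix ι ι ℤ} (hB : B.IsSymm) {e a : ι → ℤ} {N : ℤ} (hee : bf B e e = 0)
    (hea : bf B e a = 0) (haa : bf B a a = 2 * N) : Matrix.GeneralLinearGroup ι ℤ :=
  ⟨tvM B e a N, tvM B e (-a) N, tvM_mul hB hee hea haa, by
    have := tvM_mul hB (e := e) (a := -a) (N := N) hee (by rw [bf_neg_right, hea, neg_zero])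
      (by rw [bf_neg_left, bf_neg_right, neg_neg, haa])
    rwa [neg_neg] at this⟩

end

end

end Pool.Agent.Y813.RL
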