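import Pool.Agent.Y813.RL.Stm

set_option autoImplicit false

/-!
# Elementary facts on the bilinear forms `bf`
-/

namespace Pool.Agent.Y813.RL

open Finset

section

variable {ι R : Type*} [Fintype ι] [CommRing R] (B : Matrix ι ι ℤ)

theorem bf_add_left (x y z : ι → R) : bf B (x + y) z = bf B x z + bf B y z := by
  simp [bf, add_mul, sum_add_distrib]

theorem bf_add_right (x y z : ι → R) : bf B z (x + y) = bf B z x + bf B z y := by
  simp [bf, mul_add, sum_add_distrib]

theorem bf_smul_left (c : R) (x z : ι → R) : bf B (c • x) z = c * bf B x z := by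
  simp [bf, mul_sum, mul_assoc]

theorem bf_smul_right (c : R) (x z : ι → R) : bf B z (c • x) = c * bf B z x := by
  simp only [bf, mul_sum, Pi.smul_apply, smul_eq_mul]
  exact sum_congr rfl fun i _ => sum_congr rfl fun j _ => by ring

theorem bf_neg_left (x z : ι → R) : bf B (-x) z = -bf B x z := by
  simp [bf]

theorem bf_neg_right (x z : ι → R) : bf B z (-x) = -bf B z x := by
  simp [bf]

theorem bf_sub_left (x y z : ι → R) : bf B (x - y) z = bf B x z - bf B y z := by
  rw [sub_eq_add_neg, bf_add_left, bf_neg_left, ← sub_eq_add_neg]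

theorem bf_sub_right (x y z : ι → R) : bf B z (x - y) = bf B z x - bf B z y := by
  rw [sub_eq_add_neg, bf_add_right, bf_neg_right, ← sub_eq_add_neg]

theorem bf_zero_left (z : ι → R) : bf B 0 z = 0 := by simp [bf]

theorem bf_zero_right (z : ι → R) : bf B z 0 = 0 := by simp [bf]

variable {B} in
theorem bf_comm (h : B.IsSymm) (x y : ι → R) : bf B x y = bf B y x := by
  unfold bf
  rw [sum_comm]
  refine sum_congr rfl fun i _ => sum_congr rfl fun j _ => ?_
  rw [h.apply]
  ring

theorem bf_map {S : Type*} [CommRing S] (f : R →+* S) (x y : ι → R) :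
    bf B (fun i => f (x i)) (fun i => f (y i)) = f (bf B x y) := by
  simp [bf]

theorem bf_intCast (x y : ι → ℤ) :
    bf B (fun i => (x i : R)) (fun i => (y i : R)) = ((bf B x y : ℤ) : R) := by
  simp [bf]

theorem bf_ofReal (x y : ι → ℝ) :
    bf B (fun i => (x i : ℂ)) (fun i => (y i : ℂ)) = ((bf B x y : ℝ) : ℂ) := by
  simp [bf]

/-- real part of a complex vector -/
def rev (z : ι → ℂ) : ι → ℝ := fun i => (z i).re

/-- imaginary part of a complex vector -/
def imv (z : ι → ℂ) : ι → ℝ := fun i => (z i).im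

omit [Fintype ι] in
theorem eq_rev_imv (z : ι → ℂ) :
    z = (fun i => ((rev z i : ℝ) : ℂ)) + Complex.I • (fun i => ((imv z i : ℝ) : ℂ)) := by
  funext i
  simp only [Pi.add_apply, Pi.smul_apply, smul_eq_mul, rev, imv]
  rw [mul_comm]
  exact (Complex.re_add_im (z i)).symm

theorem bf_re (z w : ι → ℂ) : (bf B z w).re = bf B (rev z) (rev w) - bf B (imv z) (imv w) := by
  simp only [bf, Complex.re_sum, ← sum_sub_distrib, rev, imv]
  refine sum_congr rfl fun i _ => sum_congr rfl fun j _ => ?_
  simp [Complex.mul_re]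

theorem bf_im (z w : ι → ℂ) : (bf B z w).im = bf B (rev z) (imv w) + bf B (imv z) (rev w) := by
  simp only [bf, Complex.im_sum, ← sum_add_distrib, rev, imv]
  refine sum_congr rfl fun i _ => sum_congr rfl fun j _ => ?_
  simp [Complex.mul_im]

theorem bf_continuous [TopologicalSpace R] [IsTopologicalRing R] :
    Continuous fun q : (ι → R) × (ι → R) => bf B q.1 q.2 := by
  unfold bf
  fun_prop

theorem bf_contC {X : Type*} [TopologicalSpace X] {f g : X → ι → ℂ} (hf : Continuous f)
    (hg : Continuous g) : Continuous fun x => bf B (f x) (g x) := by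
  unfold bf
  fun_prop

theorem bf_contR {X : Type*} [TopologicalSpace X] {f g : X → ι → ℝ} (hf : Continuous f)
    (hg : Continuous g) : Continuous fun x => bf B (f x) (g x) := by
  unfold bf
  fun_prop

theorem bf_diffC {X : Type*} [NormedAddCommGroup X] [NormedSpace ℂ X] {f g : X → ι → ℂ}
    {s : Set X} (hf : DifferentiableOn ℂ f s)
    (hg : DifferentiableOn ℂ g s) : DifferentiableOn ℂ (fun x => bf B (f x) (g x)) s := by
  unfold bf
  have h1 : ∀ i, DifferentiableOn ℂ (fun x => f x i) s := fun i => by fun_prop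
  have h2 : ∀ i, DifferentiableOn ℂ (fun x => g x i) s := fun i => by fun_prop
  fun_prop

end

section

variable {A : Matrix (Fin 20) (Fin 20) ℤ}

theorem PosSymm.nonneg (h : PosSymm A) (x : Fin 20 → ℝ) : 0 ≤ bf A x x := by
  by_cases hx : x = 0
  · simp [hx, bf]
  · exact (h.pos x hx).le

theorem PosSymm.eq_zero (h : PosSymm A) {x : Fin 20 → ℝ} (hx : bf A x x = 0) : x = 0 := by
  by_contra hne
  exact (h.pos x hne).ne' hx

/-- Cauchy-Schwarz -/
theorem PosSymm.cs (h : PosSymm A) (x y : Fin 20 → ℝ) :
    bf A x y ^ 2 ≤ bf A x x * bf A y y := by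
  by_cases hy : bf A y y = 0
  · have := h.eq_zero hy
    simp [this, bf]
  · have hy' : 0 < bf A y y := lt_of_le_of_ne (h.nonneg y) (Ne.symm hy)
    have := h.nonneg (bf A y y • x - bf A x y • y)
    rw [bf_sub_left, bf_sub_right, bf_sub_right, bf_smul_left, bf_smul_right, bf_smul_left,
      bf_smul_right, bf_smul_left, bf_smul_right, bf_smul_left, bf_smul_right,
      bf_comm h.symm y x] at this
    have h2 : 0 ≤ bf A y y * (bf A x x * bf A y y - bf A x y ^ 2) := by
      nlinarith
    have := nonneg_of_mul_nonneg_right h2 hy'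
    linarith

end

end Pool.Agent.Y813.RL
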