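import Pool.Agent.Y813.RL.Koe
import Pool.Agent.Y813.RL.Tube5

set_option autoImplicit false

/-!
# Boundedness of reflective forms
-/

namespace Pool.Agent.Y813.RL

open Complex Set Finset

noncomputable section

variable {G : Matrix (Fin 20) (Fin 20) ℤ}

/-- point with given real and imaginary parts -/
def RI (X Y : ℝ × (ℝ × (Fin 20 → ℝ))) : TP :=
  ((X.1 : ℂ) + Y.1 * Complex.I, ((X.2.1 : ℂ) + Y.2.1 * Complex.I,
    fun i => (X.2.2 i : ℂ) + Y.2.2 i * Complex.I))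

theorem imW_RI (X Y : ℝ × (ℝ × (Fin 20 → ℝ))) : imW (RI X Y) = Y := by
  refine Prod.ext ?_ (Prod.ext ?_ ?_)
  · simp [imW, RI]
  · simp [imW, RI]
  · funext i
    simp [imW, RI, imv]

theorem RI_re_im (W : TP) : RI (reW W) (imW W) = W := by
  refine Prod.ext ?_ (Prod.ext ?_ ?_)
  · simp [imW, reW, RI]
  · simp [imW, reW, RI]
  · funext i
    simp [imW, reW, RI, imv, rev]

theorem continuous_RI (Y : ℝ × (ℝ × (Fin 20 → ℝ))) : Continuous fun X => RI X Y := by
  unfold RI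
  fun_prop

theorem real_bound {k : ℤ} {F : TP → ℂ} (hF : TubeForm G k F) (Y : ℝ × (ℝ × (Fin 20 → ℝ)))
    (h1 : 0 < Y.2.1) (h2 : 0 < kf G Y Y) : ∃ M : ℝ, ∀ W : TP, imW W = Y → ‖F W‖ ≤ M := by
  have hmem : ∀ X, RI X Y ∈ Hd G := by
    intro X
    rw [mem_Hd', imW_RI]
    have : (RI X Y).2.1.im = Y.2.1 := by
      have := congrArg (fun V => V.2.1) (imW_RI X Y)
      exact this
    rw [this]
    exact ⟨h1, h2⟩
  have hK : IsCompact (Icc (0 : ℝ × (ℝ × (Fin 20 → ℝ))) 1) := isCompact_Icc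
  have hc : ContinuousOn (fun X => F (RI X Y)) (Icc 0 1) :=
    hF.holo.continuousOn.comp (continuous_RI Y).continuousOn fun X _ => hmem X
  obtain ⟨M, hM⟩ := hK.exists_bound_of_continuousOn hc
  refine ⟨M, fun W hW => ?_⟩
  have hWm : W ∈ Hd G := by
    rw [← RI_re_im W, hW]
    exact hmem _
  have htr := hF.tr W hWm (-⌊W.1.re⌋) (-⌊W.2.1.re⌋) (fun i => -⌊(W.2.2 i).re⌋)
  rw [← htr]
  have heq : ((W.1 + ((-⌊W.1.re⌋ : ℤ) : ℂ), (W.2.1 + ((-⌊W.2.1.re⌋ : ℤ) : ℂ),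
      fun i => W.2.2 i + ((-⌊(W.2.2 i).re⌋ : ℤ) : ℂ))) : TP) =
      RI (Int.fract W.1.re, (Int.fract W.2.1.re, fun i => Int.fract (W.2.2 i).re)) Y := by
    rw [← hW]
    have e1 : ∀ w : ℂ, w + ((-⌊w.re⌋ : ℤ) : ℂ) = ((Int.fract w.re : ℝ) : ℂ) + w.im * Complex.I := by
      intro w
      apply Complex.ext
      · have : (w + ((-⌊w.re⌋ : ℤ) : ℂ)).re = w.re - ⌊w.re⌋ := by simp [sub_eq_add_neg]
        rw [this, Int.self_sub_floor]
        simp
      · simp
    refine Prod.ext ?_ (Prod.ext ?_ ?_)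
    · exact e1 _
    · exact e1 _
    · funext i
      exact e1 _
  rw [heq]
  apply hM
  constructor
  · refine ⟨Int.fract_nonneg _, Int.fract_nonneg _, fun i => Int.fract_nonneg _⟩
  · refine ⟨(Int.fract_lt_one _).le, (Int.fract_lt_one _).le, fun i => (Int.fract_lt_one _).le⟩

/-- the first isotropic vector -/
def e1K : ℤ × (ℤ × (Fin 20 → ℤ)) := (1, (0, 0))

/-- the vector orthogonal to it -/
def u1K : ℤ × (ℤ × (Fin 20 → ℤ)) := (0, (0, Pi.single 0 1))

theorem bf_single_pos (h : PosSymm G) :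
    0 < bf G (Pi.single 0 1 : Fin 20 → ℤ) (Pi.single 0 1) := by
  have h1 := h.pos (fun i => ((Pi.single 0 1 : Fin 20 → ℤ) i : ℝ)) (by
    intro h0
    have := congrFun h0 0
    simp at this)
  rw [bf_intCast] at h1
  exact_mod_cast h1

theorem e1_e1 : kf G e1K e1K = 0 := by
  simp [kf, e1K, bf_zero_left]

theorem e1_u1 : kf G e1K u1K = 0 := by
  simp [kf, e1K, u1K, bf_zero_left]

theorem u1_u1 (h : PosSymm G) : kf G u1K u1K < 0 := by
  have := bf_single_pos h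
  simp only [kf, u1K]
  linarith

theorem pos_e1 : PosDir G (cR e1K) := by
  have : cR e1K = (1, (0, 0)) := by
    refine Prod.ext ?_ (Prod.ext ?_ ?_)
    · simp [cR, e1K]
    · simp [cR, e1K]
    · funext i; simp [cR, e1K]
  rw [this]
  exact posDir_one

theorem smul_cK_e1 (t : ℂ) : t • cK e1K = (t, (0, 0)) := by
  refine Prod.ext ?_ (Prod.ext ?_ ?_)
  · simp [cK, e1K]
  · simp [cK, e1K]
  · funext i; simp [cK, e1K]

/-- boundedness for large imaginary part of `omega` -/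
theorem bound_omega (hKD : JobKD) (h : PosSymm G) {k : ℤ} {F : TP → ℂ} (hF : TubeForm G k F)
    (Y : ℝ × (ℝ × (Fin 20 → ℝ)))
    (h1 : 0 < Y.2.1) (h2 : 0 < kf G Y Y) : ∃ M : ℝ, ∀ W : TP, (imW W).2 = Y.2 → Y.1 ≤ W.1.im →
      ‖F W‖ ≤ M := by
  obtain ⟨M, hM⟩ := real_bound hF Y h1 h2
  refine ⟨M, fun W hW hWi => ?_⟩
  let t : ℂ := ((W.1.im - Y.1 : ℝ) : ℂ) * Complex.I
  have ht : t.im = W.1.im - Y.1 := by
    show (((W.1.im - Y.1 : ℝ) : ℂ) * Complex.I).im = _
    rw [Complex.im_ofReal_mul]; simp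
  have hV : imW (W + (-t) • cK e1K) = Y := by
    rw [imW_add, imW_smul_cK]
    refine Prod.ext ?_ ?_
    · simp [cR, e1K, ht, imW]
    · rw [Prod.snd_add, hW]
      refine Prod.ext ?_ ?_
      · simp [cR, e1K]
      · funext i
        simp [cR, e1K]
  have hVm : W + (-t) • cK e1K ∈ Hd G := by
    rw [mem_Hd', hV]
    have : (W + (-t) • cK e1K).2.1.im = Y.2.1 := congrArg (fun V => V.2.1) hV
    rw [this]
    exact ⟨h1, h2⟩
  have := koecher_dir hKD h hF e1_e1 e1_u1 (u1_u1 h) pos_e1 hVm (M := M) (by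
    intro x
    apply hM
    rw [imW_add, hV, imW_smul_cK]
    simp) (t := t) (by rw [ht]; linarith)
  have he : W + (-t) • cK e1K + t • cK e1K = W := by
    rw [add_assoc, ← add_smul]; simp
  rwa [he] at this

/-- the rational vector `X / N` -/
def xr (X : Fin 20 → ℤ) (N : ℕ) : Fin 20 → ℝ := fun i => (X i : ℝ) / N

/-- the isotropic vector in direction `(|x|^2/2, 1, x)` -/
def e2K (G : Matrix (Fin 20) (Fin 20) ℤ) (X : Fin 20 → ℤ) (N : ℕ) : ℤ × (ℤ × (Fin 20 → ℤ)) :=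
  (bf G X X, (2 * (N : ℤ) ^ 2, (2 * (N : ℤ)) • X))

/-- the vector orthogonal to it -/
def u2K (G : Matrix (Fin 20) (Fin 20) ℤ) (X : Fin 20 → ℤ) (N : ℕ) : ℤ × (ℤ × (Fin 20 → ℤ)) :=
  (bf G X (Pi.single 0 1), (0, (N : ℤ) • Pi.single 0 1))

theorem e2_e2 (X : Fin 20 → ℤ) (N : ℕ) : kf G (e2K G X N) (e2K G X N) = 0 := by
  simp only [kf, e2K, bf_smul_left, bf_smul_right]
  ring

theorem e2_u2 (X : Fin 20 → ℤ) (N : ℕ) : kf G (e2K G X N) (u2K G X N) = 0 := by
  simp only [kf, e2K, u2K, bf_smul_left, bf_smul_right]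
  ring

theorem u2_u2 (h : PosSymm G) (X : Fin 20 → ℤ) {N : ℕ} (hN : 0 < N) :
    kf G (u2K G X N) (u2K G X N) < 0 := by
  have := bf_single_pos h
  simp only [kf, u2K, bf_smul_left, bf_smul_right]
  have hN' : (0 : ℤ) < N := by exact_mod_cast hN
  have := mul_pos hN' (mul_pos hN' this)
  linarith

theorem pos_e2 (h : PosSymm G) (X : Fin 20 → ℤ) {N : ℕ} (hN : 0 < N) :
    PosDir G (cR (e2K G X N)) := by
  apply posDir_of_pos h
  · rw [kf_cR, e2_e2]; simp
  · simp only [cR, e2K]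
    positivity

theorem bf_xr (X : Fin 20 → ℤ) {N : ℕ} (hN : 0 < N) :
    bf G (xr X N) (xr X N) = (bf G X X : ℤ) / (N : ℝ) ^ 2 := by
  have : xr X N = ((N : ℝ)⁻¹) • fun i => (X i : ℝ) := by
    funext i
    simp [xr, div_eq_inv_mul]
  rw [this, bf_smul_left, bf_smul_right, bf_intCast]
  field_simp

/-- **boundedness on rational slices** -/
theorem bound_slice (hKD : JobKD) (h : PosSymm G) {k : ℤ} {F : TP → ℂ} (hF : TubeForm G k F)
    (X : Fin 20 → ℤ) {N : ℕ} (hN : 0 < N) {η : ℝ} (hη : 0 < η) : ∃ M : ℝ, ∀ W : TP,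
      1 ≤ W.2.1.im → imv W.2.2 = W.2.1.im • xr X N →
      (η + bf G (xr X N) (xr X N) / 2) * W.2.1.im ≤ W.1.im → ‖F W‖ ≤ M := by
  set q := bf G (xr X N) (xr X N) with hq
  have hq0 : 0 ≤ q := h.nonneg _
  obtain ⟨M, hM⟩ := bound_omega hKD h hF (η + q / 2, (1, xr X N)) (by simp) (by
    simp only [kf]
    linarith)
  refine ⟨M, fun W hT hx hw => ?_⟩
  have hN' : (0 : ℝ) < N := by exact_mod_cast hN
  let t : ℂ := (((W.2.1.im - 1) / (2 * (N : ℝ) ^ 2) : ℝ) : ℂ) * Complex.I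
  have ht : t.im = (W.2.1.im - 1) / (2 * (N : ℝ) ^ 2) := by
    show ((((W.2.1.im - 1) / (2 * (N : ℝ) ^ 2) : ℝ) : ℂ) * Complex.I).im = _
    rw [Complex.im_ofReal_mul]; simp
  have htpos : 0 ≤ t.im := by
    rw [ht]
    apply div_nonneg (by linarith) (by positivity)
  have hV : imW (W + (-t) • cK (e2K G X N)) =
      (W.1.im - (W.2.1.im - 1) * (q / 2), (1, xr X N)) := by
    rw [imW_add, imW_smul_cK]
    refine Prod.ext ?_ (Prod.ext ?_ ?_)
    · simp only [imW, cR, e2K, Prod.fst_add, Prod.smul_fst, smul_eq_mul, Complex.neg_im, ht]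
      rw [hq, bf_xr X hN]
      field_simp
      ring
    · simp only [imW, cR, e2K, Prod.fst_add, Prod.snd_add, Prod.smul_fst, Prod.smul_snd,
        smul_eq_mul, Complex.neg_im, ht]
      push_cast
      field_simp
      ring
    · funext i
      simp only [imW, cR, e2K, Prod.snd_add, Prod.smul_snd, Pi.add_apply, Pi.smul_apply,
        smul_eq_mul, Complex.neg_im, ht, hx, xr]
      push_cast
      field_simp
      ring
  have hw1 : η + q / 2 ≤ W.1.im - (W.2.1.im - 1) * (q / 2) := by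
    nlinarith
  have hVm : W + (-t) • cK (e2K G X N) ∈ Hd G := by
    rw [mem_Hd', hV]
    have : (W + (-t) • cK (e2K G X N)).2.1.im = 1 := congrArg (fun V => V.2.1) hV
    rw [this]
    refine ⟨one_pos, ?_⟩
    simp only [kf]
    linarith
  have := koecher_dir hKD h hF (e2_e2 X N) (e2_u2 X N) (u2_u2 h X hN) (pos_e2 h X hN) hVm
    (M := M) (by
      intro x
      have h1 : imW (W + (-t) • cK (e2K G X N) + (x : ℂ) • cK (e2K G X N)) =
          (W.1.im - (W.2.1.im - 1) * (q / 2), (1, xr X N)) := by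
        rw [imW_add, hV, imW_smul_cK]
        simp
      apply hM
      · rw [h1]
      · have h2 : (W + (-t) • cK (e2K G X N) + (x : ℂ) • cK (e2K G X N)).1.im =
          W.1.im - (W.2.1.im - 1) * (q / 2) := congrArg (fun V => V.1) h1
        rw [h2]
        exact hw1) (t := t) htpos
  have he : W + (-t) • cK (e2K G X N) + t • cK (e2K G X N) = W := by
    rw [add_assoc, ← add_smul]; simp
  rwa [he] at this

end

end Pool.Agent.Y813.RL
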