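import Mathlib

set_option autoImplicit false

/-!
# Lattices given by Gram matrices and reflective modular forms
-/

namespace Pool.Agent.Y813.Refl

noncomputable section

/-- The bilinear form with integer Gram matrix `B`, extended to a commutative ring `R`. -/
def form {ι R : Type*} [Fintype ι] [CommRing R] (B : Matrix ι ι ℤ) (x y : ι → R) : R :=
  ∑ i, ∑ j, x i * (B i j : R) * y j

/-- Two lattices with Gram matrices `B`, `C` are in the same genus: they are isometric over
the reals and over the `p`-adic integers for every prime `p`. -/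
def SameGenus {ι κ : Type} [Fintype ι] [Fintype κ] (B : Matrix ι ι ℤ) (C : Matrix κ κ ℤ) : Prop :=
  (∃ e : (ι → ℝ) ≃ₗ[ℝ] (κ → ℝ), ∀ x y, form C (e x) (e y) = form B x y) ∧
  ∀ (p : ℕ) [Fact p.Prime],
    ∃ e : (ι → ℤ_[p]) ≃ₗ[ℤ_[p]] (κ → ℤ_[p]), ∀ x y, form C (e x) (e y) = form B x y

section

variable {ι : Type} [Fintype ι] [DecidableEq ι]

/-- The set of all `Z` in the complexified lattice with `(Z, Z) = 0` and `(Z, conj Z) > 0`. -/
def quadric (B : Matrix ι ι ℤ) : Set (ι → ℂ) :=
  {Z | form B Z Z = 0 ∧ 0 < (form B Z (fun i => (starRingEnd ℂ) (Z i))).re}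

/-- The image of a vector under an integral matrix. -/
def act {R : Type*} [CommRing R] (g : Matrix ι ι ℤ) (x : ι → R) : ι → R :=
  fun i => ∑ j, (g i j : R) * x j

omit [DecidableEq ι] in
theorem act_mul {R : Type*} [CommRing R] (g h : Matrix ι ι ℤ) (x : ι → R) :
    act (g * h) x = act g (act h x) := by
  funext i
  simp only [act, Matrix.mul_apply, Int.cast_sum, Int.cast_mul, Finset.sum_mul, Finset.mul_sum]
  rw [Finset.sum_comm]
  exact Finset.sum_congr rfl fun j _ => Finset.sum_congr rfl fun l _ => by ring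

theorem act_one {R : Type*} [CommRing R] (x : ι → R) : act (1 : Matrix ι ι ℤ) x = x := by
  funext i
  simp [act, Matrix.one_apply]

omit [DecidableEq ι] in
theorem act_sub {R : Type*} [CommRing R] (g : Matrix ι ι ℤ) (x y : ι → R) :
    act g (fun i => x i - y i) = fun i => act g x i - act g y i := by
  funext i
  simp [act, mul_sub]

omit [DecidableEq ι] in
theorem form_eq {R : Type*} [CommRing R] (B : Matrix ι ι ℤ) (x y : ι → R) :
    form B x y = ∑ i, x i * act B y i := by
  simp only [form, act, Finset.mul_sum, mul_assoc]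

omit [DecidableEq ι] in
theorem form_act {R : Type*} [CommRing R] (B g : Matrix ι ι ℤ) (x y : ι → R) :
    form B (act g x) (act g y) = form (g.transpose * B * g) x y := by
  rw [form_eq, form_eq, act_mul, act_mul]
  generalize act B (act g y) = w
  simp only [act, Matrix.transpose_apply, Finset.sum_mul, Finset.mul_sum]
  rw [Finset.sum_comm]
  exact Finset.sum_congr rfl fun j _ => Finset.sum_congr rfl fun l _ => by ring

theorem form_single {R : Type*} [CommRing R] (B : Matrix ι ι ℤ) (i j : ι) :
    form B (Pi.single i (1 : R)) (Pi.single j 1) = (B i j : R) := by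
  simp [form, Pi.single_apply]

/-- A matrix preserving the form on integral vectors preserves it over every ring. -/
theorem form_act_of_int {B g : Matrix ι ι ℤ}
    (h : ∀ x y : ι → ℤ, form B (act g x) (act g y) = form B x y)
    {R : Type*} [CommRing R] (x y : ι → R) : form B (act g x) (act g y) = form B x y := by
  have : g.transpose * B * g = B := by
    ext i j
    have := h (Pi.single i 1) (Pi.single j 1)
    rw [form_act, form_single, form_single] at this
    simpa using this
  rw [form_act, this]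

omit [DecidableEq ι] in
theorem act_cast {R : Type*} [CommRing R] (g : Matrix ι ι ℤ) (y : ι → ℤ) :
    act g (fun i => (y i : R)) = fun i => ((act g y i : ℤ) : R) := by
  funext i
  simp [act]

/-- The discriminant kernel of the lattice with Gram matrix `B`, for the affine cone `A`
over one component of the domain: the invertible integral matrices preserving the form, mapping
the cone onto itself and acting trivially on the quotient of the dual lattice by the lattice. -/
def discKernel (B : Matrix ι ι ℤ) (A : Set (ι → ℂ)) : Subgroup (Matrix.GeneralLinearGroup ι ℤ) where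
  carrier := {g | (∀ x y : ι → ℤ, form B (act g.val x) (act g.val y) = form B x y) ∧
    (∀ Z : ι → ℂ, act g.val Z ∈ A ↔ Z ∈ A) ∧
    (∀ x : ι → ℚ, (∀ y : ι → ℤ, ∃ m : ℤ, form B x (fun i => (y i : ℚ)) = m) →
      ∃ w : ι → ℤ, ∀ i, act g.val x i - x i = w i)}
  mul_mem' := by
    rintro g h ⟨g1, g2, g3⟩ ⟨h1, h2, h3⟩
    refine ⟨fun x y => ?_, fun Z => ?_, fun x hx => ?_⟩
    · rw [Units.val_mul, act_mul, act_mul, g1, h1]
    · rw [Units.val_mul, act_mul, g2, h2]
    · obtain ⟨w, hw⟩ := h3 x hx
      obtain ⟨w', hw'⟩ := g3 x hx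
      refine ⟨fun i => act g.val w i + w' i, fun i => ?_⟩
      have e : act h.val x = fun i => x i - (fun i => -(w i : ℚ)) i := by
        funext i
        linarith [hw i]
      rw [Units.val_mul, act_mul, e, act_sub]
      have : act g.val (fun i => -(w i : ℚ)) i = -((act g.val w i : ℤ) : ℚ) := by
        have := congrFun (act_cast (R := ℚ) g.val w) i
        rw [← this]
        simp [act]
      simp only
      rw [this]
      push_cast
      linarith [hw' i]
  one_mem' := ⟨fun x y => by rw [Units.val_one, act_one, act_one],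
    fun Z => by rw [Units.val_one, act_one],
    fun x _ => ⟨0, fun i => by rw [Units.val_one, act_one]; simp⟩⟩
  inv_mem' := by
    rintro g ⟨g1, g2, g3⟩
    have hinv : ∀ {R : Type} [CommRing R] (x : ι → R), act g.val (act (g⁻¹).val x) = x := by
      intro R _ x
      rw [← act_mul, ← Units.val_mul, mul_inv_cancel, Units.val_one, act_one]
    refine ⟨fun x y => ?_, fun Z => ?_, fun x hx => ?_⟩
    · rw [← g1, hinv, hinv]
    · rw [← g2, hinv]
    · obtain ⟨w, hw⟩ := g3 (act (g⁻¹).val x) (by
        intro y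
        obtain ⟨m, hm⟩ := hx (act g.val y)
        refine ⟨m, ?_⟩
        rw [← hm, ← act_cast, ← form_act_of_int g1 (act (g⁻¹).val x), hinv])
      refine ⟨fun i => - w i, fun i => ?_⟩
      have := hw i
      rw [hinv] at this
      rw [Int.cast_neg]
      linarith

/-- A modular form of weight `k` and character `χ` for the discriminant kernel: a holomorphic
function on the affine cone `A`, homogeneous of degree `-k` and transforming with the character
`χ` of finite order. -/
structure IsModularForm (B : Matrix ι ι ℤ) (A : Set (ι → ℂ)) (k : ℤ)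
    (χ : discKernel B A →* ℂˣ) (F : (ι → ℂ) → ℂ) : Prop where
  holo : DifferentiableOn ℂ F A
  homog : ∀ Z ∈ A, ∀ t : ℂ, t ≠ 0 → F (fun i => t * Z i) = t ^ (-k) * F Z
  finite_order : ∃ n : ℕ, 0 < n ∧ ∀ g, χ g ^ n = 1
  equi : ∀ g : discKernel B A, ∀ Z ∈ A, F (act g.1.val Z) = (χ g : ℂ) * F Z

/-- `v` is a primitive vector of negative norm whose reflection maps the lattice to itself. -/
def IsReflective (B : Matrix ι ι ℤ) (v : ι → ℤ) : Prop :=
  (∀ (d : ℤ) (w : ι → ℤ), (∀ i, v i = d * w i) → IsUnit d) ∧ form B v v < 0 ∧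
  ∀ x : ι → ℤ, ∃ y : ι → ℤ, ∀ i,
    (y i : ℚ) = (x i : ℚ) - (2 * ((form B x v : ℤ) : ℚ) / ((form B v v : ℤ) : ℚ)) * (v i : ℚ)

/-- The lattice with Gram matrix `B` is reflective: there is a nonconstant modular form for the
discriminant kernel all of whose zeros lie on mirrors of reflective vectors. -/
def IsReflectiveLattice (B : Matrix ι ι ℤ) (A : Set (ι → ℂ)) : Prop :=
  ∃ (k : ℤ) (χ : discKernel B A →* ℂˣ) (F : (ι → ℂ) → ℂ), IsModularForm B A k χ F ∧
    (¬ ∃ c : ℂ, ∀ Z ∈ A, F Z = c) ∧
    ∀ Z ∈ A, F Z = 0 → ∃ v : ι → ℤ, IsReflective B v ∧ form B (fun i => (v i : ℂ)) Z = 0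

end

/-- The Gram matrix of `2U`. -/
def gramUU : Matrix (Fin 4) (Fin 4) ℤ := !![0, 1, 0, 0; 1, 0, 0, 0; 0, 0, 0, 1; 0, 0, 1, 0]

/-- The Gram matrix of `M = 2U + L(-1)`, where `G` is a Gram matrix of `L`. -/
def gramM (G : Matrix (Fin 20) (Fin 20) ℤ) : Matrix (Fin 4 ⊕ Fin 20) (Fin 4 ⊕ Fin 20) ℤ :=
  Matrix.fromBlocks gramUU 0 0 (-G)

/-- The affine cone over one component of the domain of `M`: the connected component containing
the point `(1, 1, i, i, 0)`. -/
def coneM (G : Matrix (Fin 20) (Fin 20) ℤ) : Set (Fin 4 ⊕ Fin 20 → ℂ) :=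
  connectedComponentIn (quadric (gramM G)) (Sum.elim ![1, 1, Complex.I, Complex.I] 0)

/-- The Gram matrix of the root lattice `2E_8 + D_4`. -/
def gramEED : Matrix (Fin 8 ⊕ (Fin 8 ⊕ Fin 4)) (Fin 8 ⊕ (Fin 8 ⊕ Fin 4)) ℤ :=
  Matrix.fromBlocks CartanMatrix.E₈ 0 0 (Matrix.fromBlocks CartanMatrix.E₈ 0 0 (CartanMatrix.D 4))

end

end Pool.Agent.Y813.Refl
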