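import Pool.Agent.Y813.RL.One2

set_option autoImplicit false

/-!
# The vector valued modular form and the genus
-/

namespace Pool.Agent.Y813.RL

open Complex Set Finset Topology Pool.Agent.Y683.RL

noncomputable section

variable {G : Matrix (Fin 20) (Fin 20) ℤ} {k : ℤ} {F : TP → ℂ}
  {φ : ℕ → ℂ × (Fin 20 → ℂ) → ℂ} {C : ℕ}

/-- vanishing of a coefficient from zero-freeness near the centre -/
theorem coeff_zero_nbhd (hT1 : JobTheta1) (hBC : JobBC) (hKD : JobKD) (h : PosSymm G)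
    (H : CM G k F φ C 1) {c : ℂ → (Fin 20 → ℂ) → ℂ} (hJ : JacobiZero (((1 : ℕ) : ℤ) • G) c)
    (hc : ∀ τ z, 0 < τ.im → φ (C + 1) (τ, z) = φ C (τ, z) * c τ z)
    {μ : Fin 20 → ℤ} {n : ℤ} {w ε : ℝ} (hw : 0 < w) (hε : 0 < ε)
    (hn : (n : ℝ) - bd G μ μ / 2 < -w)
    (hfree : ∀ x : Fin 20 → ℝ, Short G x → bf G (x + lam G μ) (x + lam G μ) < ε →
      ∀ y : Fin 20 → ℝ, ∃ T₀ : ℝ, ∀ τ ω : ℂ, T₀ ≤ τ.im →
      (w + bf G x x / 2) * τ.im < ω.im → F (ω, sl x y τ) ≠ 0) :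
    fco 0 (fc c μ) n = 0 := by
  set O : Set (Fin 20 → ℝ) := {x | (n : ℝ) + dt μ x + (w + bf G x x / 2) < 0} ∩
    {x | bf G (x + lam G μ) (x + lam G μ) < ε} with hO
  have hOopen : IsOpen O := by
    have c1 : Continuous fun x : Fin 20 → ℝ => bf G x x := bf_contR G continuous_id continuous_id
    have c2 : Continuous fun x : Fin 20 → ℝ => bf G (x + lam G μ) (x + lam G μ) :=
      bf_contR G (by fun_prop) (by fun_prop)
    have c3 := dt_continuous μ
    exact (isOpen_lt (by fun_prop) continuous_const).inter (isOpen_lt c2 continuous_const)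
  have hx₀O : -lam G μ ∈ O := by
    constructor
    · show (n : ℝ) + dt μ (-lam G μ) + (w + bf G (-lam G μ) (-lam G μ) / 2) < 0
      have e : dt μ (-lam G μ) = -bd G μ μ := by
        rw [← lam_dt h]
        simp [dt]
      rw [e, bf_neg_left, bf_neg_right, neg_neg, bf_lam_lam h]
      linarith
    · show bf G (-lam G μ + lam G μ) (-lam G μ + lam G μ) < ε
      rw [neg_add_cancel, bf_zero_left]
      exact hε
  obtain ⟨Q₂, hQ₂⟩ := short_bound h 2
  obtain ⟨X, N, hN, hXO, hgen⟩ := gen Q₂ hOopen ⟨_, hx₀O⟩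
  have hx : Short G (xr X N) := by
    intro μ h0 h2 j
    refine hgen μ ?_ (fun i => hQ₂ μ h2 i) j
    rintro rfl
    rw [bd_zero] at h0
    exact lt_irrefl _ h0
  refine H.coeff_zero hT1 hBC hKD h hJ hc X hN hx hw (hfree _ hx hXO.2) ?_
  have h1 : (n : ℝ) + dt μ (xr X N) + (w + bf G (xr X N) (xr X N) / 2) < 0 := hXO.1
  push_cast
  linarith

/-- data of a zero of height larger than `w` -/
theorem zero_data (h : PosSymm G) (hF : TubeForm G k F) {x : Fin 20 → ℝ} (hx : Short G x)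
    {w : ℝ} (hw : 0 < w) (y : Fin 20 → ℝ) {τ ω : ℂ} (hτ : 1 / w + 1 ≤ τ.im)
    (hω : (w + bf G x x / 2) * τ.im < ω.im) (hz : F (ω, sl x y τ) = 0) :
    ∃ (b M n : ℤ) (μ : Fin 20 → ℤ), 1 ≤ M ∧ WallData G 0 b M n μ ∧
      ∃ H : ℝ, w < H ∧ nu G 0 b M n μ = (M : ℝ) ^ 2 * H +
        bf G (lam G μ + (M : ℝ) • x) (lam G μ + (M : ℝ) • x) / 2 := by
  have h0 : 0 < 1 / w := by positivity
  have hT0 : 0 < τ.im := by linarith
  have hTη : 1 < τ.im ^ 2 * w := by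
    have h3 : 1 / w < τ.im := by linarith
    rw [div_lt_iff₀ hw] at h3
    have h4 : 1 * (τ.im * w) ≤ τ.im * (τ.im * w) :=
      mul_le_mul_of_nonneg_right (by linarith) (by positivity)
    calc (1 : ℝ) < τ.im * w := h3
      _ = 1 * (τ.im * w) := (one_mul _).symm
      _ ≤ τ.im * (τ.im * w) := h4
      _ = τ.im ^ 2 * w := by ring
  have h1 : w < ω.im / τ.im - bf G x x / 2 := by
    rw [lt_sub_iff_add_lt, lt_div_iff₀ hT0]
    exact hω
  obtain ⟨b, M, n, μ, h2, h3, -, h4⟩ := slice_zero h hF hx y hT0 hw hTη h1.le hz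
  exact ⟨b, M, n, μ, h2, h3, _, h1, h4⟩

/-- all coefficients have exponent at least `-1` -/
theorem ge_one (hT1 : JobTheta1) (hBC : JobBC) (hKD : JobKD) (h : PosSymm G)
    (H : CM G k F φ C 1) {c : ℂ → (Fin 20 → ℂ) → ℂ} (hJ : JacobiZero (((1 : ℕ) : ℤ) • G) c)
    (hc : ∀ τ z, 0 < τ.im → φ (C + 1) (τ, z) = φ C (τ, z) * c τ z)
    {μ : Fin 20 → ℤ} {n : ℤ} (hne : fco 0 (fc c μ) n ≠ 0) : -1 ≤ (n : ℝ) - bd G μ μ / 2 := by
  by_contra hcon
  push Not at hcon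
  apply hne
  set w : ℝ := (1 + (bd G μ μ / 2 - n)) / 2 with hw
  have hw1 : 1 < w := by rw [hw]; linarith
  refine coeff_zero_nbhd hT1 hBC hKD h H hJ hc (w := w) (ε := 1) (by linarith) one_pos
    (by rw [hw]; linarith) ?_
  intro x hx _ y
  refine ⟨1 / w + 1, fun τ ω hτ hω hz => ?_⟩
  obtain ⟨b, M, n, μ, h1, h2, H', h3, h4⟩ := zero_data h H.tf hx (by linarith) y hτ hω hz
  have h5 := (nu_le_one h2).2
  rw [h4] at h5
  have h6 := h.nonneg (lam G μ + (M : ℝ) • x)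
  have h7 : (1 : ℝ) ≤ M := by exact_mod_cast h1
  have h8 : (1 : ℝ) ≤ (M : ℝ) ^ 2 := one_le_pow₀ h7
  have h9 : 1 * H' ≤ (M : ℝ) ^ 2 * H' := mul_le_mul_of_nonneg_right h8 (by linarith)
  linarith

theorem lam_sub (μ ν : Fin 20 → ℤ) : lam G (μ - ν) = lam G μ - lam G ν := by
  unfold lam
  rw [← Matrix.mulVec_sub]
  congr 1
  funext j
  simp

/-- off the trivial class the exponents are at least `-1/2`, for a representative of minimal norm -/
theorem ge_half (hT1 : JobTheta1) (hBC : JobBC) (hKD : JobKD) (h : PosSymm G)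
    (H : CM G k F φ C 1) {c : ℂ → (Fin 20 → ℂ) → ℂ} (hJ : JacobiZero (((1 : ℕ) : ℤ) • G) c)
    (hc : ∀ τ z, 0 < τ.im → φ (C + 1) (τ, z) = φ C (τ, z) * c τ z)
    {μ : Fin 20 → ℤ} (hμ : ¬ ∃ v : Fin 20 → ℤ, μ = G.mulVec v)
    (hmin : ∀ v : Fin 20 → ℤ, bd G μ μ ≤ bd G (μ - G.mulVec v) (μ - G.mulVec v))
    {n : ℤ} (hne : fco 0 (fc c μ) n ≠ 0) : -(1 / 2) ≤ (n : ℝ) - bd G μ μ / 2 := by
  by_contra hcon
  push Not at hcon
  apply hne
  set d2 := bd G μ μ with hd2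
  have hd0 : 0 < d2 := by
    have h1 : lam G μ ≠ 0 := by
      intro h0
      apply hμ
      refine ⟨0, ?_⟩
      rw [Matrix.mulVec_zero]
      funext i
      have := mulVec_lam h μ i
      rw [h0, bf_zero_right] at this
      exact_mod_cast this
    rw [hd2, ← bf_lam_lam h]
    exact h.pos _ h1
  obtain ⟨hs, hs1, hs2, hs3⟩ : ∃ hs : ℝ, 1 / 2 ≤ hs ∧ 1 - d2 / 2 ≤ hs ∧ (n : ℝ) - d2 / 2 < -hs := by
    refine ⟨max (1 / 2) (1 - d2 / 2), le_max_left _ _, le_max_right _ _, ?_⟩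
    rcases le_total (1 - d2 / 2) (1 / 2) with h1 | h1
    · rw [max_eq_left h1]
      exact hcon
    · rw [max_eq_right h1]
      have h2 : (n : ℝ) < 0 := by linarith
      have h3 : n < 0 := by exact_mod_cast h2
      have h4 : (n : ℝ) ≤ -1 := by
        have : n ≤ -1 := by omega
        exact_mod_cast this
      linarith
  set w : ℝ := (hs + (d2 / 2 - n)) / 2 with hw
  have hw1 : hs < w := by rw [hw]; linarith
  have hw2 : 0 < d2 - 2 + 2 * w := by linarith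
  set ε : ℝ := min 1 ((d2 - 2 + 2 * w) / 3) with hε
  have hε0 : 0 < ε := lt_min one_pos (by linarith)
  have hε1 : ε ≤ 1 := min_le_left _ _
  have hε2 : 3 * ε ≤ d2 - 2 + 2 * w := by
    have := min_le_right 1 ((d2 - 2 + 2 * w) / 3)
    rw [← hε] at this
    linarith
  refine coeff_zero_nbhd hT1 hBC hKD h H hJ hc (w := w) (ε := ε ^ 2) (by linarith)
    (by positivity) (by rw [← hd2, hw]; linarith) ?_
  intro x hx hxε y
  refine ⟨1 / w + 1, fun τ ω hτ hω hz => ?_⟩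
  obtain ⟨b, M, n', μ', h1, h2, H', h3, h4⟩ := zero_data h H.tf hx (by linarith) y hτ hω hz
  have h5 := (nu_le_one h2).2
  have h6 := h.nonneg (lam G μ' + (M : ℝ) • x)
  have h7 : (1 : ℝ) ≤ M := by exact_mod_cast h1
  have h8 : (1 : ℝ) ≤ (M : ℝ) ^ 2 := one_le_pow₀ h7
  have hH' : 1 / 2 < H' := by linarith
  have h9 : 1 * H' ≤ (M : ℝ) ^ 2 * H' := mul_le_mul_of_nonneg_right h8 (by linarith)
  have hM1 : M = 1 := by
    by_contra hM
    have h10 : (2 : ℤ) ≤ M := by omega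
    have h11 : (2 : ℝ) ≤ M := by exact_mod_cast h10
    have h12 : (4 : ℝ) ≤ (M : ℝ) ^ 2 := by nlinarith
    have h13 : 4 * H' ≤ (M : ℝ) ^ 2 * H' := mul_le_mul_of_nonneg_right h12 (by linarith)
    linarith
  have hnu : nu G 0 b M n' μ' = 1 ∧ ∃ v : Fin 20 → ℤ, μ' = G.mulVec v := by
    rcases h2 with h10 | h10
    · exact h10
    · exfalso
      have h11 : nu G 0 b M n' μ' ≤ 1 / 2 := h10.2
      linarith
  obtain ⟨hnu1, v, hv⟩ := hnu
  rw [hnu1, hM1] at h4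
  rw [hv, lam_mulVec h] at h4
  push_cast at h4
  rw [one_smul] at h4
  set u : Fin 20 → ℝ := (fun i => (v i : ℝ)) + x with hu
  have hu2 : bf G u u < 2 - 2 * w := by linarith
  set e : Fin 20 → ℝ := x + lam G μ with he
  -- u - e = v - lam μ
  have h10 : bd G (μ - G.mulVec v) (μ - G.mulVec v) = bf G (u - e) (u - e) := by
    rw [← bf_lam_lam h, lam_sub, lam_mulVec h]
    have : u - e = -(lam G μ - fun i => (v i : ℝ)) := by
      rw [hu, he]
      abel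
    rw [this, bf_neg_left, bf_neg_right, neg_neg]
  have h11 := hmin v
  rw [h10] at h11
  have h12 := h.cs u e
  have h13 : bf G (u - e) (u - e) = bf G u u - 2 * bf G u e + bf G e e := by
    rw [bf_sub_left, bf_sub_right, bf_sub_right, bf_comm h.symm e u]
    ring
  have h14 : bf G u e ^ 2 ≤ ε ^ 2 := by
    have a1 := h.nonneg u
    have a2 := h.nonneg e
    calc bf G u e ^ 2 ≤ bf G u u * bf G e e := h12
      _ ≤ 1 * bf G e e := mul_le_mul_of_nonneg_right (by linarith) a2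
      _ ≤ ε ^ 2 := by linarith
  have h15 : -bf G u e ≤ ε := by
    have := abs_le_of_sq_le_sq h14 hε0.le
    linarith [neg_abs_le (bf G u e)]
  have h16 : ε ^ 2 ≤ ε := by nlinarith
  rw [h13] at h11
  linarith

/-- a representative of minimal norm -/
theorem exists_min (h : PosSymm G) (μ : Fin 20 → ℤ) : ∃ v₀ : Fin 20 → ℤ, ∀ v : Fin 20 → ℤ,
    bd G (μ + G.mulVec v₀) (μ + G.mulVec v₀) ≤
      bd G (μ + G.mulVec v₀ - G.mulVec v) (μ + G.mulVec v₀ - G.mulVec v) := by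
  have hfin : {ρ : Fin 20 → ℤ | bd G ρ ρ ≤ bd G μ μ ∧ ∃ v, ρ = μ + G.mulVec v}.Finite :=
    (short_finite h (bd G μ μ)).subset fun ρ hρ => hρ.1
  obtain ⟨ρ, ⟨hρ1, v₀, hρ2⟩, hmin⟩ := Set.exists_min_image _ (fun ρ => bd G ρ ρ) hfin
    ⟨μ, le_rfl, 0, by rw [Matrix.mulVec_zero, add_zero]⟩
  refine ⟨v₀, fun v => ?_⟩
  rw [← hρ2]
  by_cases h1 : bd G (ρ - G.mulVec v) (ρ - G.mulVec v) ≤ bd G μ μ
  · refine hmin _ ⟨h1, v₀ - v, ?_⟩
    rw [hρ2, Matrix.mulVec_sub]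
    abel
  · push Not at h1
    linarith

/-- **the genus of a lattice with a reflective form** -/
theorem genus_of_tubeForm (hT1 : JobTheta1) (hT2 : JobTheta2) (hFF : JobFinFour) (hVV : JobVV)
    (hODE : JobODE) (hKD : JobKD) (hFJ : JobFJ) (hDIV : JobDIV) (hVD : JobVD) (hBC : JobBC)
    (hGen : JobGenus) (h : PosSymm G) (he : ∀ i, Even (G i i)) (hF : TubeForm G k F) :
    SameGenus G gramEED := by
  obtain ⟨φ, hφ⟩ := exists_FJD hFJ hKD h hF
  obtain ⟨C, m, hm, hC, hne, hmid, hne2⟩ := exists_second h hF hφ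
  have H : CM G k F φ C m := ⟨hF, hφ, hm, hC, hne, hmid, hne2⟩
  have hm1 := H.m_eq_one hT1 hT2 hFF hVV hBC hDIV hVD hKD h
  subst hm1
  obtain ⟨c, hJ, hc⟩ := H.exists_jacobi hBC hDIV h
  have hone : (((1 : ℕ) : ℤ) • G) = G := by simp
  have hJ' : JacobiZero G c := by rw [← hone]; exact hJ
  obtain ⟨hdet, R, hR, -, -⟩ := hFF G h
  obtain ⟨hfd, hfp, -, hinv, -⟩ := hT1 G c h hJ'
  have hHP : ∀ μ, HP 0 (fc c μ) := fun μ => ⟨hfd μ, fun t ht => hfp μ t ht⟩
  have hvv := vv_of_jacobi hT1 hT2 h hJ' hR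
  have hconc := hODE G R (vf G c) h he hR hvv
    (by
      intro μ
      obtain ⟨K, -, hK⟩ := vf_growth (hHP μ) (κ := -1)
        (fun n hn => ge_one hT1 hBC hKD h H hJ hc hn)
      refine ⟨K, fun τ hτ => (hK τ hτ).trans (le_of_eq ?_)⟩
      congr 2
      ring)
    (by
      intro μ hμ
      obtain ⟨v₀, hv₀⟩ := exists_min h μ
      have hμ' : ¬ ∃ v : Fin 20 → ℤ, μ + G.mulVec v₀ = G.mulVec v := by
        rintro ⟨v, hv⟩
        apply hμ
        refine ⟨v - v₀, ?_⟩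
        rw [Matrix.mulVec_sub, ← hv]
        abel
      obtain ⟨K, -, hK⟩ := vf_growth (hHP (μ + G.mulVec v₀)) (κ := -(1 / 2))
        (fun n hn => ge_half hT1 hBC hKD h H hJ hc hμ' hv₀ hn)
      refine ⟨K, fun τ hτ => ?_⟩
      have h1 := hK τ hτ
      rw [hinv μ v₀ τ (by linarith)] at h1
      refine h1.trans (le_of_eq ?_)
      congr 2
      ring)
    (by
      by_contra hcon
      push Not at hcon
      obtain ⟨τ, z, hτ, hcz⟩ := H.c_ne hc
      exact hcz (jacobi_zero_of_vf hT1 h hJ' hcon hτ z))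
  exact hGen G h he hconc.1 hconc.2

end

end Pool.Agent.Y813.RL
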