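import Pool.Agent.Y813.RL.Bnd

set_option autoImplicit false

/-!
# Generic rational points
-/

namespace Pool.Agent.Y813.RL

open Complex Set Finset

noncomputable section

theorem dt_add {R : Type*} [CommRing R] (μ : Fin 20 → ℤ) (x y : Fin 20 → R) :
    dt μ (x + y) = dt μ x + dt μ y := by
  simp [dt, mul_add, Finset.sum_add_distrib]

theorem dt_smul {R : Type*} [CommRing R] (μ : Fin 20 → ℤ) (c : R) (x : Fin 20 → R) :
    dt μ (c • x) = c * dt μ x := by
  simp only [dt, Pi.smul_apply, smul_eq_mul, Finset.mul_sum]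
  exact Finset.sum_congr rfl fun i _ => by ring

theorem dt_add_left {R : Type*} [CommRing R] (μ ν : Fin 20 → ℤ) (x : Fin 20 → R) :
    dt (μ + ν) x = dt μ x + dt ν x := by
  simp [dt, add_mul, Finset.sum_add_distrib]

theorem dt_smul_left {R : Type*} [CommRing R] (c : ℤ) (μ : Fin 20 → ℤ) (x : Fin 20 → R) :
    dt (c • μ) x = (c : R) * dt μ x := by
  simp only [dt, Pi.smul_apply, smul_eq_mul, Finset.mul_sum, Int.cast_mul]
  exact Finset.sum_congr rfl fun i _ => by ring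

theorem dt_single {R : Type*} [CommRing R] (μ : Fin 20 → ℤ) (i : Fin 20) (c : R) :
    dt μ (Pi.single i c) = (μ i : R) * c := by
  simp [dt, Pi.single_apply]

theorem dt_continuous (μ : Fin 20 → ℤ) : Continuous fun x : Fin 20 → ℝ => dt μ x := by
  unfold dt
  fun_prop

/-- the good set of a nonzero integral vector -/
def gs (ν : Fin 20 → ℤ) : Set (Fin 20 → ℝ) := {x | ∀ k : ℤ, dt ν x ≠ k}

theorem isOpen_gs (ν : Fin 20 → ℤ) : IsOpen (gs ν) := by
  have h1 : IsClosed (range (Int.cast : ℤ → ℝ)) := Int.isClosedEmbedding_coe_real.isClosed_range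
  have h2 : gs ν = (fun x : Fin 20 → ℝ => dt ν x) ⁻¹' (range (Int.cast : ℤ → ℝ))ᶜ := by
    ext x
    simp only [gs, Set.mem_ofPred_eq, Set.mem_preimage, Set.mem_compl_iff, Set.mem_range, not_exists]
    exact forall_congr' fun k => ne_comm
  rw [h2]
  exact h1.isOpen_compl.preimage (dt_continuous ν)

theorem dense_gs {ν : Fin 20 → ℤ} (hν : ν ≠ 0) : Dense (gs ν) := by
  obtain ⟨i, hi⟩ : ∃ i, ν i ≠ 0 := by
    by_contra hcon
    push Not at hcon
    exact hν (funext hcon)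
  intro x
  rw [Metric.mem_closure_iff]
  intro ε hε
  have hcount : (range fun k : ℤ => ((k : ℝ) - dt ν x) / ν i).Countable := countable_range _
  have hd := hcount.dense_compl ℝ
  obtain ⟨t, ht1, ht2⟩ := hd.exists_mem_open isOpen_Ioo (nonempty_Ioo.2 hε)
  refine ⟨x + Pi.single i t, ?_, ?_⟩
  · intro k hk
    apply ht1
    refine ⟨k, ?_⟩
    rw [dt_add, dt_single] at hk
    have : (ν i : ℝ) ≠ 0 := by exact_mod_cast hi
    simp only
    rw [← hk]
    field_simp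
    ring
  · rw [dist_eq_norm, sub_add_cancel_left, norm_neg, Pi.norm_single, Real.norm_eq_abs, abs_lt]
    constructor <;> linarith [ht2.1, ht2.2]

theorem exists_xr {O : Set (Fin 20 → ℝ)} (hO : IsOpen O) (hne : O.Nonempty) :
    ∃ (X : Fin 20 → ℤ) (N : ℕ), 0 < N ∧ xr X N ∈ O := by
  obtain ⟨x, hx⟩ := hne
  obtain ⟨δ, hδ, hball⟩ := Metric.isOpen_iff.1 hO x hx
  obtain ⟨N, hN⟩ := exists_nat_gt (1 / δ)
  have hN0 : (0 : ℝ) < N := lt_trans (by positivity) hN
  refine ⟨fun i => ⌊(N : ℝ) * x i⌋, N, by exact_mod_cast hN0, hball ?_⟩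
  rw [Metric.mem_ball, dist_pi_lt_iff hδ]
  intro i
  rw [Real.dist_eq, abs_lt]
  have h1 := Int.floor_le ((N : ℝ) * x i)
  have h2 := Int.lt_floor_add_one ((N : ℝ) * x i)
  have h3 : 1 / (N : ℝ) < δ := by
    rw [div_lt_iff₀ hN0]
    rw [div_lt_iff₀ hδ] at hN
    linarith
  have h4 : xr (fun i => ⌊(N : ℝ) * x i⌋) N i = (⌊(N : ℝ) * x i⌋ : ℝ) / N := rfl
  rw [h4]
  constructor
  · have : x i < (⌊(N : ℝ) * x i⌋ + 1 : ℝ) / N := by
      rw [lt_div_iff₀ hN0]
      linarith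
    rw [add_div] at this
    linarith
  · have : (⌊(N : ℝ) * x i⌋ : ℝ) / N ≤ x i := by
      rw [div_le_iff₀ hN0]
      linarith
    linarith

/-- **generic rational points exist in every open set** -/
theorem gen (Q : ℕ) {O : Set (Fin 20 → ℝ)} (hO : IsOpen O) (hne : O.Nonempty) :
    ∃ (X : Fin 20 → ℤ) (N : ℕ), 0 < N ∧ xr X N ∈ O ∧
      ∀ ν : Fin 20 → ℤ, ν ≠ 0 → (∀ i, |ν i| ≤ Q) → ∀ k : ℤ, dt ν (xr X N) ≠ k := by
  classical
  have hfin : {ν : Fin 20 → ℤ | ν ≠ 0 ∧ ∀ i, |ν i| ≤ (Q : ℤ)}.Finite := by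
    refine (Set.finite_Icc (fun _ : Fin 20 => -(Q : ℤ)) (fun _ => (Q : ℤ))).subset ?_
    rintro ν ⟨_, h⟩
    exact ⟨fun i => (abs_le.1 (h i)).1, fun i => (abs_le.1 (h i)).2⟩
  have hop : ∀ s : Finset (Fin 20 → ℤ), (∀ ν ∈ s, ν ≠ 0) →
      IsOpen (⋂ ν ∈ s, gs ν) ∧ Dense (⋂ ν ∈ s, gs ν) := by
    intro s
    induction s using Finset.induction_on with
    | empty => intro _; simp
    | insert a s ha ih =>
      intro h
      obtain ⟨h1, h2⟩ := ih fun ν hν => h ν (Finset.mem_insert_of_mem hν)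
      rw [Finset.set_biInter_insert]
      exact ⟨(isOpen_gs a).inter h1,
        (dense_gs (h a (Finset.mem_insert_self _ _))).inter_of_isOpen_left h2 (isOpen_gs a)⟩
  obtain ⟨h1, h2⟩ := hop hfin.toFinset (by
    intro ν hν
    rw [Set.Finite.mem_toFinset] at hν
    exact hν.1)
  obtain ⟨X, N, hN, hX⟩ := exists_xr (hO.inter h1) (h2.inter_open_nonempty O hO hne)
  refine ⟨X, N, hN, hX.1, fun ν hν hb k => ?_⟩
  have := Set.mem_iInter₂.1 hX.2 ν (by rw [Set.Finite.mem_toFinset]; exact ⟨hν, hb⟩)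
  exact this k

end

end Pool.Agent.Y813.RL
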