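import Pool.Agent.Y813.RL.Tube0

set_option autoImplicit false

/-!
# Koecher principle for forms on the tube domain
-/

namespace Pool.Agent.Y813.RL

open Complex Set Finset

noncomputable section

section kf

variable {R : Type*} [CommRing R] (G : Matrix (Fin 20) (Fin 20) ℤ)

theorem kf_add_left (X Y Z : R × (R × (Fin 20 → R))) :
    kf G (X + Y) Z = kf G X Z + kf G Y Z := by
  simp only [kf, Prod.fst_add, Prod.snd_add, bf_add_left]
  ring

theorem kf_add_right (X Y Z : R × (R × (Fin 20 → R))) :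
    kf G Z (X + Y) = kf G Z X + kf G Z Y := by
  simp only [kf, Prod.fst_add, Prod.snd_add, bf_add_right]
  ring

theorem kf_smul_left (c : R) (X Y : R × (R × (Fin 20 → R))) :
    kf G (c • X) Y = c * kf G X Y := by
  simp only [kf, Prod.smul_fst, Prod.smul_snd, bf_smul_left, smul_eq_mul]
  ring

theorem kf_smul_right (c : R) (X Y : R × (R × (Fin 20 → R))) :
    kf G Y (c • X) = c * kf G Y X := by
  simp only [kf, Prod.smul_fst, Prod.smul_snd, bf_smul_right, smul_eq_mul]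
  ring

variable {G} in
theorem kf_comm (h : G.IsSymm) (X Y : R × (R × (Fin 20 → R))) : kf G X Y = kf G Y X := by
  simp only [kf, bf_comm h X.2.2 Y.2.2]
  ring

end kf

variable {G : Matrix (Fin 20) (Fin 20) ℤ}

/-- the imaginary part -/
def imW (W : TP) : ℝ × (ℝ × (Fin 20 → ℝ)) := (W.1.im, (W.2.1.im, imv W.2.2))

/-- the real part -/
def reW (W : TP) : ℝ × (ℝ × (Fin 20 → ℝ)) := (W.1.re, (W.2.1.re, rev W.2.2))

/-- real vectors of `K` -/
def cR (e : ℤ × (ℤ × (Fin 20 → ℤ))) : ℝ × (ℝ × (Fin 20 → ℝ)) :=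
  ((e.1 : ℝ), ((e.2.1 : ℝ), fun i => (e.2.2 i : ℝ)))

theorem mem_Hd' {W : TP} : W ∈ Hd G ↔ 0 < W.2.1.im ∧ 0 < kf G (imW W) (imW W) := by
  unfold Hd UP bh kf imW
  simp only [Set.mem_ofPred_eq]
  refine and_congr_right fun hT => ?_
  rw [div_lt_iff₀ (by positivity)]
  constructor <;> intro h <;> linarith

theorem imW_add (X Y : TP) : imW (X + Y) = imW X + imW Y := by
  simp only [imW, Prod.fst_add, Prod.snd_add, Complex.add_im, Prod.mk_add_mk]
  rfl

theorem imW_smul_cK (t : ℂ) (e : ℤ × (ℤ × (Fin 20 → ℤ))) :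
    imW (t • cK e) = t.im • cR e := by
  simp only [imW, cK, cR, Prod.smul_mk, smul_eq_mul]
  refine Prod.ext ?_ (Prod.ext ?_ ?_)
  · simp [Complex.mul_im]
  · simp [Complex.mul_im]
  · funext i
    simp [imv, Complex.mul_im]

theorem kf_cK_im (e : ℤ × (ℤ × (Fin 20 → ℤ))) (W : TP) :
    (kf G (cK e) W).im = kf G (cR e) (imW W) := by
  simp only [kf, cK, cR, imW, Complex.sub_im, Complex.add_im, bf_im]
  have h1 : rev (fun i => ((e.2.2 i : ℤ) : ℂ)) = fun i => (e.2.2 i : ℝ) := by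
    funext i; simp [rev]
  have h2 : imv (fun i => ((e.2.2 i : ℤ) : ℂ)) = 0 := by
    funext i; simp [imv]
  rw [h1, h2, bf_zero_left]
  simp [Complex.mul_im]

theorem kf_cR (e u : ℤ × (ℤ × (Fin 20 → ℤ))) : kf G (cR e) (cR u) = ((kf G e u : ℤ) : ℝ) := by
  simp only [kf, cR, bf_intCast]
  push_cast
  ring

theorem kf_cK (e u : ℤ × (ℤ × (Fin 20 → ℤ))) : kf G (cK e) (cK u) = ((kf G e u : ℤ) : ℂ) := by
  simp only [kf, cK, bf_intCast]
  push_cast
  ring

/-- vectors of the closed cone -/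
def PosDir (G : Matrix (Fin 20) (Fin 20) ℤ) (e : ℝ × (ℝ × (Fin 20 → ℝ))) : Prop :=
  ∀ Y : ℝ × (ℝ × (Fin 20 → ℝ)), 0 < Y.2.1 → 0 < kf G Y Y → 0 < kf G e Y

theorem posDir_one : PosDir G (1, (0, 0)) := by
  intro Y hY _
  simp only [kf]
  rw [bf_zero_left]
  linarith

theorem posDir_of_pos (h : PosSymm G) {e : ℝ × (ℝ × (Fin 20 → ℝ))} (he : kf G e e = 0)
    (he2 : 0 < e.2.1) : PosDir G e := by
  intro Y hY hYY
  have h1 := h.nonneg (Y.2.1 • e.2.2 - e.2.1 • Y.2.2)
  rw [bf_sub_left, bf_sub_right, bf_sub_right, bf_smul_left, bf_smul_left, bf_smul_left,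
    bf_smul_left, bf_smul_right, bf_smul_right, bf_smul_right, bf_smul_right,
    bf_comm h.symm Y.2.2 e.2.2] at h1
  simp only [kf] at *
  have h2 : bf G e.2.2 e.2.2 = 2 * (e.1 * e.2.1) := by linarith
  have h3 : bf G Y.2.2 Y.2.2 < 2 * (Y.1 * Y.2.1) := by linarith
  have h4 : 0 < (2 * e.2.1 * Y.2.1) * (e.1 * Y.2.1 + e.2.1 * Y.1 - bf G e.2.2 Y.2.2) := by
    rw [h2] at h1
    nlinarith [mul_lt_mul_of_pos_left h3 (pow_pos he2 2)]
  exact (mul_pos_iff_of_pos_left (by positivity)).1 h4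

theorem cone_of_kf (h : PosSymm G) {e Y : ℝ × (ℝ × (Fin 20 → ℝ))} (he : PosDir G e)
    (h1 : 0 < kf G Y Y) (h2 : 0 < kf G e Y) : 0 < Y.2.1 := by
  by_contra hneg
  push Not at hneg
  have h3 : kf G Y Y ≤ 2 * (Y.1 * Y.2.1) := by
    simp only [kf]
    linarith [h.nonneg Y.2.2]
  have h4 : Y.2.1 ≠ 0 := by
    intro h0
    rw [h0] at h3
    linarith
  have h5 : 0 < (-Y).2.1 := by
    have : Y.2.1 < 0 := lt_of_le_of_ne hneg h4
    simpa using this
  have h6 : (-Y) = (-1 : ℝ) • Y := by simp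
  have h7 := he (-Y) h5 (by rw [h6, kf_smul_left, kf_smul_right]; linarith)
  rw [h6, kf_smul_right] at h7
  linarith

/-- reverse Cauchy-Schwarz -/
theorem rcs (h : PosSymm G) {X Y : ℝ × (ℝ × (Fin 20 → ℝ))} (hY : Y.2.1 ≠ 0)
    (hYY : 0 < kf G Y Y) : kf G X X * kf G Y Y ≤ kf G X Y ^ 2 := by
  set r := X.2.1 / Y.2.1 with hr
  obtain ⟨V, hV⟩ : ∃ V, V = X + (-r) • Y := ⟨_, rfl⟩
  have hV2 : V.2.1 = 0 := by
    simp [hV, hr]
    field_simp
    ring
  have hX : X = V + r • Y := by simp [hV]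
  have hVV : kf G V V = -bf G V.2.2 V.2.2 := by
    simp only [kf, hV2]
    ring
  have h1 := h.nonneg V.2.2
  have h2 : kf G X X = kf G V V + 2 * r * kf G V Y + r ^ 2 * kf G Y Y := by
    rw [hX, kf_add_left, kf_add_right, kf_add_right, kf_smul_left, kf_smul_left, kf_smul_right,
      kf_smul_right, kf_comm h.symm Y V]
    ring
  have h3 : kf G X Y = kf G V Y + r * kf G Y Y := by
    rw [hX, kf_add_left, kf_smul_left]
  rw [h2, h3, hVV]
  nlinarith [mul_nonneg h1 hYY.le, sq_nonneg (kf G V Y)]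

/-- **Koecher principle in one direction.** -/
theorem koecher_dir (hKD : JobKD) (h : PosSymm G) {k : ℤ} {F : TP → ℂ} (hF : TubeForm G k F)
    {e u : ℤ × (ℤ × (Fin 20 → ℤ))} (hee : kf G e e = 0) (heu : kf G e u = 0)
    (huu : kf G u u < 0) (hpos : PosDir G (cR e)) {W₀ : TP} (hW₀ : W₀ ∈ Hd G) {M : ℝ}
    (hM : ∀ x : ℝ, ‖F (W₀ + (x : ℂ) • cK e)‖ ≤ M) {t : ℂ} (ht : 0 ≤ t.im) :
    ‖F (W₀ + t • cK e)‖ ≤ M := by
  set θ : ℂ := kf G (cK e) W₀ with hθ
  set c : ℂ := kf G (cK u) W₀ with hc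
  set m : ℝ := -((kf G u u : ℤ) : ℝ) with hm
  set Y₀ := imW W₀ with hY₀
  have hW₀' := mem_Hd'.1 hW₀
  have hθim : θ.im = kf G (cR e) Y₀ := kf_cK_im e W₀
  have hcim : c.im = kf G (cR u) Y₀ := kf_cK_im u W₀
  have hθpos : 0 < θ.im := by
    rw [hθim]
    exact hpos _ hW₀'.1 hW₀'.2
  have hmpos : 0 < m := by
    have : ((kf G u u : ℤ) : ℝ) < 0 := by exact_mod_cast huu
    rw [hm]; linarith
  let b : ℝ → ℝ := fun v => (m * v ^ 2 - 2 * v * c.im - kf G Y₀ Y₀) / (2 * θ.im)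
  let Φ : ℂ × ℂ → ℂ := fun q => F (W₀ + q.1 • cK u + q.2 • cK e)
  have hueR : kf G (cR u) (cR e) = 0 := by
    rw [kf_comm h.symm, kf_cR, heu]; simp
  have heuR : kf G (cR e) (cR u) = 0 := by rw [kf_cR, heu]; simp
  have heeR : kf G (cR e) (cR e) = 0 := by rw [kf_cR, hee]; simp
  have huuR : kf G (cR u) (cR u) = -m := by rw [kf_cR, hm]; ring
  have hdom : ∀ ζ s : ℂ, b ζ.im < s.im → W₀ + ζ • cK u + s • cK e ∈ Hd G := by
    intro ζ s hs
    have him : imW (W₀ + ζ • cK u + s • cK e) = Y₀ + ζ.im • cR u + s.im • cR e := by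
      rw [imW_add, imW_add, imW_smul_cK, imW_smul_cK]
    have h1 : kf G (Y₀ + ζ.im • cR u + s.im • cR e) (Y₀ + ζ.im • cR u + s.im • cR e) =
        kf G Y₀ Y₀ + 2 * ζ.im * c.im - m * ζ.im ^ 2 + 2 * s.im * θ.im := by
      simp only [kf_add_left, kf_add_right, kf_smul_left, kf_smul_right, hueR, heuR, heeR, huuR]
      rw [kf_comm h.symm Y₀ (cR u), kf_comm h.symm Y₀ (cR e), ← hθim, ← hcim]
      ring
    have h2 : 0 < kf G (Y₀ + ζ.im • cR u + s.im • cR e) (Y₀ + ζ.im • cR u + s.im • cR e) := by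
      rw [h1]
      simp only [b] at hs
      rw [div_lt_iff₀ (by positivity)] at hs
      linarith
    have h3 : 0 < kf G (cR e) (Y₀ + ζ.im • cR u + s.im • cR e) := by
      rw [kf_add_right, kf_add_right, kf_smul_right, kf_smul_right, heuR, heeR, ← hθim]
      linarith
    rw [mem_Hd', him]
    refine ⟨?_, h2⟩
    have h4 := cone_of_kf h hpos h2 h3
    rw [← him] at h4
    exact h4
  have hkfe : ∀ ζ s : ℂ, kf G (cK e) (W₀ + ζ • cK u + s • cK e) = θ := by
    intro ζ s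
    rw [kf_add_right, kf_add_right, kf_smul_right, kf_smul_right, kf_cK, kf_cK, heu, hee]
    simp [hθ]
  have hkfu : ∀ ζ s : ℂ, kf G (cK u) (W₀ + ζ • cK u + s • cK e) = c - m * ζ := by
    intro ζ s
    rw [kf_add_right, kf_add_right, kf_smul_right, kf_smul_right, kf_cK, kf_cK,
      kf_comm h.symm u e, heu, hm]
    push_cast
    ring
  have hres := hKD θ c m b Φ hθpos hmpos (by fun_prop) (by
      simp only [b]
      have := hW₀'.2
      rw [div_neg_iff]
      right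
      constructor
      · simp only [ne_eq, OfNat.ofNat_ne_zero, not_false_eq_true, zero_pow, mul_zero, zero_mul,
          sub_zero, zero_sub, Left.neg_neg_iff]
        exact this
      · positivity) (by
      intro v
      simp only [b]
      field_simp
      ring) (by
      refine hF.holo.comp (t := Hd G) ?_ ?_
      · fun_prop
      · intro q hq
        exact hdom q.1 q.2 hq) (by
      intro ζ s hs
      simp only [Φ]
      have := hF.tr _ (hdom ζ s hs) u.1 u.2.1 u.2.2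
      rw [← this]
      congr 1
      simp only [cK]
      refine Prod.ext ?_ (Prod.ext ?_ ?_)
      · simp; ring
      · simp; ring
      · funext i
        simp; ring) (by
      intro ζ s hs
      simp only [Φ]
      have := hF.tr _ (hdom ζ s hs) e.1 e.2.1 e.2.2
      rw [← this]
      congr 1
      simp only [cK]
      refine Prod.ext ?_ (Prod.ext ?_ ?_)
      · simp; ring
      · simp; ring
      · funext i
        simp; ring) (by
      intro ζ s hs
      simp only [Φ]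
      have := hF.ei _ (hdom ζ s hs) e u hee heu
      rw [hkfe, hkfu] at this
      rw [← this]
      congr 1
      have hmC : ((kf G u u : ℤ) : ℂ) = -(m : ℂ) := by rw [hm]; push_cast; ring
      rw [hmC]
      module) M (by
      intro x
      simpa [Φ] using hM x) t ht
  simpa [Φ] using hres

end

end Pool.Agent.Y813.RL
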