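import Pool.Agent.Y813.RL.Slice

set_option autoImplicit false

/-!
# Vanishing of Fourier coefficients of the Jacobi form
-/

namespace Pool.Agent.Y813.RL

open Complex Set Finset Topology MeasureTheory Pool.Agent.Y683.RL

noncomputable section

variable {G : Matrix (Fin 20) (Fin 20) ℤ}

theorem avg_mul {g : ℝ → ℂ} (hg : ∀ x, g (x + 1) = g x) (hc : Continuous g) {N : ℕ} (hN : 0 < N) :
    ∫ x in (0 : ℝ)..1, g (N * x) = ∫ x in (0 : ℝ)..1, g x := by
  have hN' : (N : ℝ) ≠ 0 := by exact_mod_cast hN.ne'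
  have hp : Function.Periodic g 1 := hg
  rw [intervalIntegral.integral_comp_mul_left (fun x => g x) hN']
  have h1 := hp.intervalIntegral_add_zsmul_eq (N : ℤ) 0
    (fun a b => hc.intervalIntegrable a b)
  simp only [zero_add, mul_zero, mul_one, zsmul_eq_mul, Int.cast_natCast] at h1 ⊢
  rw [h1, Complex.real_smul]
  push_cast
  rw [← mul_assoc, inv_mul_cancel₀ (by exact_mod_cast hN'), one_mul]

/-- polynomial times a decaying exponential tends to zero -/
theorem decay {K a : ℝ} (ha : a < 0) {ε : ℝ} (hε : 0 < ε) :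
    ∃ T : ℝ, ∀ t : ℝ, T ≤ t → K * t * Real.exp (a * t) ≤ ε := by
  have h1 : Filter.Tendsto (fun t : ℝ => t ^ 1 * Real.exp (-t)) Filter.atTop (𝓝 0) :=
    Real.tendsto_pow_mul_exp_neg_atTop_nhds_zero 1
  have h2 : Filter.Tendsto (fun t : ℝ => (-a) * t) Filter.atTop Filter.atTop :=
    Filter.Tendsto.const_mul_atTop (by linarith) Filter.tendsto_id
  have h3 := (h1.comp h2).const_mul (K / (-a))
  rw [mul_zero] at h3
  obtain ⟨T, hT⟩ := Filter.eventually_atTop.1 (h3.eventually (gt_mem_nhds hε))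
  refine ⟨T, fun t ht => ?_⟩
  have h4 := (hT t ht).le
  simp only [Function.comp] at h4
  refine le_trans (le_of_eq ?_) h4
  have ha' : -a ≠ 0 := by linarith
  have e1 : -(-a * t) = a * t := by ring
  have e2 : K / -a * (-a * t) = K * t := by
    rw [← mul_assoc, div_mul_cancel₀ _ ha']
  rw [e1, pow_one, ← mul_assoc, e2]

variable {k : ℤ} {F : TP → ℂ} {φ : ℕ → ℂ × (Fin 20 → ℂ) → ℂ} {C m : ℕ}

theorem c_nat {A : Matrix (Fin 20) (Fin 20) ℤ} {c : ℂ → (Fin 20 → ℂ) → ℂ} (hJ : JacobiZero A c)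
    (n : ℕ) {τ : ℂ} (hτ : 0 < τ.im) (z : Fin 20 → ℂ) : c (τ + n) z = c τ z := by
  induction n with
  | zero => simp
  | succ n ih =>
    have := hJ.perτ (τ + n) z (by simpa using hτ)
    rw [← ih, ← this]
    congr 1
    push_cast
    ring

/-- **vanishing of Fourier coefficients** -/
theorem CM.coeff_zero (hT1 : JobTheta1) (hBC : JobBC) (hKD : JobKD) (h : PosSymm G)
    (H : CM G k F φ C m) {c : ℂ → (Fin 20 → ℂ) → ℂ} (hJ : JacobiZero ((m : ℤ) • G) c)
    (hc : ∀ τ z, 0 < τ.im → φ (C + m) (τ, z) = φ C (τ, z) * c τ z)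
    (X : Fin 20 → ℤ) {N : ℕ} (hN : 0 < N) (hx : Short G (xr X N))
    {w : ℝ} (hw : 0 < w) (hfree : ∀ y : Fin 20 → ℝ, ∃ T₀ : ℝ, ∀ τ ω : ℂ, T₀ ≤ τ.im →
      (w + bf G (xr X N) (xr X N) / 2) * τ.im < ω.im → F (ω, sl (xr X N) y τ) ≠ 0)
    {μ : Fin 20 → ℤ} {n : ℤ}
    (hn : (n : ℝ) + dt μ (xr X N) < -(m * (w + bf G (xr X N) (xr X N) / 2))) :
    fco 0 (fc c μ) n = 0 := by
  classical
  set x := xr X N with hxdef
  have hNR : (0 : ℝ) < N := by exact_mod_cast hN
  have hN1 : (1 : ℝ) ≤ N := by exact_mod_cast hN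
  have hNC : (N : ℂ) ≠ 0 := by exact_mod_cast hN.ne'
  have hpi := Real.pi_pos
  obtain ⟨hfd, hfp, hshift, -, -⟩ := hT1 _ c (posSymm_smul h H.hm) hJ
  have hHPμ : HP 0 (fc c μ) := ⟨hfd μ, fun t ht => hfp μ t ht⟩
  have him : ∀ t : ℂ, ((N : ℂ) * t).im = N * t.im := by
    intro t
    rw [Complex.mul_im]; simp
  set κ : ℝ := (n : ℝ) + dt μ x with hκ
  have hκN : ∃ j : ℤ, κ * N = j := by
    refine ⟨n * N + dt μ X, ?_⟩
    rw [hκ, add_mul]
    push_cast
    congr 1
    simp only [dt, hxdef, xr]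
    push_cast
    rw [Finset.sum_mul]
    refine Finset.sum_congr rfl fun i _ => ?_
    field_simp
  obtain ⟨j, hj⟩ := hκN
  -- the line functions
  have hcd : DifferentiableOn ℂ (fun p : ℂ × (Fin 20 → ℂ) => c p.1 p.2) UP := hJ.holo
  set f : (Fin 20 → ℝ) → ℂ → ℂ := fun y t => c (N * t) (sl x y (N * t)).2 *
    ee (-((κ : ℂ) * (N * t))) with hf
  have hHP : ∀ y, HP 0 (f y) := by
    intro y
    constructor
    · refine DifferentiableOn.mul ?_ ?_
      · refine hcd.comp (t := UP) (f := fun t : ℂ => sl x y (N * t)) ?_ ?_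
        · exact ((sl_differentiable x y).comp (by fun_prop : Differentiable ℂ fun t : ℂ =>
            (N : ℂ) * t)).differentiableOn
        · intro t ht
          have ht' : 0 < t.im := ht
          refine sl_mem x y ?_
          rw [him]
          positivity
      · unfold ee
        fun_prop
    · intro t ht
      have h1 : 0 < ((N : ℂ) * t).im := by rw [him]; positivity
      simp only [hf]
      rw [mul_add, mul_one]
      congr 1
      · have h2 := congrArg (fun q => q.2) (sl_period (X := X) hN y (N * t))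
        simp only at h2
        rw [h2, hJ.perz _ _ _ (by
          simp only [Complex.add_im, Complex.natCast_im, add_zero]; exact h1)]
        exact c_nat hJ N h1 _
      · have h3 : -((κ : ℂ) * (N * t + N)) = -((κ : ℂ) * (N * t)) + ((-j : ℤ) : ℂ) := by
          have : (κ : ℂ) * N = (j : ℂ) := by exact_mod_cast hj
          push_cast
          rw [← this]
          ring
        rw [h3, ee_add, ee_int, mul_one]
  have hzero : ∀ y, ∫ u in (0 : ℝ)..1, f y ((u : ℂ) + Complex.I) = 0 := by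
    intro y
    obtain ⟨T₀, hT₀⟩ := hfree y
    obtain ⟨K, T₁, hK0, hT1', hb⟩ := H.c_bound hBC hKD h hc X hN hx y hw hT₀
    refine HP_line_zero (hHP y) ?_ (by simp)
    intro ε hε
    have ha : 2 * Real.pi * (m * (w + bf G x x / 2) + κ) < 0 := by
      have : m * (w + bf G x x / 2) + κ < 0 := by linarith
      nlinarith
    obtain ⟨T, hT⟩ := decay (K := K) ha hε
    refine ⟨max T (max T₁ 1), fun t ht => ?_⟩
    have h1 : T ≤ t.im := (le_max_left _ _).trans ht
    have h2 : T₁ ≤ t.im := (le_max_left _ _).trans ((le_max_right _ _).trans ht)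
    have h3 : 1 ≤ t.im := (le_max_right _ _).trans ((le_max_right _ _).trans ht)
    have h4 : t.im ≤ ((N : ℂ) * t).im := by rw [him]; nlinarith
    have h5 := hb (N * t) (h2.trans h4)
    have h6 := hT ((N : ℂ) * t).im (h1.trans h4)
    simp only [hf]
    rw [norm_mul, norm_ee]
    have e1 : (-((κ : ℂ) * (N * t))).im = -(κ * ((N : ℂ) * t).im) := by
      rw [Complex.neg_im, Complex.im_ofReal_mul]
    rw [e1]
    calc ‖c (N * t) (sl x y (N * t)).2‖ * Real.exp (-(2 * Real.pi * -(κ * ((N : ℂ) * t).im))) ≤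
        (K * ((N : ℂ) * t).im *
          Real.exp (2 * Real.pi * m * (w + bf G x x / 2) * ((N : ℂ) * t).im)) *
          Real.exp (-(2 * Real.pi * -(κ * ((N : ℂ) * t).im))) :=
          mul_le_mul_of_nonneg_right h5 (Real.exp_pos _).le
      _ = K * ((N : ℂ) * t).im * Real.exp (2 * Real.pi * (m * (w + bf G x x / 2) + κ) *
          ((N : ℂ) * t).im) := by
          rw [mul_assoc (K * ((N : ℂ) * t).im), ← Real.exp_add]
          congr 2
          ring
      _ ≤ ε := h6
  -- the coefficient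
  rw [hHPμ.fco_eq n (w := (N : ℂ) * Complex.I) (by rw [him]; simpa using hN)]
  have hper := hHPμ.mul_ee n
  rw [← avg_mul (g := fun u : ℝ => fc c μ ((u : ℂ) + (N : ℂ) * Complex.I) *
    ee (-(n * ((u : ℂ) + (N : ℂ) * Complex.I)))) (by
      intro u
      have := hper.per ((u : ℂ) + (N : ℂ) * Complex.I) (by
        rw [Complex.add_im, him]; simpa using hN)
      rw [← this]
      have e : ((u + 1 : ℝ) : ℂ) + (N : ℂ) * Complex.I = (u : ℂ) + (N : ℂ) * Complex.I + 1 := by
        push_cast; ring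
      rw [e]) (hper.cont_line (by rw [him]; simpa using hN)) hN]
  have hI : ∀ u : ℝ, fc c μ (((N * u : ℝ) : ℂ) + (N : ℂ) * Complex.I) *
      ee (-(n * (((N * u : ℝ) : ℂ) + (N : ℂ) * Complex.I))) =
      ∫ y in Set.Icc (0 : Fin 20 → ℝ) 1, f y ((u : ℂ) + Complex.I) * ee (-(dt μ y : ℝ)) := by
    intro u
    have e : ((N * u : ℝ) : ℂ) + (N : ℂ) * Complex.I = (N : ℂ) * ((u : ℂ) + Complex.I) := by
      push_cast; ring
    rw [e]
    set τ := (N : ℂ) * ((u : ℂ) + Complex.I) with hτ
    have hτ0 : 0 < τ.im := by rw [hτ, him]; simpa using hN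
    rw [hshift μ τ (fun i => τ * (x i : ℂ)) hτ0, ← integral_mul_const]
    congr 1
    funext y
    simp only [hf]
    rw [← hτ]
    have e2 : (fun i => τ * (x i : ℂ) + (y i : ℂ)) = (sl x y τ).2 := rfl
    rw [e2, mul_assoc, mul_assoc, ← ee_add, ← ee_add, dt_sl]
    congr 2
    rw [hκ]
    push_cast
    ring
  rw [intervalIntegral.integral_congr (g := fun u : ℝ =>
    ∫ y in Set.Icc (0 : Fin 20 → ℝ) 1, f y ((u : ℂ) + Complex.I) * ee (-(dt μ y : ℝ)))
    (fun u _ => hI u)]
  rw [intervalIntegral.integral_of_le zero_le_one]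
  rw [integral_integral_swap]
  · have : ∀ y : Fin 20 → ℝ, ∫ u in Set.Ioc (0 : ℝ) 1, f y ((u : ℂ) + Complex.I) *
        ee (-(dt μ y : ℝ)) = 0 := by
      intro y
      rw [integral_mul_const, ← intervalIntegral.integral_of_le zero_le_one, hzero, zero_mul]
    simp only [this, integral_zero]
  · -- integrability
    rw [Function.uncurry_def, Measure.prod_restrict]
    have hcont : ContinuousOn (fun q : ℝ × (Fin 20 → ℝ) => f q.2 ((q.1 : ℂ) + Complex.I) *
        ee (-(dt μ q.2 : ℝ))) (Set.univ) := by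
      refine ContinuousOn.mul (ContinuousOn.mul ?_ ?_) ?_
      · refine hcd.continuousOn.comp (t := UP)
          (f := fun q : ℝ × (Fin 20 → ℝ) => sl x q.2 ((N : ℂ) * ((q.1 : ℂ) + Complex.I))) ?_ ?_
        · refine Continuous.continuousOn ?_
          refine (sl_continuous x).comp (?_ : Continuous fun q : ℝ × (Fin 20 → ℝ) =>
            ((N : ℂ) * ((q.1 : ℂ) + Complex.I), q.2))
          fun_prop
        · intro q _
          refine sl_mem x q.2 ?_
          rw [him]
          simpa using hN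
      · refine Continuous.continuousOn ?_
        unfold ee
        fun_prop
      · refine Continuous.continuousOn ?_
        have h1 : Continuous fun q : ℝ × (Fin 20 → ℝ) => dt μ q.2 :=
          (dt_continuous μ).comp continuous_snd
        unfold ee
        fun_prop
    have hint : IntegrableOn (fun q : ℝ × (Fin 20 → ℝ) => f q.2 ((q.1 : ℂ) + Complex.I) *
        ee (-(dt μ q.2 : ℝ))) (Set.Icc 0 1 ×ˢ Set.Icc 0 1) (volume.prod volume) :=
      (hcont.mono (Set.subset_univ _)).integrableOn_compact (isCompact_Icc.prod isCompact_Icc)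
    exact hint.mono_set (Set.prod_mono Set.Ioc_subset_Icc_self le_rfl)

end

end Pool.Agent.Y813.RL
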