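import Pool.Agent.Y813.RL.Tube5

set_option autoImplicit false

/-!
# From reflective lattices to reflective forms on the tube domain
-/

namespace Pool.Agent.Y813.RL

open Complex Set Finset Pool.Agent.Y813.Refl

noncomputable section

variable {G : Matrix (Fin 20) (Fin 20) ℤ}

/-- the transformation law in tube coordinates -/
theorem trans_law (h : PosSymm G) {k : ℤ} {χ : discKernel (gramM G) (coneM G) →* ℂˣ}
    {F₀ : (Fin 4 ⊕ Fin 20 → ℂ) → ℂ} (hF : IsModularForm (gramM G) (coneM G) k χ F₀) {n : ℕ}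
    (hn : ∀ g, χ g ^ n = 1) {g : Matrix.GeneralLinearGroup (Fin 4 ⊕ Fin 20) ℤ}
    (hg : g ∈ discKernel (gramM G) (coneM G)) {W W' : TP} (hW : W ∈ Hd G) {j : ℂ} (hj : j ≠ 0)
    (hZ : act g.val (ZW G W) = fun i => j * ZW G W' i) :
    F₀ (ZW G W') ^ n = j ^ (k * n) * F₀ (ZW G W) ^ n := by
  have hc := ZW_mem_cone h hW
  have h1 := hF.equi ⟨g, hg⟩ _ hc
  have h2 : act g.val (ZW G W) ∈ coneM G := (hg.2.1 _).2 hc
  have h3 := hF.homog _ h2 j⁻¹ (inv_ne_zero hj)
  have h4 : (fun i => j⁻¹ * act g.val (ZW G W) i) = ZW G W' := by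
    rw [hZ]
    funext i
    field_simp
  rw [h4] at h3
  have h1' : F₀ (act g.val (ZW G W)) = (χ ⟨g, hg⟩ : ℂ) * F₀ (ZW G W) := h1
  rw [h3, h1', mul_pow, mul_pow]
  have h5 : ((χ ⟨g, hg⟩ : ℂˣ) : ℂ) ^ n = 1 := by
    rw [← Units.val_pow_eq_pow_val, hn]
    simp
  rw [h5, one_mul]
  congr 1
  rw [inv_zpow', neg_neg, ← zpow_natCast, ← zpow_mul]

theorem bf_div (a : Fin 20 → ℂ) (j : ℂ) :
    bf G (fun i => a i / j) (fun i => a i / j) = bf G a a / j ^ 2 := by
  have : (fun i => a i / j) = j⁻¹ • a := by funext i; simp [div_eq_inv_mul]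
  rw [this, bf_smul_left, bf_smul_right]
  ring

theorem eq_smul_ZW {a b c d : ℂ} {z : Fin 20 → ℂ} (ha : a ≠ 0)
    (h : 2 * (a * b + c * d) = bf G z z) :
    mk a b c d z = fun i => a * ZW G (c / a, (d / a, fun i => z i / a)) i := by
  unfold ZW
  rw [smul_mk]
  simp only
  rw [bf_div, ← h]
  congr 1
  · ring
  · field_simp
    ring
  · field_simp
  · field_simp
  · funext i
    field_simp

theorem quadric_eq {a b c d : ℂ} {z : Fin 20 → ℂ} (h : mk a b c d z ∈ quadric (gramM G)) :
    2 * (a * b + c * d) = bf G z z := ((quadric_mk G a b c d z).1 h).1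

theorem disc_quadric {g : Matrix.GeneralLinearGroup (Fin 4 ⊕ Fin 20) ℤ}
    (h : PosSymm G) (hg : g ∈ discKernel (gramM G) (coneM G)) {W : TP} (hW : W ∈ Hd G) :
    act g.val (ZW G W) ∈ quadric (gramM G) := by
  have h2 : act g.val (ZW G W) ∈ coneM G := (hg.2.1 _).2 (ZW_mem_cone h hW)
  rw [coneM_eq] at h2
  exact connectedComponentIn_subset _ _ h2

theorem finite_image_const {X : Type*} [TopologicalSpace X] {s : Set X} (hs : IsPreconnected s)
    {f : X → ℂ} (hf : ContinuousOn f s) {n : ℕ} (hn : 0 < n) {c : ℂ}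
    (h : ∀ x ∈ s, f x ^ n = c) : ∀ x ∈ s, ∀ y ∈ s, f x = f y := by
  intro x hx y hy
  have h1 : IsPreconnected (f '' s) := hs.image _ hf
  have hfin : (f '' s).Finite := by
    have hp : (Polynomial.X ^ n - Polynomial.C c : Polynomial ℂ) ≠ 0 :=
      Polynomial.X_pow_sub_C_ne_zero hn c
    refine (Polynomial.X ^ n - Polynomial.C c : Polynomial ℂ).roots.toFinset.finite_toSet.subset ?_
    rintro _ ⟨z, hz, rfl⟩
    simp only [Finset.mem_coe, Multiset.mem_toFinset]
    rw [Polynomial.mem_roots hp]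
    simp [h z hz]
  by_contra hne
  have hnt : (f '' s).Nontrivial := ⟨f x, ⟨x, hx, rfl⟩, f y, ⟨y, hy, rfl⟩, hne⟩
  exact h1.infinite_of_nontrivial hnt hfin

theorem exists_tubeForm (h : PosSymm G) (he : ∀ i, Even (G i i))
    (hR : IsReflectiveLattice (gramM G) (coneM G)) : ∃ (k : ℤ) (F : TP → ℂ), TubeForm G k F := by
  obtain ⟨k, χ, F₀, hF, hnc, hz⟩ := hR
  obtain ⟨n, hn0, hn⟩ := hF.finite_order
  have hMs := gramM_symm h.symm
  refine ⟨k * n, fun W => F₀ (ZW G W) ^ n, ?_, ?_, ?_, ?_, ?_, ?_, ?_⟩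
  · -- holomorphy
    have hd : Differentiable ℂ (ZW G) := by
      rw [differentiable_pi]
      have h1 : Differentiable ℂ fun W : TP => bf G W.2.2 W.2.2 := by
        rw [← differentiableOn_univ]
        exact bf_diffC G (by fun_prop) (by fun_prop)
      rintro (i | i)
      · match i with
        | 0 => exact differentiable_const _
        | 1 =>
          have h2 : Differentiable ℂ fun W : TP => bf G W.2.2 W.2.2 / 2 := by
            simp only [div_eq_mul_inv]
            exact h1.mul_const _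
          exact h2.sub (by fun_prop : Differentiable ℂ fun W : TP => W.1 * W.2.1)
        | 2 => exact (by fun_prop : Differentiable ℂ fun W : TP => W.1)
        | 3 => exact (by fun_prop : Differentiable ℂ fun W : TP => W.2.1)
      · exact (by fun_prop : Differentiable ℂ fun W : TP => W.2.2 i)
    exact (hF.holo.comp hd.differentiableOn fun W hW => ZW_mem_cone h hW).pow n
  · -- translations
    intro W hW a b v
    obtain ⟨N, hN⟩ := even_bf h.symm he v
    have hee : bf (gramM G) (mk 0 1 0 0 0 : Fin 4 ⊕ Fin 20 → ℤ) (mk 0 1 0 0 0) = 0 := by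
      rw [bf_mk, bf_zero_left]; ring
    have hea : bf (gramM G) (mk 0 1 0 0 0 : Fin 4 ⊕ Fin 20 → ℤ) (mk 0 0 a b v) = 0 := by
      rw [bf_mk, bf_zero_left]; ring
    have haa : bf (gramM G) (mk 0 0 a b v : Fin 4 ⊕ Fin 20 → ℤ) (mk 0 0 a b v) =
        2 * (a * b - N) := by
      rw [bf_mk, hN]; ring
    have hg := tvG_mem hMs (base_mem G) hee hea haa
    rw [← coneM_eq] at hg
    have hact : act (tvG hMs hee hea haa).val (ZW G W) =
        mk 1 (bf G (fun i => W.2.2 i + v i) (fun i => W.2.2 i + v i) / 2 -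
          (W.1 + a) * (W.2.1 + b)) (W.1 + a) (W.2.1 + b) (fun i => W.2.2 i + v i) := by
      show act (tvM _ _ _ _) (ZW G W) = _
      rw [act_tvM hMs]
      have c1 : (fun i => ((mk 0 1 0 0 0 : Fin 4 ⊕ Fin 20 → ℤ) i : ℂ)) = mk 0 1 0 0 0 := by
        funext i
        rcases i with i | i
        · match i with
          | 0 => simp [mk]
          | 1 => simp [mk]
          | 2 => simp [mk]
          | 3 => simp [mk]
        · simp [mk]
      have c2 : (fun i => ((mk 0 0 a b v : Fin 4 ⊕ Fin 20 → ℤ) i : ℂ)) =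
          mk 0 0 (a : ℂ) (b : ℂ) (fun i => (v i : ℂ)) := by
        funext i
        rcases i with i | i
        · match i with
          | 0 => simp [mk]
          | 1 => simp [mk]
          | 2 => simp [mk]
          | 3 => simp [mk]
        · simp [mk]
      rw [c1, c2]
      have hbz : bf G (0 : Fin 20 → ℂ) W.2.2 = 0 := bf_zero_left _ _
      have e1 : bf (gramM G) (mk 0 1 0 0 0) (ZW G W) = 1 := by
        rw [ZW, bf_mk, hbz]; ring
      have e2 : bf (gramM G) (mk 0 0 (a : ℂ) (b : ℂ) (fun i => (v i : ℂ))) (ZW G W) =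
          a * W.2.1 + b * W.1 - bf G (fun i => (v i : ℂ)) W.2.2 := by
        rw [ZW, bf_mk]; ring
      have e3 : bf G (fun i => W.2.2 i + (v i : ℂ)) (fun i => W.2.2 i + v i) =
          bf G W.2.2 W.2.2 + 2 * bf G (fun i => (v i : ℂ)) W.2.2 + 2 * N := by
        have : (fun i => W.2.2 i + (v i : ℂ)) = W.2.2 + fun i => (v i : ℂ) := rfl
        rw [this, bf_add_left, bf_add_right, bf_add_right, bf_intCast, hN,
          bf_comm h.symm W.2.2 (fun i => (v i : ℂ))]
        push_cast
        ring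
      funext i
      simp only [tv, Pi.add_apply, Pi.sub_apply, Pi.smul_apply, smul_eq_mul, e1, e2, e3]
      rcases i with i | i
      · match i with
        | 0 => simp [mk, ZW]
        | 1 => simp [mk, ZW]; ring
        | 2 => simp [mk, ZW]
        | 3 => simp [mk, ZW]
      · simp [mk, ZW]
    have := trans_law h hF hn hg (W' := (W.1 + a, (W.2.1 + b, fun i => W.2.2 i + v i))) hW
      (j := 1) one_ne_zero (by rw [hact]; funext i; rw [one_mul]; rfl)
    simpa using this
  · -- transvections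
    intro W hW e u hee heu
    obtain ⟨N, hN⟩ : ∃ N : ℤ, kf G u u = 2 * N := by
      obtain ⟨N, hN⟩ := even_bf h.symm he u.2.2
      exact ⟨u.1 * u.2.1 - N, by unfold kf; rw [hN]; ring⟩
    have hee' : bf (gramM G) (mk 0 0 e.1 e.2.1 e.2.2 : Fin 4 ⊕ Fin 20 → ℤ)
        (mk 0 0 e.1 e.2.1 e.2.2) = 0 := by
      rw [bf_mk]; unfold kf at hee; linarith
    have hea' : bf (gramM G) (mk 0 0 e.1 e.2.1 e.2.2 : Fin 4 ⊕ Fin 20 → ℤ)
        (mk 0 0 u.1 u.2.1 u.2.2) = 0 := by
      rw [bf_mk]; unfold kf at heu; linarith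
    have haa' : bf (gramM G) (mk 0 0 u.1 u.2.1 u.2.2 : Fin 4 ⊕ Fin 20 → ℤ)
        (mk 0 0 u.1 u.2.1 u.2.2) = 2 * N := by
      rw [bf_mk]; unfold kf at hN; linarith
    have hg := tvG_mem hMs (base_mem G) hee' hea' haa'
    rw [← coneM_eq] at hg
    have c2 : ∀ u : ℤ × (ℤ × (Fin 20 → ℤ)),
        (fun i => ((mk 0 0 u.1 u.2.1 u.2.2 : Fin 4 ⊕ Fin 20 → ℤ) i : ℂ)) =
        mk 0 0 (u.1 : ℂ) (u.2.1 : ℂ) (fun i => (u.2.2 i : ℂ)) := by
      intro u
      funext i
      rcases i with i | i
      · match i with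
        | 0 => simp [mk]
        | 1 => simp [mk]
        | 2 => simp [mk]
        | 3 => simp [mk]
      · simp [mk]
    have e2 : ∀ u : ℤ × (ℤ × (Fin 20 → ℤ)),
        bf (gramM G) (mk 0 0 (u.1 : ℂ) (u.2.1 : ℂ) (fun i => (u.2.2 i : ℂ))) (ZW G W) =
        kf G (cK u) W := by
      intro u
      rw [ZW, bf_mk]
      unfold kf cK
      ring
    set W' : TP := W + kf G (cK e) W • cK u -
      (kf G (cK u) W + ((kf G u u : ℤ) : ℂ) / 2 * kf G (cK e) W) • cK e with hW'
    obtain ⟨b', hact⟩ : ∃ b', act (tvG hMs hee' hea' haa').val (ZW G W) =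
        mk 1 b' W'.1 W'.2.1 W'.2.2 := by
      refine ⟨act (tvM (gramM G) (mk 0 0 e.1 e.2.1 e.2.2) (mk 0 0 u.1 u.2.1 u.2.2) N) (ZW G W)
        (.inl 1), ?_⟩
      show act (tvM _ _ _ _) (ZW G W) = _
      rw [act_tvM hMs, c2, c2]
      funext i
      have hN2 : ((kf G u u : ℤ) : ℂ) / 2 = (N : ℂ) := by rw [hN]; push_cast; ring
      rcases i with i | i
      · match i with
        | 0 =>
          simp only [tv, Pi.add_apply, Pi.sub_apply, Pi.smul_apply, smul_eq_mul, e2]
          simp [mk, ZW]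
        | 1 => rfl
        | 2 =>
          simp only [tv, Pi.add_apply, Pi.sub_apply, Pi.smul_apply, smul_eq_mul, e2]
          rw [hW', hN2]
          simp [mk, ZW, cK]
          ring
        | 3 =>
          simp only [tv, Pi.add_apply, Pi.sub_apply, Pi.smul_apply, smul_eq_mul, e2]
          rw [hW', hN2]
          simp [mk, ZW, cK]
          ring
      · simp only [tv, Pi.add_apply, Pi.sub_apply, Pi.smul_apply, smul_eq_mul, e2]
        rw [hW', hN2]
        simp [mk, ZW, cK]
        ring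
    have hq := disc_quadric h hg hW
    rw [hact] at hq
    have := trans_law h hF hn hg (W' := W') hW (j := 1) one_ne_zero
      (by rw [hact, eq_ZW G hq]; funext i; rw [one_mul])
    simpa using this
  · -- S
    intro W hW
    have hτ : W.2.1 ≠ 0 := by
      intro h0
      have h1 : 0 < W.2.1.im := hW.1
      rw [h0] at h1
      simp at h1
    have hact : act (blkG PS_mul PS_mul').val (ZW G W) =
        mk W.2.1 W.1 (-(bf G W.2.2 W.2.2 / 2 - W.1 * W.2.1)) (-1) W.2.2 := by
      show act (blk PS) (ZW G W) = _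
      rw [ZW, act_PS]
    have hq := disc_quadric h PS_mem hW
    rw [hact] at hq
    have := trans_law h hF hn PS_mem
      (W' := (W.1 - bf G W.2.2 W.2.2 / (2 * W.2.1), (-1 / W.2.1, fun i => W.2.2 i / W.2.1))) hW
      (j := W.2.1) hτ (by
        rw [hact, eq_smul_ZW hτ (quadric_eq hq)]
        funext i
        congr 3
        field_simp
        ring)
    exact this
  · -- swap
    intro W hW
    have hact : act (blkG PW_mul PW_mul).val (ZW G W) =
        mk 1 (bf G W.2.2 W.2.2 / 2 - W.1 * W.2.1) W.2.1 W.1 W.2.2 := by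
      show act (blk PW) (ZW G W) = _
      rw [ZW, act_PW]
    have := trans_law h hF hn PW_mem (W' := (W.2.1, (W.1, W.2.2))) hW (j := 1) one_ne_zero (by
        rw [hact]
        funext i
        rw [one_mul, ZW]
        simp only
        congr 2
        ring)
    simpa using this
  · -- zeros
    intro W hW hFW
    have h0 : F₀ (ZW G W) = 0 := by
      exact pow_eq_zero_iff (by omega) |>.1 hFW
    obtain ⟨v, hv, hv0⟩ := hz _ (ZW_mem_cone h hW) h0
    exact wall_of_reflective h he hv hv0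
  · -- nonconstant
    rintro ⟨c, hc⟩
    have hker : c = 0 ∨ k = 0 := by
      by_contra hcon
      push Not at hcon
      obtain ⟨hc0, hk0⟩ := hcon
      let W : TP := (Complex.I, (2 * Complex.I, 0))
      have hW : W ∈ Hd G := by
        rw [mem_Hd]
        have : imv W.2.2 = 0 := by funext i; simp [imv, W]
        rw [this, bf_zero_left]
        simp [W]
      have hcone := ZW_mem_cone h hW
      have h2 : act (blkG PS_mul PS_mul').val (ZW G W) ∈ coneM G := (PS_mem.2.1 _).2 hcone
      obtain ⟨h3, W'', hW'', h4⟩ := cone_param h h2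
      have hact : act (blkG PS_mul PS_mul').val (ZW G W) =
          mk W.2.1 W.1 (-(bf G W.2.2 W.2.2 / 2 - W.1 * W.2.1)) (-1) W.2.2 := by
        show act (blk PS) (ZW G W) = _
        rw [ZW, act_PS]
      have h5 : act (blkG PS_mul PS_mul').val (ZW G W) (.inl 0) = 2 * Complex.I := by
        rw [hact]; rfl
      rw [h5] at h3 h4
      have h6 := trans_law h hF hn PS_mem hW h3 h4
      have h7 : F₀ (ZW G W'') ^ n = c := hc _ hW''
      have h8 : F₀ (ZW G W) ^ n = c := hc _ hW
      rw [h7, h8] at h6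
      have h9 : (2 * Complex.I) ^ (k * n) = 1 := by
        have : (1 - (2 * Complex.I) ^ (k * n)) * c = 0 := by linear_combination h6
        rcases mul_eq_zero.1 this with h | h
        · linear_combination -h
        · exact absurd h hc0
      have h10 : ‖(2 * Complex.I : ℂ)‖ ^ (k * n) = 1 := by
        rw [← norm_zpow, h9, norm_one]
      have h11 : ‖(2 * Complex.I : ℂ)‖ = 2 := by simp
      rw [h11] at h10
      have h12 := (zpow_eq_one_iff_right₀ (by norm_num : (0 : ℝ) ≤ 2) (by norm_num : (2 : ℝ) ≠ 1)).1 h10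
      rcases mul_eq_zero.1 h12 with h13 | h13
      · exact hk0 h13
      · omega
    have hall : ∀ Z ∈ coneM G, F₀ Z ^ n = c := by
      intro Z hZ
      obtain ⟨h3, W, hW, h4⟩ := cone_param h hZ
      have h5 := hF.homog _ (ZW_mem_cone h hW) _ h3
      rw [← h4] at h5
      have h7 : F₀ (ZW G W) ^ n = c := hc _ hW
      rw [h5, mul_pow, h7]
      rcases hker with h8 | h8
      · rw [h8, mul_zero]
      · rw [h8]; simp
    apply hnc
    have hpre : IsPreconnected (coneM G) := by
      rw [coneM_eq]; exact isPreconnected_connectedComponentIn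
    have := finite_image_const hpre hF.holo.continuousOn hn0 hall
    exact ⟨F₀ (ZW G W0), fun Z hZ => this Z hZ _ (ZW_mem_cone h W0_mem)⟩

end

end Pool.Agent.Y813.RL
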