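import Pool.Agent.Y813.RL.Fin
import Pool.Agent.Y813.RL.Tube6
import Pool.Agent.Y683.RL.Theta2
import Pool.Agent.Y683.RL.Vv
import Pool.Agent.Y683.RL.Fj
import Pool.Agent.Y155.RL.DIV
import Pool.Agent.Y155.RL.VD
import Pool.Agent.Y852.RL.ODE
import Pool.Agent.Y359.RL.Genus

set_option autoImplicit false

/-!
# Assembly
-/

namespace Pool.Agent.Y813.RL

open Complex Set Finset

theorem genus_of_reflective {G : Matrix (Fin 20) (Fin 20) ℤ} (h : PosSymm G)
    (he : ∀ i, Even (G i i)) (hR : Refl.IsReflectiveLattice (Refl.gramM G) (Refl.coneM G)) :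
    Refl.SameGenus G Refl.gramEED := by
  obtain ⟨k, F, hF⟩ := exists_tubeForm h he hR
  exact genus_of_tubeForm Y683.RL.jobTheta1 Y683.RL.jobTheta2 Y155.RL.finFour Y683.RL.jobVV
    (Y852.RL.job Y683.RL.jobVV Y155.RL.finFour) Y683.RL.jobKD Y683.RL.jobFJ Y155.RL.div
    Y155.RL.vd Y155.RL.bc Y359.RL.jobGenus h he hF

end Pool.Agent.Y813.RL
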