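import Pool.Agent.Y813.RL.Wall

set_option autoImplicit false

/-!
# Mirrors through the cusp
-/

namespace Pool.Agent.Y813.RL

open Complex Set Finset Topology

noncomputable section

variable {G : Matrix (Fin 20) (Fin 20) ℤ}

/-- the mirrors with `a = m = 0` -/
def Mir (G : Matrix (Fin 20) (Fin 20) ℤ) : Set (ℂ × (Fin 20 → ℂ)) :=
  {p | ∃ (b n : ℤ) (μ : Fin 20 → ℤ), 0 < bd G μ μ ∧ bd G μ μ ≤ 2 ∧
    (b : ℂ) + n * p.1 + dt μ p.2 = 0}

/-- the second real coordinate -/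
def yp (p : ℂ × (Fin 20 → ℂ)) : Fin 20 → ℝ := rev p.2 - p.1.re • xp p

theorem mir_eq {p : ℂ × (Fin 20 → ℂ)} (hp : p ∈ UP) (b n : ℤ) (μ : Fin 20 → ℤ) :
    (b : ℂ) + n * p.1 + dt μ p.2 = 0 ↔ dt μ (xp p) = -(n : ℝ) ∧ dt μ (yp p) = -(b : ℝ) := by
  have hp' : 0 < p.1.im := hp
  unfold yp xp
  rw [sub_eq_add_neg, dt_add, ← neg_smul, dt_smul, dt_smul, dt_smul]
  constructor
  · intro h
    have h1 := congrArg Complex.im h
    have h2 := congrArg Complex.re h
    simp only [Complex.add_im, Complex.add_re, Complex.zero_im, Complex.zero_re, Complex.mul_im,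
      Complex.mul_re, Complex.intCast_re, Complex.intCast_im, zero_mul, add_zero, zero_add,
      sub_zero, dt_im, dt_re] at h1 h2
    have h3 : p.1.im⁻¹ * dt μ (imv p.2) = -(n : ℝ) := by
      field_simp
      linarith
    refine ⟨h3, ?_⟩
    rw [h3]
    linarith
  · rintro ⟨h1, h2⟩
    rw [h1] at h2
    have h3 : dt μ (imv p.2) = -(n : ℝ) * p.1.im := by
      field_simp at h1
      linarith
    apply Complex.ext
    · simp only [Complex.add_re, Complex.zero_re, Complex.mul_re, Complex.intCast_re,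
        Complex.intCast_im, zero_mul, sub_zero, dt_re]
      linarith
    · simp only [Complex.add_im, Complex.zero_im, Complex.mul_im, Complex.intCast_re,
        Complex.intCast_im, zero_mul, add_zero, zero_add, dt_im]
      rw [h3]
      ring

theorem continuousOn_xp : ContinuousOn xp UP := by
  rw [continuousOn_pi]
  intro i
  have : ContinuousOn (fun p : ℂ × (Fin 20 → ℂ) => (p.1.im)⁻¹ * (p.2 i).im) UP := by
    refine ContinuousOn.mul (ContinuousOn.inv₀ (by fun_prop) ?_) (by fun_prop)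
    intro p hp
    have : 0 < p.1.im := hp
    exact this.ne'
  exact this

theorem continuousOn_yp : ContinuousOn yp UP := by
  rw [continuousOn_pi]
  intro i
  have : ContinuousOn (fun p : ℂ × (Fin 20 → ℂ) => (p.2 i).re - p.1.re * xp p i) UP := by
    refine ContinuousOn.sub (by fun_prop) (ContinuousOn.mul (by fun_prop) ?_)
    exact (continuous_apply i).comp_continuousOn continuousOn_xp
  exact this

/-- the finite set of relevant covectors -/
theorem short_finite (h : PosSymm G) (c : ℝ) : {μ : Fin 20 → ℤ | bd G μ μ ≤ c}.Finite := by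
  obtain ⟨Q, hQ⟩ := short_bound h c
  refine (Set.finite_Icc (fun _ : Fin 20 => -(Q : ℤ)) (fun _ => (Q : ℤ))).subset ?_
  intro μ hμ
  have := hQ μ hμ
  exact ⟨fun i => (abs_le.1 (this i)).1, fun i => (abs_le.1 (this i)).2⟩

theorem not_mir {p : ℂ × (Fin 20 → ℂ)} (hp : p ∈ UP) : p ∉ Mir G ↔
    ∀ μ : Fin 20 → ℤ, 0 < bd G μ μ → bd G μ μ ≤ 2 →
      xp p ∈ gs μ ∨ yp p ∈ gs μ := by
  constructor
  · intro h μ h1 h2
    by_contra hcon
    push Not at hcon
    obtain ⟨h3, h4⟩ := hcon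
    simp only [gs, Set.mem_ofPred_eq, not_forall, not_not] at h3 h4
    obtain ⟨k, hk⟩ := h3
    obtain ⟨l, hl⟩ := h4
    apply h
    refine ⟨-l, -k, μ, h1, h2, (mir_eq hp _ _ _).2 ⟨?_, ?_⟩⟩
    · rw [hk]; push_cast; ring
    · rw [hl]; push_cast; ring
  · rintro h ⟨b, n, μ, h1, h2, h3⟩
    obtain ⟨h4, h5⟩ := (mir_eq hp _ _ _).1 h3
    rcases h μ h1 h2 with h6 | h6
    · exact h6 (-n) (by rw [h4]; push_cast; rfl)
    · exact h6 (-b) (by rw [h5]; push_cast; rfl)

theorem isOpen_compl_mir (h : PosSymm G) : IsOpen (UP \ Mir G) := by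
  have hfin := short_finite h 2
  have e : UP \ Mir G = UP ∩ ⋂ μ ∈ {μ : Fin 20 → ℤ | bd G μ μ ≤ 2},
      (UP ∩ {p | 0 < bd G μ μ → xp p ∈ gs μ ∨ yp p ∈ gs μ}) := by
    ext p
    simp only [Set.mem_sdiff, Set.mem_inter_iff, Set.mem_iInter, Set.mem_ofPred_eq]
    constructor
    · rintro ⟨h1, h2⟩
      exact ⟨h1, fun μ hμ => ⟨h1, fun h0 => (not_mir h1).1 h2 μ h0 hμ⟩⟩
    · rintro ⟨h1, h2⟩
      exact ⟨h1, (not_mir h1).2 fun μ h0 hμ => (h2 μ hμ).2 h0⟩
  rw [e]
  refine isOpen_UP.inter (hfin.isOpen_biInter fun μ _ => ?_)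
  by_cases h0 : 0 < bd G μ μ
  · have e2 : UP ∩ {p | 0 < bd G μ μ → xp p ∈ gs μ ∨ yp p ∈ gs μ} =
        (UP ∩ xp ⁻¹' gs μ) ∪ (UP ∩ yp ⁻¹' gs μ) := by
      ext p
      simp only [Set.mem_inter_iff, Set.mem_ofPred_eq, Set.mem_union, Set.mem_preimage, h0,
        forall_true_left]
      tauto
    rw [e2]
    exact (continuousOn_xp.isOpen_inter_preimage isOpen_UP (isOpen_gs μ)).union
      (continuousOn_yp.isOpen_inter_preimage isOpen_UP (isOpen_gs μ))
  · have e2 : UP ∩ {p | 0 < bd G μ μ → xp p ∈ gs μ ∨ yp p ∈ gs μ} = UP := by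
      ext p
      simp [h0]
    rw [e2]
    exact isOpen_UP

theorem bd_zero : bd G 0 0 = 0 := by
  unfold bd
  simp

theorem dense_compl_mir (h : PosSymm G) {p : ℂ × (Fin 20 → ℂ)} (hp : p ∈ UP)
    {U : Set (ℂ × (Fin 20 → ℂ))} (hU : U ∈ 𝓝 p) : ∃ q ∈ U, q ∈ UP ∧ q ∉ Mir G := by
  obtain ⟨Q, hQ⟩ := short_bound h 2
  obtain ⟨X, N, _, _, hg⟩ := gen Q isOpen_univ ⟨0, Set.mem_univ _⟩
  set η := xr X N with hη
  let f : ℝ → ℂ × (Fin 20 → ℂ) := fun t => (p.1, fun i => p.2 i + (t * η i : ℝ))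
  have hf : Continuous f := by
    simp only [f]
    fun_prop
  have hf0 : f 0 = p := by
    simp [f]
  have hev : ∀ᶠ t in 𝓝 (0 : ℝ), f t ∈ U := by
    have := hf.continuousAt (x := 0)
    rw [ContinuousAt, hf0] at this
    exact this hU
  obtain ⟨δ, hδ, hball⟩ := Metric.eventually_nhds_iff.1 hev
  have hcount : (⋃ μ : Fin 20 → ℤ, range fun k : ℤ => ((k : ℝ) - dt μ (yp p)) / dt μ η).Countable :=
    countable_iUnion fun μ => countable_range _
  obtain ⟨t, ht1, ht2⟩ := (hcount.dense_compl ℝ).exists_mem_open isOpen_Ioo (nonempty_Ioo.2 hδ)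
  have hfUP : f t ∈ UP := hp
  refine ⟨f t, hball ?_, hfUP, ?_⟩
  · rw [Real.dist_eq, sub_zero, abs_lt]
    constructor <;> linarith [ht2.1, ht2.2]
  · rw [not_mir hfUP]
    intro μ h0 h2
    right
    have hμ0 : μ ≠ 0 := by
      rintro rfl
      rw [bd_zero] at h0
      exact lt_irrefl _ h0
    have hη0 : dt μ η ≠ 0 := by
      have := hg μ hμ0 (hQ μ h2) 0
      simpa using this
    have hxp : xp (f t) = xp p := by
      unfold xp
      congr 1
      funext i
      simp [f, imv]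
    have hyp : yp (f t) = yp p + t • η := by
      unfold yp
      rw [hxp]
      funext i
      simp [f, rev]
      ring
    rw [hyp]
    intro k hk
    rw [dt_add, dt_smul] at hk
    apply ht1
    rw [Set.mem_iUnion]
    refine ⟨μ, k, ?_⟩
    simp only
    rw [← hk]
    field_simp
    ring

end

end Pool.Agent.Y813.RL
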