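import Pool.Agent.Y813.RL.Mir

set_option autoImplicit false

/-!
# Nonvanishing of the leading Fourier-Jacobi coefficient off the mirrors
-/

namespace Pool.Agent.Y813.RL

open Complex Set Finset Topology

noncomputable section

variable {G : Matrix (Fin 20) (Fin 20) ℤ}

/-- threshold for the imaginary part of `omega` -/
def thr (G : Matrix (Fin 20) (Fin 20) ℤ) (p : ℂ × (Fin 20 → ℂ)) : ℝ :=
  max (p.1.im * (1 + bf G (xp p) (xp p) / 2)) (1 / p.1.im + p.1.im * (bf G (xp p) (xp p) / 2))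

theorem bh_eq {p : ℂ × (Fin 20 → ℂ)} (hp : p ∈ UP) :
    bh G p = p.1.im * (bf G (xp p) (xp p) / 2) := by
  have hp' : 0 < p.1.im := hp
  unfold bh xp
  rw [bf_smul_left, bf_smul_right]
  field_simp

theorem bh_lt_thr {p : ℂ × (Fin 20 → ℂ)} (hp : p ∈ UP) : bh G p < thr G p := by
  have hp' : 0 < p.1.im := hp
  rw [bh_eq hp]
  refine lt_of_lt_of_le ?_ (le_max_left _ _)
  nlinarith

theorem thr_ht {p : ℂ × (Fin 20 → ℂ)} (hp : p ∈ UP) {ω : ℂ} (hω : thr G p < ω.im) :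
    1 < ht G (ω, p) ∧ 1 < p.1.im ^ 2 * ht G (ω, p) := by
  have hp' : 0 < p.1.im := hp
  have h1 := lt_of_le_of_lt (le_max_left _ _) hω
  have h2 := lt_of_le_of_lt (le_max_right _ _) hω
  unfold ht
  simp only
  constructor
  · rw [lt_sub_iff_add_lt, lt_div_iff₀ hp']
    linarith
  · have : p.1.im ^ 2 * (ω.im / p.1.im - bf G (xp p) (xp p) / 2) =
        p.1.im * (ω.im - p.1.im * (bf G (xp p) (xp p) / 2)) := by
      field_simp
    rw [this]
    have h3 : 1 / p.1.im < ω.im - p.1.im * (bf G (xp p) (xp p) / 2) := by linarith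
    rw [div_lt_iff₀ hp'] at h3
    linarith

theorem continuousOn_thr : ContinuousOn (thr G) UP := by
  have h1 : ContinuousOn (fun p : ℂ × (Fin 20 → ℂ) => bf G (xp p) (xp p)) UP := by
    have : Continuous fun x : Fin 20 → ℝ => bf G x x := bf_contR G continuous_id continuous_id
    exact this.comp_continuousOn continuousOn_xp
  have h2 : ContinuousOn (fun p : ℂ × (Fin 20 → ℂ) => p.1.im) UP := by fun_prop
  have h3 : ContinuousOn (fun p : ℂ × (Fin 20 → ℂ) => 1 / p.1.im) UP := by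
    refine ContinuousOn.div continuousOn_const h2 ?_
    intro p hp
    have : 0 < p.1.im := hp
    exact this.ne'
  unfold thr
  exact ContinuousOn.sup (h2.mul (continuousOn_const.add (h1.div_const _)))
    (h3.add (h2.mul (h1.div_const _)))

theorem nonvanish (h : PosSymm G) {k : ℤ} {F : TP → ℂ} (hF : TubeForm G k F)
    {p : ℂ × (Fin 20 → ℂ)} (hp : p ∈ UP) (hm : p ∉ Mir G) {ω : ℂ} (hω : thr G p < ω.im) :
    F (ω, p) ≠ 0 := by
  intro hF0
  obtain ⟨h1, h2⟩ := thr_ht hp hω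
  have hW : (ω, p) ∈ Hd G := ⟨hp, (bh_lt_thr hp).trans hω⟩
  obtain ⟨b, m, n, μ, hw, he⟩ := zero_wall h hF hW hF0 h2
  have h3 := height_id h (W := (ω, p)) hp he
  have h4 := nu_le_one hw
  have h5 := h.nonneg (lam G μ + (m : ℝ) • xp p)
  have hm0 : m = 0 := by
    by_contra hne
    have h6 : (1 : ℝ) ≤ (m : ℝ) ^ 2 := by
      have : (1 : ℤ) ≤ m ^ 2 := by
        have := Int.one_le_abs hne
        nlinarith [sq_abs m]
      exact_mod_cast this
    simp only at h3
    nlinarith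
  subst hm0
  apply hm
  unfold nu at h4
  refine ⟨b, n, μ, ?_, ?_, ?_⟩
  · have := h4.1
    push_cast at this
    linarith
  · have := h4.2
    push_cast at this
    linarith
  · unfold WEq at he
    push_cast at he
    linear_combination he

/-- uniform bound for the coefficients -/
theorem coeff_bound {k : ℤ} {F : TP → ℂ} (hF : TubeForm G k F)
    {φ : ℕ → ℂ × (Fin 20 → ℂ) → ℂ} (hφ : FJD G F φ) {K : Set (ℂ × (Fin 20 → ℂ))}
    (hK : IsCompact K) (hKU : K ⊆ UP) {v : ℝ} (hv : ∀ p ∈ K, bh G p < v) :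
    ∃ M : ℝ, 0 ≤ M ∧ (∀ p ∈ K, ∀ u ∈ Set.Icc (0 : ℝ) 1, ‖F ((u : ℂ) + v * Complex.I, p)‖ ≤ M) ∧
      ∀ p ∈ K, ∀ j : ℕ, ‖φ j p‖ ≤ M * Real.exp (2 * Real.pi * v) ^ j := by
  have hc : ContinuousOn (fun q : ℝ × (ℂ × (Fin 20 → ℂ)) => F ((q.1 : ℂ) + v * Complex.I, q.2))
      (Set.Icc 0 1 ×ˢ K) := by
    refine hF.holo.continuousOn.comp (by fun_prop) ?_
    rintro ⟨u, p⟩ ⟨_, hp⟩
    refine ⟨hKU hp, ?_⟩
    have : ((u : ℂ) + v * Complex.I).im = v := by simp
    simp only [this]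
    exact hv p hp
  obtain ⟨M, hM⟩ := (isCompact_Icc.prod hK).exists_bound_of_continuousOn hc
  refine ⟨|M|, abs_nonneg _, fun p hp u hu => (hM (u, p) ⟨hu, hp⟩).trans (le_abs_self _), ?_⟩
  intro p hp j
  rw [hφ.coeff j p v (hKU hp) (hv p hp)]
  have h1 : ∀ u ∈ Set.uIoc (0 : ℝ) 1, ‖F ((u : ℂ) + (v : ℂ) * Complex.I, p) *
      ee (-(j * ((u : ℂ) + (v : ℂ) * Complex.I)))‖ ≤ |M| * Real.exp (2 * Real.pi * v) ^ j := by
    intro u hu
    rw [Set.uIoc_of_le zero_le_one] at hu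
    rw [norm_mul, norm_ee]
    have h2 : (-((j : ℂ) * ((u : ℂ) + (v : ℂ) * Complex.I))).im = -(j * v) := by
      simp [Complex.mul_im]
    rw [h2, ← Real.exp_nat_mul]
    have h3 : -(2 * Real.pi * -(j * v)) = j * (2 * Real.pi * v) := by ring
    rw [h3]
    exact mul_le_mul_of_nonneg_right ((hM (u, p) ⟨⟨hu.1.le, hu.2⟩, hp⟩).trans (le_abs_self _))
      (Real.exp_pos _).le
  have := intervalIntegral.norm_integral_le_of_norm_le_const h1
  simpa using this

/-- the leading term dominates -/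
theorem leading_bound {k : ℤ} {F : TP → ℂ} (hF : TubeForm G k F)
    {φ : ℕ → ℂ × (Fin 20 → ℂ) → ℂ} (hφ : FJD G F φ) {C : ℕ}
    (hC : ∀ j < C, ∀ p ∈ UP, φ j p = 0) {K : Set (ℂ × (Fin 20 → ℂ))}
    (hK : IsCompact K) (hKU : K ⊆ UP) {v : ℝ} (hv : ∀ p ∈ K, bh G p < v) :
    ∃ M : ℝ, ∀ p ∈ K, ∀ w : ℝ, v + 1 ≤ w →
      ‖F ((w : ℂ) * Complex.I, p) * ee (-(C * ((w : ℂ) * Complex.I))) - φ C p‖ ≤
        M * Real.exp (-(2 * Real.pi * w)) := by
  obtain ⟨M, hM0, _, hM⟩ := coeff_bound hF hφ hK hKU hv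
  set E := Real.exp (2 * Real.pi * v) with hE
  have hEpos : 0 < E := Real.exp_pos _
  refine ⟨2 * M * E ^ C * E, fun p hp w hw => ?_⟩
  have him : ((w : ℂ) * Complex.I).im = w := by simp
  have hs := hφ.sum p ((w : ℂ) * Complex.I) (hKU hp) (by rw [him]; linarith [hv p hp])
  have hs1 := (hasSum_nat_add_iff' (C + 1)).2 hs
  have hsum : ∑ i ∈ Finset.range (C + 1), φ i p * ee (i * ((w : ℂ) * Complex.I)) =
      φ C p * ee (C * ((w : ℂ) * Complex.I)) := by
    rw [Finset.sum_range_succ, Finset.sum_eq_zero, zero_add]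
    intro i hi
    rw [hC i (Finset.mem_range.1 hi) p (hKU hp), zero_mul]
  rw [hsum] at hs1
  have hs2 := hs1.mul_right (ee (-(C * ((w : ℂ) * Complex.I))))
  have e1 : (F ((w : ℂ) * Complex.I, p) - φ C p * ee (C * ((w : ℂ) * Complex.I))) *
      ee (-(C * ((w : ℂ) * Complex.I))) =
      F ((w : ℂ) * Complex.I, p) * ee (-(C * ((w : ℂ) * Complex.I))) - φ C p := by
    rw [sub_mul, mul_assoc (φ C p), ← ee_add, add_neg_cancel, ee_zero, mul_one]
  rw [e1] at hs2
  set x := E * Real.exp (-(2 * Real.pi * w)) with hx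
  have hx0 : 0 < x := by positivity
  have hx1 : x ≤ 1 / 2 := by
    rw [hx, hE, ← Real.exp_add]
    have h1 : 2 * Real.pi * v + -(2 * Real.pi * w) ≤ -1 := by
      have := Real.pi_gt_three
      nlinarith
    calc Real.exp (2 * Real.pi * v + -(2 * Real.pi * w)) ≤ Real.exp (-1) := Real.exp_le_exp.2 h1
      _ ≤ 1 / 2 := by
        rw [Real.exp_neg, one_div]
        apply inv_anti₀ (by norm_num)
        have := Real.add_one_le_exp (1 : ℝ)
        linarith
  have hgeo : HasSum (fun i : ℕ => (M * E ^ C * x) * x ^ i) ((M * E ^ C * x) * (1 - x)⁻¹) :=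
    (hasSum_geometric_of_lt_one hx0.le (by linarith)).mul_left _
  have hle : ∀ i : ℕ, ‖φ (i + (C + 1)) p * ee (((i + (C + 1) : ℕ) : ℂ) * ((w : ℂ) * Complex.I)) *
      ee (-(C * ((w : ℂ) * Complex.I)))‖ ≤ (M * E ^ C * x) * x ^ i := by
    intro i
    rw [norm_mul, norm_mul, norm_ee, norm_ee]
    have a1 : ((((i + (C + 1) : ℕ) : ℂ)) * ((w : ℂ) * Complex.I)).im = (i + (C + 1)) * w := by
      simp [Complex.mul_im]
    have a2 : (-((C : ℂ) * ((w : ℂ) * Complex.I))).im = -(C * w) := by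
      simp [Complex.mul_im]
    rw [a1, a2, mul_assoc, ← Real.exp_add]
    have a3 : -(2 * Real.pi * ((i + (C + 1)) * w)) + -(2 * Real.pi * -(C * w)) =
        ((i + 1 : ℕ) : ℝ) * (-(2 * Real.pi * w)) := by
      push_cast; ring
    rw [a3, Real.exp_nat_mul]
    calc ‖φ (i + (C + 1)) p‖ * Real.exp (-(2 * Real.pi * w)) ^ (i + 1) ≤
        (M * E ^ (i + (C + 1))) * Real.exp (-(2 * Real.pi * w)) ^ (i + 1) :=
          mul_le_mul_of_nonneg_right (hM p hp _) (by positivity)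
      _ = (M * E ^ C * x) * x ^ i := by
        rw [hx]; ring
  have := tsum_of_norm_bounded hgeo hle
  rw [hs2.tsum_eq] at this
  refine this.trans ?_
  have h2 : (1 - x)⁻¹ ≤ 2 := by
    rw [inv_le_comm₀ (by linarith) (by norm_num)]
    linarith
  calc M * E ^ C * x * (1 - x)⁻¹ ≤ M * E ^ C * x * 2 :=
        mul_le_mul_of_nonneg_left h2 (by positivity)
    _ = 2 * M * E ^ C * E * Real.exp (-(2 * Real.pi * w)) := by rw [hx]; ring

/-- a direction in which a nonzero function on `UP` does not vanish identically -/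
theorem direction {f : ℂ × (Fin 20 → ℂ) → ℂ} (hf : DifferentiableOn ℂ f UP)
    (hne : ∃ p ∈ UP, f p ≠ 0) {p : ℂ × (Fin 20 → ℂ)} (hp : p ∈ UP) :
    ∃ q : ℂ × (Fin 20 → ℂ), AnalyticAt ℂ (fun t : ℂ => f (p + t • q)) 0 ∧
      ∀ᶠ t in 𝓝[≠] (0 : ℂ), f (p + t • q) ≠ 0 := by
  obtain ⟨p₂, hp₂, hne₂⟩ := hne
  set q := p₂ - p with hq
  let L : ℂ → ℂ × (Fin 20 → ℂ) := fun t => p + t • q
  have hLc : Continuous L := by
    simp only [L]
    fun_prop
  set S : Set ℂ := L ⁻¹' UP with hS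
  have hSo : IsOpen S := isOpen_UP.preimage hLc
  have hSc : Convex ℝ S := by
    intro s hs t ht a b ha hb hab
    have h1 := convex_UP hs ht ha hb hab
    have h2 : a • L s + b • L t = L (a • s + b • t) := by
      simp only [L]
      have : p = a • p + b • p := by rw [← add_smul, hab, one_smul]
      conv_rhs => rw [this]
      rw [smul_add, smul_add, add_smul, smul_assoc, smul_assoc]
      abel
    rwa [h2] at h1
  have hd : DifferentiableOn ℂ (fun t => f (L t)) S := by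
    refine hf.comp (t := UP) ?_ fun t ht => ht
    simp only [L]
    fun_prop
  have h0 : (0 : ℂ) ∈ S := by
    show L 0 ∈ UP
    simpa [L] using hp
  have h1 : (1 : ℂ) ∈ S := by
    show L 1 ∈ UP
    simpa [L, hq] using hp₂
  have han : AnalyticOnNhd ℂ (fun t => f (L t)) S := hd.analyticOnNhd hSo
  refine ⟨q, han 0 h0, ?_⟩
  rcases (han 0 h0).eventually_eq_zero_or_eventually_ne_zero with h2 | h2
  · exfalso
    have := han.eqOn_zero_of_preconnected_of_eventuallyEq_zero hSc.isPreconnected h0 h2 h1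
    apply hne₂
    simpa [L, hq] using this
  · exact h2

/-- the leading coefficient does not vanish off the mirrors -/
theorem leading_ne_zero (h : PosSymm G) {k : ℤ} {F : TP → ℂ} (hF : TubeForm G k F)
    {φ : ℕ → ℂ × (Fin 20 → ℂ) → ℂ} (hφ : FJD G F φ) {C : ℕ}
    (hC : ∀ j < C, ∀ p ∈ UP, φ j p = 0) (hne : ∃ p ∈ UP, φ C p ≠ 0)
    {p : ℂ × (Fin 20 → ℂ)} (hp : p ∈ UP) (hm : p ∉ Mir G) : φ C p ≠ 0 := by
  intro h0
  obtain ⟨q, hqa, hq⟩ := direction (hφ.holo C) hne hp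
  let L : ℂ → ℂ × (Fin 20 → ℂ) := fun t => p + t • q
  have hLc : Continuous L := by
    simp only [L]
    fun_prop
  have hL0 : L 0 = p := by simp [L]
  -- a small disc
  have hev1 : ∀ᶠ t in 𝓝 (0 : ℂ), L t ∈ UP \ Mir G := by
    have := hLc.continuousAt (x := 0)
    rw [ContinuousAt, hL0] at this
    exact this ((isOpen_compl_mir h).mem_nhds ⟨hp, hm⟩)
  have hev2 : ∀ᶠ t in 𝓝 (0 : ℂ), t ≠ 0 → φ C (L t) ≠ 0 := by
    rw [eventually_nhdsWithin_iff] at hq
    filter_upwards [hq] with t ht ht0 using ht ht0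
  obtain ⟨δ, hδ, hball⟩ := Metric.eventually_nhds_iff.1 (hev1.and hev2)
  set ρ := δ / 2 with hρ
  have hρ0 : 0 < ρ := by positivity
  have hin : ∀ t ∈ Metric.closedBall (0 : ℂ) ρ, L t ∈ UP \ Mir G := by
    intro t ht
    rw [Metric.mem_closedBall] at ht
    exact (hball (lt_of_le_of_lt ht (by rw [hρ]; linarith))).1
  set K := L '' Metric.closedBall (0 : ℂ) ρ with hK
  have hKc : IsCompact K := (isCompact_closedBall _ _).image hLc
  have hKU : K ⊆ UP := by
    rintro _ ⟨t, ht, rfl⟩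
    exact (hin t ht).1
  obtain ⟨v, hv⟩ := hKc.exists_bound_of_continuousOn (continuousOn_thr.mono hKU)
  have hvt : ∀ x ∈ K, thr G x < v + 1 := fun x hx => by
    have := hv x hx
    rw [Real.norm_eq_abs] at this
    linarith [le_abs_self (thr G x)]
  have hvb : ∀ x ∈ K, bh G x < v + 1 := fun x hx => (bh_lt_thr (hKU hx)).trans (hvt x hx)
  obtain ⟨M, hM⟩ := leading_bound hF hφ hC hKc hKU hvb
  -- minimum on the circle
  have hcont : ContinuousOn (fun t => ‖φ C (L t)‖) (Metric.sphere (0 : ℂ) ρ) := by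
    refine ContinuousOn.norm ?_
    refine (hφ.holo C).continuousOn.comp hLc.continuousOn ?_
    intro t ht
    exact (hin t (Metric.sphere_subset_closedBall ht)).1
  obtain ⟨t₀, ht₀, hmin⟩ := (isCompact_sphere (0 : ℂ) ρ).exists_isMinOn
    (NormedSpace.sphere_nonempty.2 hρ0.le) hcont
  set d := ‖φ C (L t₀)‖ with hd
  have hd0 : 0 < d := by
    rw [hd, norm_pos_iff]
    have h1 : t₀ ∈ Metric.closedBall (0 : ℂ) ρ := Metric.sphere_subset_closedBall ht₀
    rw [Metric.mem_closedBall] at h1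
    refine (hball (lt_of_le_of_lt h1 (by rw [hρ]; linarith))).2 ?_
    rintro rfl
    rw [Metric.mem_sphere, dist_self] at ht₀
    linarith
  -- choose w large
  obtain ⟨w, hw1, hw2⟩ : ∃ w : ℝ, v + 1 + 1 ≤ w ∧ |M| * Real.exp (-(2 * Real.pi * w)) < d / 2 := by
    have ht : Filter.Tendsto (fun w : ℝ => |M| * Real.exp (-(2 * Real.pi * w))) Filter.atTop
        (𝓝 (|M| * 0)) := by
      refine Filter.Tendsto.const_mul _ ?_
      refine Real.tendsto_exp_atBot.comp ?_
      refine Filter.tendsto_neg_atTop_atBot.comp ?_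
      exact Filter.Tendsto.const_mul_atTop (by positivity) Filter.tendsto_id
    rw [mul_zero] at ht
    have h1 := ht.eventually (gt_mem_nhds (show (0 : ℝ) < d / 2 by positivity))
    obtain ⟨w, hw⟩ := (h1.and (Filter.eventually_ge_atTop (v + 1 + 1))).exists
    exact ⟨w, hw.2, hw.1⟩
  have him : ((w : ℂ) * Complex.I).im = w := by simp
  set g : ℂ → ℂ := fun t => F ((w : ℂ) * Complex.I, L t) * ee (-(C * ((w : ℂ) * Complex.I))) with hg
  have hgne : ∀ t ∈ Metric.closedBall (0 : ℂ) ρ, g t ≠ 0 := by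
    intro t ht
    refine mul_ne_zero ?_ (ee_ne_zero _)
    refine nonvanish h hF (hin t ht).1 (hin t ht).2 ?_
    rw [him]
    linarith [hvt (L t) ⟨t, ht, rfl⟩]
  have hgd : DifferentiableOn ℂ g (Metric.closedBall (0 : ℂ) ρ) := by
    refine DifferentiableOn.mul_const ?_ _
    refine hF.holo.comp (t := Hd G) (f := fun t => ((w : ℂ) * Complex.I, L t)) ?_ ?_
    · simp only [L]
      fun_prop
    · intro t ht
      refine ⟨(hin t ht).1, ?_⟩
      simp only [him]
      linarith [hvb (L t) ⟨t, ht, rfl⟩]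
  have hbound : ∀ t ∈ Metric.closedBall (0 : ℂ) ρ, ‖g t - φ C (L t)‖ < d / 2 := by
    intro t ht
    refine lt_of_le_of_lt (hM (L t) ⟨t, ht, rfl⟩ w hw1) ?_
    refine lt_of_le_of_lt ?_ hw2
    exact mul_le_mul_of_nonneg_right (le_abs_self _) (Real.exp_pos _).le
  have hinv : ∀ t ∈ Metric.sphere (0 : ℂ) ρ, ‖(g t)⁻¹‖ ≤ (d / 2)⁻¹ := by
    intro t ht
    rw [norm_inv]
    apply inv_anti₀ (by positivity)
    have h1 := hbound t (Metric.sphere_subset_closedBall ht)
    have h2 : d ≤ ‖φ C (L t)‖ := hmin ht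
    have h3 : ‖φ C (L t)‖ ≤ ‖g t‖ + ‖g t - φ C (L t)‖ := by
      calc ‖φ C (L t)‖ = ‖g t - (g t - φ C (L t))‖ := by rw [sub_sub_cancel]
        _ ≤ _ := norm_sub_le _ _
    linarith
  have hmax : ‖(g 0)⁻¹‖ ≤ (d / 2)⁻¹ := by
    have hdc : DiffContOnCl ℂ (fun t => (g t)⁻¹) (Metric.ball (0 : ℂ) ρ) := by
      refine DifferentiableOn.diffContOnCl ?_
      rw [closure_ball _ hρ0.ne']
      exact hgd.inv hgne
    refine Complex.norm_le_of_forall_mem_frontier_norm_le Metric.isBounded_ball hdc ?_ ?_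
    · intro t ht
      rw [frontier_ball _ hρ0.ne'] at ht
      exact hinv t ht
    · rw [closure_ball _ hρ0.ne']
      exact Metric.mem_closedBall_self hρ0.le
  have h00 : (0 : ℂ) ∈ Metric.closedBall (0 : ℂ) ρ := Metric.mem_closedBall_self hρ0.le
  rw [norm_inv] at hmax
  have hg0 : d / 2 ≤ ‖g 0‖ := (inv_le_inv₀ (norm_pos_iff.2 (hgne 0 h00)) (by positivity)).1 hmax
  have h4 := hbound 0 h00
  rw [hL0, h0, sub_zero] at h4
  linarith

end

end Pool.Agent.Y813.RL
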