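import Pool.Agent.Y813.RL.Top

set_option autoImplicit false

/-!
# The gap of the two leading Fourier-Jacobi coefficients is one
-/

namespace Pool.Agent.Y813.RL

open Complex Set Finset Topology Pool.Agent.Y683.RL

noncomputable section

variable {G : Matrix (Fin 20) (Fin 20) ℤ} {k : ℤ} {F : TP → ℂ}
  {φ : ℕ → ℂ × (Fin 20 → ℂ) → ℂ} {C m : ℕ}

/-- genericity with respect to differences of slopes -/
def SlopeGen (G : Matrix (Fin 20) (Fin 20) ℤ) (x : Fin 20 → ℝ) (η : ℝ) : Prop :=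
  ∀ q ∈ WS G x η, ∀ q' ∈ WS G x η, q'.1 • q.2.2 - q.1 • q'.2.2 ≠ 0 →
    ∀ j : ℤ, dt (q'.1 • q.2.2 - q.1 • q'.2.2) x ≠ j

/-- equal heights have equal slopes -/
theorem slope_eq {x : Fin 20 → ℝ} {η : ℝ} (hg : SlopeGen G x η) {q q' : ℤ × (ℤ × (Fin 20 → ℤ))}
    (hq : q ∈ WS G x η) (hq' : q' ∈ WS G x η)
    (he : -((q.2.1 : ℝ) + dt q.2.2 x) / q.1 = -((q'.2.1 : ℝ) + dt q'.2.2 x) / q'.1) :
    q'.1 • q.2.2 = q.1 • q'.2.2 ∧ q'.1 * q.2.1 = q.1 * q'.2.1 := by
  have h1 : (0 : ℝ) < q.1 := by exact_mod_cast hq.1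
  have h2 : (0 : ℝ) < q'.1 := by exact_mod_cast hq'.1
  rw [div_eq_div_iff h1.ne' h2.ne'] at he
  have h3 : dt (q'.1 • q.2.2 - q.1 • q'.2.2) x = ((q.1 * q'.2.1 - q'.1 * q.2.1 : ℤ) : ℝ) := by
    rw [sub_eq_add_neg, ← neg_smul, dt_add_left, dt_smul_left, dt_smul_left]
    push_cast
    linarith
  have h4 : q'.1 • q.2.2 - q.1 • q'.2.2 = 0 := by
    by_contra hne
    exact hg q hq q' hq' hne _ h3
  rw [h4] at h3
  have h5 : dt (0 : Fin 20 → ℤ) x = 0 := by simp [dt]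
  rw [h5] at h3
  have h6 : q.1 * q'.2.1 - q'.1 * q.2.1 = 0 := by exact_mod_cast h3.symm
  exact ⟨sub_eq_zero.1 h4, by linarith⟩

/-- **no zeros of height `> 4/(5m)` on generic slices, for `m ≥ 2`** -/
theorem CM.no_high (hVD : JobVD) (hKD : JobKD) (h : PosSymm G) (H : CM G k F φ C m) (hm : 2 ≤ m)
    (X : Fin 20 → ℤ) {N : ℕ} (hN : 0 < N) (hx : Short G (xr X N))
    (hg : SlopeGen G (xr X N) (2 / (5 * m))) (y : Fin 20 → ℝ) :
    ∃ T₀ : ℝ, ∀ τ ω : ℂ, T₀ ≤ τ.im →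
      (4 / (5 * m) + bf G (xr X N) (xr X N) / 2) * τ.im < ω.im → F (ω, sl (xr X N) y τ) ≠ 0 := by
  classical
  have hpi := Real.pi_pos
  have hmR : (2 : ℝ) ≤ m := by exact_mod_cast hm
  set x := xr X N with hxdef
  set η : ℝ := 2 / (5 * m) with hη
  have hη0 : 0 < η := by rw [hη]; positivity
  have h2η : 4 / (5 * (m : ℝ)) = 2 * η := by rw [hη]; ring
  rw [h2η]
  obtain ⟨K, T₁, hK0, hT1, hK⟩ := H.gp_slice hKD h X hN hx y hη0 1
  obtain ⟨δ, hδ0, hδη, hgap⟩ := exists_gap (HS_finite h x hη0) hη0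
  obtain ⟨B, hB1, hB2⟩ := exists_B hm
  have hcard : (Eset B).card < m := by
    have := Eset_card B
    omega
  obtain ⟨KV, hKV0, hKV⟩ := hVD m (Eset B) hcard (Eset_norm B)
  have hneg : -(2 * Real.pi * δ) < 0 := by
    have : 0 < 2 * Real.pi * δ := by positivity
    linarith
  obtain ⟨Ta, hTa⟩ := decay (K := 1) hneg (ε := 1 / 2) (by norm_num)
  obtain ⟨Tb, hTb⟩ := decay (K := KV * K) hneg (ε := 1 / 2) (by norm_num)
  refine ⟨max (max T₁ (1 / η + 1)) (max Ta Tb), fun τ ω₀ hτ hω₀ hz₀ => ?_⟩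
  have t1 : T₁ ≤ τ.im := (le_max_left _ _).trans ((le_max_left _ _).trans hτ)
  have t2 : 1 / η + 1 ≤ τ.im := (le_max_right _ _).trans ((le_max_left _ _).trans hτ)
  have t3 : Ta ≤ τ.im := (le_max_left _ _).trans ((le_max_right _ _).trans hτ)
  have t4 : Tb ≤ τ.im := (le_max_right _ _).trans ((le_max_right _ _).trans hτ)
  have t5 : 1 ≤ τ.im := hT1.trans t1
  have hT0 : 0 < τ.im := by linarith
  set T := τ.im with hTdef
  have hTη : 1 < T ^ 2 * η := by
    have h3 : 1 / η < T := by linarith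
    rw [div_lt_iff₀ hη0] at h3
    have h4 : 1 * (T * η) ≤ T * (T * η) := mul_le_mul_of_nonneg_right t5 (by positivity)
    calc (1 : ℝ) < T * η := h3
      _ = 1 * (T * η) := (one_mul _).symm
      _ ≤ T * (T * η) := h4
      _ = T ^ 2 * η := by ring
  set p := sl x y τ with hp
  have hpU : p ∈ UP := sl_mem x y hT0
  set qq := bf G x x / 2 with hqq
  obtain ⟨hne, hgb⟩ := hK τ t1
  -- the set of heights of zeros
  set Zs : Set ℝ := {a | a ∈ HS G x η ∧ ∃ ω : ℂ, F (ω, p) = 0 ∧ a = ω.im / T - qq} with hZs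
  have hmemZ : ∀ ω : ℂ, F (ω, p) = 0 → η ≤ ω.im / T - qq → ω.im / T - qq ∈ Zs := by
    intro ω hz hht
    obtain ⟨b, M, n, μ, hW, -, hH⟩ := slice_WS h H.tf hx y hT0 hη0 hTη hht hz
    exact ⟨⟨(M, (n, μ)), hW, hH.symm⟩, ω, hz, rfl⟩
  have hZfin : Zs.Finite := (HS_finite h x hη0).subset fun a ha => ha.1
  have hht₀ : 2 * η < ω₀.im / T - qq := by
    rw [lt_sub_iff_add_lt, lt_div_iff₀ hT0]
    exact hω₀
  have hZne : Zs.Nonempty := ⟨_, hmemZ ω₀ hz₀ (by linarith)⟩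
  obtain ⟨h₁, ⟨hh₁, ω₁, hz₁, hω₁⟩, hmax⟩ := Set.exists_max_image Zs id hZfin hZne
  simp only [id] at hmax
  have hh₁big : 2 * η < h₁ := lt_of_lt_of_le hht₀ (hmax _ (hmemZ ω₀ hz₀ (by linarith)))
  obtain ⟨b₁, M₁, n₁, μ₁, hW₁, he₁, hH₁⟩ := slice_WS h H.tf hx y hT0 hη0 hTη
    (by rw [← hω₁]; linarith) hz₁
  have hM₁ : (0 : ℝ) < M₁ := by exact_mod_cast hW₁.1
  have hM₁C : (M₁ : ℂ) ≠ 0 := by exact_mod_cast hM₁.ne'
  have hh₁le : h₁ ≤ 1 := by
    have h3 := (HS_WS hW₁).2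
    simp only at h3
    rw [← hqq, ← hH₁, ← hω₁] at h3
    have h4 := h.nonneg (lam G μ₁ + (M₁ : ℝ) • x)
    have h5 : (1 : ℝ) ≤ M₁ := by exact_mod_cast hW₁.1
    have h6 : (1 : ℝ) ≤ (M₁ : ℝ) ^ 2 := one_le_pow₀ h5
    have h7 : 1 * h₁ ≤ (M₁ : ℝ) ^ 2 * h₁ := mul_le_mul_of_nonneg_right h6 (by linarith)
    linarith
  -- the central position
  set L : ℂ := n₁ * τ + dt μ₁ p.2 with hL
  set ωs : ℂ := ω₁ + b₁ / M₁ with hωs
  have hωs_im : ωs.im = ω₁.im := by
    have e : (b₁ : ℂ) / M₁ = (((b₁ : ℝ) / M₁ : ℝ) : ℂ) := by push_cast; rfl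
    rw [hωs, Complex.add_im, e, Complex.ofReal_im, add_zero]
  have hωs_eq : (M₁ : ℂ) * ωs = -L := by
    rw [hωs, mul_add, he₁, mul_div_cancel₀ _ hM₁C, hL]
    ring
  set v : ℝ := (h₁ - δ + qq) * T with hv
  have hbv : bh G p < v := by
    rw [hp, bh_sl x y hT0, hv, ← hqq]
    exact mul_lt_mul_of_pos_right (by linarith) hT0
  have hω₁T : ω₁.im = (h₁ + qq) * T := by
    rw [hω₁]
    field_simp
    ring
  set r : ℝ := Real.exp (-(2 * Real.pi * v)) with hr
  have hr0 : 0 < r := Real.exp_pos _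
  have hrC : (r : ℂ) ≠ 0 := by exact_mod_cast hr0.ne'
  set a : ℂ := ee ωs / r with ha
  have hna : ‖a‖ = Real.exp (-(2 * Real.pi * δ) * T) := by
    rw [ha, norm_div, norm_ee, Complex.norm_real, Real.norm_eq_abs, abs_of_pos hr0, hr,
      ← Real.exp_sub, hωs_im, hω₁T, hv]
    congr 1
    ring
  have hna0 : 0 < ‖a‖ := by rw [hna]; exact Real.exp_pos _
  have hna2 : ‖a‖ ≤ 1 / 2 := by
    have h3 := hTa T t3
    rw [hna]
    rw [one_mul] at h3
    refine le_trans ?_ h3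
    exact le_mul_of_one_le_left (Real.exp_pos _).le t5
  have hRR : r < Real.exp (-(2 * Real.pi * bh G p)) := by
    rw [hr, Real.exp_lt_exp]
    exact neg_lt_neg (mul_lt_mul_of_pos_left hbv (by positivity))
  set ρ : ℝ := Real.exp (-(2 * Real.pi * bh G p)) with hρ
  have hρr : 1 < ρ / r := by rwa [lt_div_iff₀ hr0, one_mul]
  have hmaps : ∀ s ∈ Metric.ball (0 : ℂ) (ρ / r), (r : ℂ) * s ∈ Metric.ball (0 : ℂ) ρ := by
    intro s hs
    rw [Metric.mem_ball, dist_zero_right] at hs ⊢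
    rw [norm_mul, Complex.norm_real, Real.norm_eq_abs, abs_of_pos hr0]
    rwa [lt_div_iff₀ hr0, mul_comm] at hs
  have hnrm : ∀ s ∈ Metric.closedBall (0 : ℂ) 1, ‖(r : ℂ) * s‖ ≤ r := by
    intro s hs
    rw [Metric.mem_closedBall, dist_zero_right] at hs
    rw [norm_mul, Complex.norm_real, Real.norm_eq_abs, abs_of_pos hr0]
    exact mul_le_of_le_one_right hr0.le hs
  have hsub : Metric.closedBall (0 : ℂ) 1 ⊆ Metric.ball (0 : ℂ) (ρ / r) :=
    Metric.closedBall_subset_ball hρr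
  have key := hKV (fun s => gp φ C m p ((r : ℂ) * s))
    (fun s => (r : ℂ) ^ m * (Hs φ C m p ((r : ℂ) * s) / φ C p)) a (K * T) hna0 hna2
    (by
      have hd : DifferentiableOn ℂ (fun s => gp φ C m p ((r : ℂ) * s))
          (Metric.ball (0 : ℂ) (ρ / r)) :=
        (H.gp_diff hpU).comp (by fun_prop) hmaps
      exact (hd.analyticOnNhd Metric.isOpen_ball).mono hsub)
    (by
      have hd : DifferentiableOn ℂ (fun s => (r : ℂ) ^ m * (Hs φ C m p ((r : ℂ) * s) / φ C p))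
          (Metric.ball (0 : ℂ) (ρ / r)) := by
        have h3 : DifferentiableOn ℂ (fun s => Hs φ C m p ((r : ℂ) * s))
            (Metric.ball (0 : ℂ) (ρ / r)) := (H.Hs_diff hpU).comp (by fun_prop) hmaps
        exact (h3.div_const _).const_mul _
      exact (hd.analyticOnNhd Metric.isOpen_ball).mono hsub)
    (by
      intro s _
      simp only [gp]
      ring)
    (by
      intro s hs
      exact hgb (h₁ - δ) (by linarith) (by linarith) _ (hnrm s hs))
    (by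
      intro s hs hz
      obtain ⟨ω, hω1, hω2, hω3⟩ := H.gp_zero hpU hne hbv (hnrm s hs) hz
      have h3 : h₁ - δ ≤ ω.im / T - qq := by
        rw [le_sub_iff_add_le, le_div_iff₀ hT0]
        exact hω2
      have h4 : η ≤ ω.im / T - qq := by linarith
      obtain ⟨b, M, n, μ, hW, he, hH⟩ := slice_WS h H.tf hx y hT0 hη0 hTη h4 hω3
      have hZ := hmemZ ω hω3 h4
      have h5 : ω.im / T - qq = h₁ := by
        by_contra hne'
        have h6 := hgap _ hZ.1 _ hh₁ hne'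
        have h7 := hmax _ hZ
        rw [abs_of_nonpos (by linarith)] at h6
        linarith
      have hM : (0 : ℝ) < M := by exact_mod_cast hW.1
      have hMC : (M : ℂ) ≠ 0 := by exact_mod_cast hM.ne'
      have h6 : -((n : ℝ) + dt μ x) / M = -((n₁ : ℝ) + dt μ₁ x) / M₁ := by
        rw [h5] at hH
        rw [← hω₁] at hH₁
        linarith
      obtain ⟨h7, h8⟩ := slope_eq hg hW hW₁ h6
      simp only at h7 h8
      -- M₁ (nτ + dt μ z) = M L
      have h9 : (M₁ : ℂ) * (n * τ + dt μ p.2) = M * L := by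
        have e1 := dt_smul_left M₁ μ p.2
        have e2 := dt_smul_left M μ₁ p.2
        rw [h7, e2] at e1
        have e3 : (M₁ : ℂ) * n = M * n₁ := by exact_mod_cast h8
        rw [hL]
        linear_combination τ * e3 - e1
      have h10 : ω = ωs - b / M := by
        have e1 : (M₁ : ℂ) * (M * ω) = M₁ * (M * (ωs - b / M)) := by
          rw [he, mul_sub, mul_div_cancel₀ _ hMC]
          linear_combination -h9 - (M : ℂ) * hωs_eq
        exact mul_left_cancel₀ hMC (mul_left_cancel₀ hM₁C e1)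
      refine ⟨ee (-((b : ℂ) / M)), mem_Eset hW.1 ?_ b, ?_⟩
      · apply hB2 M hW.1
        have h11 := (HS_WS hW).2
        simp only at h11
        rw [← hqq, ← hH, h5] at h11
        have h12 := h.nonneg (lam G μ + (M : ℝ) • x)
        have h13 : (M : ℝ) ^ 2 * (2 * η) < 1 := by
          have : (0 : ℝ) < (M : ℝ) ^ 2 := by positivity
          have := mul_lt_mul_of_pos_left hh₁big this
          linarith
        rw [← h2η] at h13
        have h14 : (4 : ℝ) * (M : ℝ) ^ 2 < 5 * m := by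
          rw [mul_div_assoc', div_lt_one (by positivity)] at h13
          linarith
        exact_mod_cast h14
      · have h11 : (r : ℂ) * s = ee ωs * ee (-((b : ℂ) / M)) := by
          rw [← hω1, h10, sub_eq_add_neg, ee_add]
        rw [ha]
        field_simp
        rw [mul_comm s, h11])
    (by
      refine ⟨ee ω₁ / r, ?_, ?_⟩
      · rw [Metric.mem_closedBall, dist_zero_right]
        have : ‖ee ω₁ / r‖ = ‖a‖ := by
          rw [ha, norm_div, norm_div, norm_ee, norm_ee, hωs_im]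
        rw [this]
        linarith
      · rw [mul_div_cancel₀ _ hrC]
        rw [H.gp_eq hpU hne (by
          refine lt_of_lt_of_le hbv ?_
          rw [hω₁T, hv]
          exact mul_le_mul_of_nonneg_right (by linarith) hT0.le), hz₁]
        simp)
  have h3 := hTb T t4
  rw [hna] at key
  linarith

end

end Pool.Agent.Y813.RL
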