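import Pool.Agent.Y813.RL.One

set_option autoImplicit false

/-!
# The gap of the two leading Fourier-Jacobi coefficients is one: conclusion
-/

namespace Pool.Agent.Y813.RL

open Complex Set Finset Topology Pool.Agent.Y683.RL

noncomputable section

variable {G : Matrix (Fin 20) (Fin 20) ℤ} {k : ℤ} {F : TP → ℂ}
  {φ : ℕ → ℂ × (Fin 20 → ℂ) → ℂ} {C m : ℕ}

theorem bd_smul (h : PosSymm G) {m : ℕ} (hm : 0 < m) (μ ν : Fin 20 → ℤ) :
    bd ((m : ℤ) • G) μ ν = bd G μ ν / m := by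
  have hmR : (m : ℝ) ≠ 0 := by exact_mod_cast hm.ne'
  have h1 : ((m : ℤ) • G).map (Int.cast : ℤ → ℝ) = (m : ℝ) • G.map (Int.cast : ℤ → ℝ) := by
    ext i j
    simp only [Matrix.map_apply, Matrix.smul_apply, smul_eq_mul]
    push_cast
    ring
  have h2 : ((m : ℝ) • G.map (Int.cast : ℤ → ℝ))⁻¹ = (m : ℝ)⁻¹ • (G.map (Int.cast : ℤ → ℝ))⁻¹ := by
    have := Matrix.inv_smul' (G.map (Int.cast : ℤ → ℝ)) (Units.mk0 (m : ℝ) hmR) (isUnit_det h)
    simpa [Units.smul_def] using this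
  unfold bd
  rw [h1, h2, Finset.sum_div]
  refine Finset.sum_congr rfl fun i _ => ?_
  rw [Matrix.smul_mulVec]
  simp only [Pi.smul_apply, smul_eq_mul]
  field_simp

theorem lam_dt (h : PosSymm G) (μ ν : Fin 20 → ℤ) : dt μ (lam G ν) = bd G μ ν := by
  rw [← bf_lam h, bf_lam_lam h]

theorem bf_sq_add_le (h : PosSymm G) (x y : Fin 20 → ℝ) :
    bf G (x + y) (x + y) ≤ 2 * bf G x x + 2 * bf G y y := by
  have h1 := h.nonneg (x - y)
  rw [bf_sub_left, bf_sub_right, bf_sub_right] at h1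
  rw [bf_add_left, bf_add_right, bf_add_right]
  linarith

/-- the second coefficient forces the Jacobi form to be nonzero -/
theorem CM.c_ne (H : CM G k F φ C m) {c : ℂ → (Fin 20 → ℂ) → ℂ}
    (hc : ∀ τ z, 0 < τ.im → φ (C + m) (τ, z) = φ C (τ, z) * c τ z) :
    ∃ (τ : ℂ) (z : Fin 20 → ℂ), 0 < τ.im ∧ c τ z ≠ 0 := by
  obtain ⟨p, hp, hne⟩ := H.hne2
  refine ⟨p.1, p.2, hp, fun h0 => hne ?_⟩
  have := hc p.1 p.2 hp
  rw [h0, mul_zero] at this
  exact this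

theorem CM.m_eq_one (hT1 : JobTheta1) (hT2 : JobTheta2) (hFF : JobFinFour) (hVV : JobVV)
    (hBC : JobBC) (hDIV : JobDIV) (hVD : JobVD) (hKD : JobKD) (h : PosSymm G)
    (H : CM G k F φ C m) : m = 1 := by
  classical
  by_contra hm1
  have hm : 2 ≤ m := by
    have := H.hm
    omega
  have hmR : (2 : ℝ) ≤ m := by exact_mod_cast hm
  obtain ⟨c, hJ, hc⟩ := H.exists_jacobi hBC hDIV h
  obtain ⟨μ₀, n₀, hne, hle⟩ := exists_polar hT1 hT2 hFF hVV (posSymm_smul h H.hm) hJ (H.c_ne hc)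
  rw [bd_smul h H.hm] at hle
  set η : ℝ := 2 / (5 * m) with hη
  have hη0 : 0 < η := by rw [hη]; positivity
  set x₀ : Fin 20 → ℝ := (-(m : ℝ)⁻¹) • lam G μ₀ with hx₀
  -- the open set
  set O : Set (Fin 20 → ℝ) := {x | (n₀ : ℝ) + dt μ₀ x + m * (bf G x x / 2) < -(4 / 5)} ∩
    {x | bf G (x - x₀) (x - x₀) < 1} with hO
  have hOopen : IsOpen O := by
    have c1 : Continuous fun x : Fin 20 → ℝ => bf G x x := bf_contR G continuous_id continuous_id
    have c2 : Continuous fun x : Fin 20 → ℝ => bf G (x - x₀) (x - x₀) :=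
      bf_contR G (by fun_prop) (by fun_prop)
    have c3 := dt_continuous μ₀
    exact (isOpen_lt (by fun_prop) continuous_const).inter (isOpen_lt c2 continuous_const)
  have hx₀O : x₀ ∈ O := by
    constructor
    · show (n₀ : ℝ) + dt μ₀ x₀ + m * (bf G x₀ x₀ / 2) < -(4 / 5)
      rw [hx₀, dt_smul, bf_smul_left, bf_smul_right, bf_lam_lam h, lam_dt h]
      have e : (n₀ : ℝ) + -(m : ℝ)⁻¹ * bd G μ₀ μ₀ +
          m * (-(m : ℝ)⁻¹ * (-(m : ℝ)⁻¹ * bd G μ₀ μ₀) / 2) = n₀ - bd G μ₀ μ₀ / m / 2 := by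
        field_simp
        ring
      rw [e]
      linarith
    · show bf G (x₀ - x₀) (x₀ - x₀) < 1
      rw [sub_self, bf_zero_left]
      exact one_pos
  -- bounds for the genericity
  obtain ⟨Q₂, hQ₂⟩ := short_bound h 2
  obtain ⟨Q₁, hQ₁⟩ := short_bound h (4 + 2 * (2 + 2 * bf G x₀ x₀) / η)
  obtain ⟨B₀, hB₀⟩ := exists_nat_gt (1 / η)
  obtain ⟨X, N, hN, hXO, hgen⟩ := gen (max Q₂ (2 * B₀ * Q₁)) hOopen ⟨x₀, hx₀O⟩
  set x := xr X N with hxdef
  have hx : Short G x := by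
    intro μ h0 h2 j
    refine hgen μ ?_ (fun i => (hQ₂ μ h2 i).trans (by exact_mod_cast le_max_left _ _)) j
    rintro rfl
    rw [bd_zero] at h0
    exact lt_irrefl _ h0
  have hbx : bf G x x ≤ 2 + 2 * bf G x₀ x₀ := by
    have h1 := bf_sq_add_le h (x - x₀) x₀
    rw [sub_add_cancel] at h1
    have h2 : bf G (x - x₀) (x - x₀) < 1 := hXO.2
    linarith
  have hcoord : ∀ q ∈ WS G x η, (∀ i, |q.2.2 i| ≤ (Q₁ : ℤ)) ∧ |q.1| ≤ (B₀ : ℤ) := by
    intro q hq
    constructor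
    · apply hQ₁
      refine (WS_bd h hη0 hq).trans ?_
      gcongr
    · have h1 := WS_M h hq
      have h2 : (1 : ℝ) ≤ q.1 := by exact_mod_cast hq.1
      have h3 : (q.1 : ℝ) < B₀ := by
        refine lt_of_le_of_lt ?_ hB₀
        rw [le_div_iff₀ hη0]
        nlinarith
      have h4 : q.1 < (B₀ : ℤ) := by exact_mod_cast h3
      rw [abs_of_nonneg (by linarith [hq.1])]
      exact h4.le
  have hg : SlopeGen G x η := by
    intro q hq q' hq' hne' j
    refine hgen _ hne' (fun i => ?_) j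
    have h1 := (hcoord q hq).1 i
    have h2 := (hcoord q' hq').1 i
    have h3 := (hcoord q hq).2
    have h4 := (hcoord q' hq').2
    have h5 : |(q'.1 • q.2.2 - q.1 • q'.2.2) i| ≤ 2 * B₀ * Q₁ := by
      simp only [Pi.sub_apply, Pi.smul_apply, smul_eq_mul]
      calc |q'.1 * q.2.2 i - q.1 * q'.2.2 i| ≤ |q'.1 * q.2.2 i| + |q.1 * q'.2.2 i| := abs_sub _ _
        _ = |q'.1| * |q.2.2 i| + |q.1| * |q'.2.2 i| := by rw [abs_mul, abs_mul]
        _ ≤ B₀ * Q₁ + B₀ * Q₁ := by gcongr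
        _ = 2 * B₀ * Q₁ := by ring
    exact h5.trans (by exact_mod_cast le_max_right _ _)
  apply hne
  refine H.coeff_zero hT1 hBC hKD h hJ hc X hN hx (w := 4 / (5 * m)) (by positivity)
    (fun y => H.no_high hVD hKD h hm X hN hx hg y) ?_
  have h1 : (n₀ : ℝ) + dt μ₀ x + m * (bf G x x / 2) < -(4 / 5) := hXO.1
  have h2 : (m : ℝ) * (4 / (5 * m) + bf G x x / 2) = 4 / 5 + m * (bf G x x / 2) := by
    field_simp
  rw [← hxdef, h2]
  linarith

end

end Pool.Agent.Y813.RL
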