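import Pool.Agent.Y813.RL.Low

set_option autoImplicit false

/-!
# A polar term exists
-/

namespace Pool.Agent.Y813.RL

open Complex Set Finset Topology MeasureTheory Pool.Agent.Y683.RL

noncomputable section

theorem norm_vf (A : Matrix (Fin 20) (Fin 20) ℤ) (c : ℂ → (Fin 20 → ℂ) → ℂ) (μ : Fin 20 → ℤ)
    (τ : ℂ) : ‖vf A c μ τ‖ = Real.exp (Real.pi * bd A μ μ * τ.im) * ‖fc c μ τ‖ := by
  unfold vf
  rw [norm_mul, norm_ee]
  congr 2
  have : (-(τ * (bd A μ μ : ℂ) / 2)).im = -(τ.im * bd A μ μ / 2) := by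
    have e : -(τ * (bd A μ μ : ℂ) / 2) = ((-(bd A μ μ / 2) : ℝ) : ℂ) * τ := by
      push_cast; ring
    rw [e, Complex.im_ofReal_mul]
    ring
  rw [this]
  ring

theorem vf_T {A : Matrix (Fin 20) (Fin 20) ℤ} {c : ℂ → (Fin 20 → ℂ) → ℂ} {μ : Fin 20 → ℤ}
    {τ : ℂ} (hp : fc c μ (τ + 1) = fc c μ τ) :
    vf A c μ (τ + 1) = ee (-((bd A μ μ : ℂ) / 2)) * vf A c μ τ := by
  unfold vf
  rw [hp, ← mul_assoc, ← ee_add]
  congr 2
  ring

/-- growth of the components -/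
theorem vf_growth {A : Matrix (Fin 20) (Fin 20) ℤ} {c : ℂ → (Fin 20 → ℂ) → ℂ} {μ : Fin 20 → ℤ}
    (hHP : HP 0 (fc c μ)) {κ : ℝ}
    (h0 : ∀ n : ℤ, fco 0 (fc c μ) n ≠ 0 → κ ≤ (n : ℝ) - bd A μ μ / 2) :
    ∃ C : ℝ, 0 ≤ C ∧ ∀ τ : ℂ, 1 / 2 ≤ τ.im →
      ‖vf A c μ τ‖ ≤ C * Real.exp (-(2 * Real.pi * κ * τ.im)) := by
  obtain ⟨C, hC, hb⟩ := per_growth hHP (n₁ := κ + bd A μ μ / 2) (by
    intro n hn
    by_contra hne
    have := h0 n hne
    linarith)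
  refine ⟨C, hC, fun τ hτ => ?_⟩
  rw [norm_vf]
  calc Real.exp (Real.pi * bd A μ μ * τ.im) * ‖fc c μ τ‖ ≤
      Real.exp (Real.pi * bd A μ μ * τ.im) *
        (C * Real.exp (-(2 * Real.pi * (κ + bd A μ μ / 2) * τ.im))) := by
        gcongr
        exact hb τ hτ
    _ = C * (Real.exp (Real.pi * bd A μ μ * τ.im) *
        Real.exp (-(2 * Real.pi * (κ + bd A μ μ / 2) * τ.im))) := by ring
    _ = C * Real.exp (-(2 * Real.pi * κ * τ.im)) := by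
        rw [← Real.exp_add]
        congr 2
        ring

theorem vv_of_jacobi (hT1 : JobTheta1) (hT2 : JobTheta2) {A : Matrix (Fin 20) (Fin 20) ℤ}
    (hA : PosSymm A) {c : ℂ → (Fin 20 → ℂ) → ℂ} (hJ : JacobiZero A c)
    {R : Finset (Fin 20 → ℤ)} (hR : IsReps A R) : VV10 A R (vf A c) := by
  obtain ⟨hfd, hfp, -, hinv, -⟩ := hT1 A c hA hJ
  refine ⟨fun μ => ?_, fun μ v τ hτ => hinv μ v τ hτ, fun μ τ hτ => vf_T (hfp μ τ hτ),
    fun μ τ hτ => hT2 A c R hA hJ hR μ τ hτ⟩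
  refine DifferentiableOn.mul ?_ (hfd μ)
  unfold ee
  fun_prop

/-- if all components vanish then the form vanishes -/
theorem jacobi_zero_of_vf (hT1 : JobTheta1) {A : Matrix (Fin 20) (Fin 20) ℤ}
    (hA : PosSymm A) {c : ℂ → (Fin 20 → ℂ) → ℂ} (hJ : JacobiZero A c)
    (h0 : ∀ μ (τ : ℂ), 0 < τ.im → vf A c μ τ = 0) {τ : ℂ} (hτ : 0 < τ.im) (z : Fin 20 → ℂ) :
    c τ z = 0 := by
  obtain ⟨-, -, -, -, hsum⟩ := hT1 A c hA hJ
  have h1 := hsum τ z hτ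
  have h2 : ∀ μ, fc c μ τ = 0 := by
    intro μ
    have := h0 μ τ hτ
    unfold vf at this
    rcases mul_eq_zero.1 this with h3 | h3
    · exact absurd h3 (ee_ne_zero _)
    · exact h3
  simp only [h2, zero_mul] at h1
  exact h1.unique hasSum_zero

theorem exists_polar (hT1 : JobTheta1) (hT2 : JobTheta2) (hFF : JobFinFour) (hVV : JobVV)
    {A : Matrix (Fin 20) (Fin 20) ℤ} (hA : PosSymm A) {c : ℂ → (Fin 20 → ℂ) → ℂ}
    (hJ : JacobiZero A c) (hne : ∃ (τ : ℂ) (z : Fin 20 → ℂ), 0 < τ.im ∧ c τ z ≠ 0) :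
    ∃ (μ : Fin 20 → ℤ) (n : ℤ), fco 0 (fc c μ) n ≠ 0 ∧ (n : ℝ) - bd A μ μ / 2 ≤ -(5 / 6) := by
  classical
  by_contra hcon
  push Not at hcon
  obtain ⟨hdet, R, hR, hcard, hpar⟩ := hFF A hA
  obtain ⟨hfd, hfp, -, hinv, -⟩ := hT1 A c hA hJ
  have hvv := vv_of_jacobi hT1 hT2 hA hJ hR
  -- the exponent
  have hκ : ∀ s : Finset (Fin 20 → ℤ), ∃ κ : ℝ, -(5 / 6) < κ ∧ ∀ μ ∈ s, ∀ n : ℤ,
      fco 0 (fc c μ) n ≠ 0 → κ ≤ (n : ℝ) - bd A μ μ / 2 := by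
    intro s
    induction s using Finset.induction_on with
    | empty => exact ⟨0, by norm_num, by simp⟩
    | insert a s ha ih =>
      obtain ⟨κ, h1, h2⟩ := ih
      refine ⟨min κ ((⌊bd A a a / 2 - 5 / 6⌋ + 1 : ℝ) - bd A a a / 2), ?_, ?_⟩
      · rw [lt_min_iff]
        refine ⟨h1, ?_⟩
        have := Int.lt_floor_add_one (bd A a a / 2 - 5 / 6)
        linarith
      · intro μ hμ n hn
        rcases Finset.mem_insert.1 hμ with rfl | hμ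
        · refine (min_le_right _ _).trans ?_
          have h3 := hcon μ n hn
          have h4 : ⌊bd A μ μ / 2 - 5 / 6⌋ < n := by
            rw [Int.floor_lt]
            linarith
          have h5 : (⌊bd A μ μ / 2 - 5 / 6⌋ : ℝ) + 1 ≤ n := by exact_mod_cast h4
          linarith
        · exact (min_le_left _ _).trans (h2 μ hμ n hn)
  obtain ⟨κ, hκ1, hκ2⟩ := hκ R
  have hg : ∀ μ : R, ∃ C : ℝ, 0 ≤ C ∧ ∀ τ : ℂ, 1 / 2 ≤ τ.im →
      ‖vf A c μ τ‖ ≤ C * Real.exp (-(2 * Real.pi * κ * τ.im)) := fun μ =>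
    vf_growth ⟨hfd μ, fun t ht => hfp μ t ht⟩ (hκ2 μ μ.2)
  choose Cf hCf0 hCf using hg
  have hzero := hVV R 10 κ (fun τ μ => vf A c μ τ) (by
      push_cast
      linarith) (by
      rw [differentiableOn_pi]
      intro μ
      exact hvv.holo μ) (by
      intro τ hτ
      refine Finset.sum_congr rfl fun μ _ => ?_
      rw [hvv.T μ τ hτ, norm_mul, norm_ee]
      have : (-((bd A μ μ : ℂ) / 2)).im = 0 := by
        have e : -((bd A μ μ : ℂ) / 2) = ((-(bd A μ μ / 2) : ℝ) : ℂ) := by push_cast; ring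
        rw [e, Complex.ofReal_im]
      rw [this]
      simp) (by
      intro τ hτ
      have h1 : ∀ g : (Fin 20 → ℤ) → ℝ, ∑ μ : R, g μ = ∑ μ ∈ R, g μ := fun g =>
        Finset.sum_coe_sort R g
      rw [h1 fun μ => ‖vf A c μ (-1 / τ)‖ ^ 2, h1 fun μ => ‖vf A c μ τ‖ ^ 2]
      have h2 : ∀ μ ∈ R, ‖vf A c μ τ‖ ^ 2 = ‖τ‖ ^ 20 / (A.det : ℝ) *
          ‖∑ ρ ∈ R, ee (-(bd A μ ρ : ℂ)) * vf A c ρ (-1 / τ)‖ ^ 2 := by
        intro μ _
        rw [hvv.S μ τ hτ, norm_mul, mul_pow]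
        congr 1
        rw [norm_div, norm_neg, norm_pow, Complex.norm_real, Real.norm_eq_abs,
          abs_of_nonneg (Real.sqrt_nonneg _), div_pow, Real.sq_sqrt (by exact_mod_cast hdet.le)]
        ring
      rw [Finset.sum_congr rfl h2, ← Finset.mul_sum, hpar fun ρ => vf A c ρ (-1 / τ)]
      have : (A.det : ℝ) ≠ 0 := by exact_mod_cast hdet.ne'
      field_simp
      ring) ⟨∑ μ : R, Cf μ, by
      intro τ hτ μ
      refine (hCf μ τ hτ).trans ?_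
      gcongr
      exact Finset.single_le_sum (f := Cf) (fun i _ => hCf0 i) (Finset.mem_univ μ)⟩
  obtain ⟨τ, z, hτ, hcz⟩ := hne
  apply hcz
  refine jacobi_zero_of_vf hT1 hA hJ ?_ hτ z
  intro μ τ hτ
  obtain ⟨ρ, ⟨hρ, v, hv⟩, -⟩ := hR μ
  rw [hv, hinv ρ v τ hτ]
  exact hzero τ hτ ⟨ρ, hρ⟩

end

end Pool.Agent.Y813.RL
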