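import Pool.Agent.Y813.RL.Slice

set_option autoImplicit false

/-!
# Zeros on slices
-/

namespace Pool.Agent.Y813.RL

open Complex Set Finset Topology

noncomputable section

variable {G : Matrix (Fin 20) (Fin 20) ℤ}

theorem wall_im {x y : Fin 20 → ℝ} {τ ω : ℂ} (hτ : 0 < τ.im) {b M n : ℤ} {μ : Fin 20 → ℤ}
    (he : WEq G 0 b M n μ (ω, sl x y τ)) :
    (M : ℝ) * (ω.im / τ.im) = -((n : ℝ) + dt μ x) := by
  unfold WEq at he
  simp only [Int.cast_zero, zero_mul, zero_add] at he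
  have h1 := congrArg Complex.im he
  rw [dt_sl] at h1
  have h2 : (sl x y τ).1 = τ := rfl
  rw [h2] at h1
  simp only [Complex.add_im, Complex.zero_im, Complex.mul_im, Complex.intCast_re,
    Complex.intCast_im, zero_mul, add_zero, zero_add, Complex.ofReal_re, Complex.ofReal_im,
    mul_zero] at h1
  rw [mul_div_assoc', div_eq_iff hτ.ne']
  linarith

/-- the walls carrying the zeros on a generic slice -/
theorem slice_zero (h : PosSymm G) {k : ℤ} {F : TP → ℂ} (hF : TubeForm G k F) {x : Fin 20 → ℝ}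
    (hx : Short G x) (y : Fin 20 → ℝ) {τ ω : ℂ} (hτ : 0 < τ.im) {η : ℝ} (hη : 0 < η)
    (hT : 1 < τ.im ^ 2 * η) (hht : η ≤ ω.im / τ.im - bf G x x / 2) (hz : F (ω, sl x y τ) = 0) :
    ∃ (b M n : ℤ) (μ : Fin 20 → ℤ), 1 ≤ M ∧ WallData G 0 b M n μ ∧
      WEq G 0 b M n μ (ω, sl x y τ) ∧
      nu G 0 b M n μ = (M : ℝ) ^ 2 * (ω.im / τ.im - bf G x x / 2) +
        bf G (lam G μ + (M : ℝ) • x) (lam G μ + (M : ℝ) • x) / 2 := by
  have hW : (ω, sl x y τ) ∈ Hd G := by
    refine ⟨sl_mem x y hτ, ?_⟩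
    show bh G (sl x y τ) < ω.im
    rw [bh_sl x y hτ, ← lt_div_iff₀ hτ]
    linarith
  have hhtW := ht_sl (G := G) (x := x) y hτ ω
  obtain ⟨b, M, n, μ, hw, he⟩ := zero_wall h hF hW hz (by
    rw [hhtW]
    show 1 < τ.im ^ 2 * _
    have : 0 < τ.im ^ 2 := by positivity
    nlinarith)
  have hid : ∀ (b M n : ℤ) (μ : Fin 20 → ℤ), WEq G 0 b M n μ (ω, sl x y τ) →
      nu G 0 b M n μ = (M : ℝ) ^ 2 * (ω.im / τ.im - bf G x x / 2) +
        bf G (lam G μ + (M : ℝ) • x) (lam G μ + (M : ℝ) • x) / 2 := by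
    intro b M n μ he
    have := height_id h (W := (ω, sl x y τ)) hτ he
    rw [hhtW] at this
    simp only at this
    rw [xp_sl x y hτ] at this
    exact this
  have hM : M ≠ 0 := by
    rintro rfl
    have h1 := wall_im hτ he
    have h2 := nu_le_one hw
    unfold nu at h2
    push_cast at h1 h2
    rw [zero_mul] at h1
    refine hx μ (by linarith [h2.1]) (by linarith [h2.2]) (-n) ?_
    push_cast
    linarith
  rcases lt_or_gt_of_ne hM with h0 | h0
  · exact ⟨-b, -M, -n, -μ, by omega, WallData_neg hw, WEq_neg he, hid _ _ _ _ (WEq_neg he)⟩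
  · exact ⟨b, M, n, μ, by omega, hw, he, hid _ _ _ _ he⟩

end

end Pool.Agent.Y813.RL
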