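import Pool.Agent.Y813.RL.Per

set_option autoImplicit false

/-!
# Slices
-/

namespace Pool.Agent.Y813.RL

open Complex Set Finset Topology Pool.Agent.Y683.RL

noncomputable section

variable {G : Matrix (Fin 20) (Fin 20) ℤ}

/-- the point `(τ, xτ + y)` -/
def sl (x y : Fin 20 → ℝ) (τ : ℂ) : ℂ × (Fin 20 → ℂ) := (τ, fun i => τ * (x i : ℂ) + (y i : ℂ))

theorem imv_sl (x y : Fin 20 → ℝ) (τ : ℂ) : imv (sl x y τ).2 = τ.im • x := by
  funext i
  simp [imv, sl]

theorem rev_sl (x y : Fin 20 → ℝ) (τ : ℂ) : rev (sl x y τ).2 = τ.re • x + y := by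
  funext i
  simp [rev, sl]

theorem xp_sl (x y : Fin 20 → ℝ) {τ : ℂ} (hτ : 0 < τ.im) : xp (sl x y τ) = x := by
  unfold xp
  rw [imv_sl, smul_smul]
  have : (sl x y τ).1 = τ := rfl
  rw [this, inv_mul_cancel₀ hτ.ne', one_smul]

theorem yp_sl (x y : Fin 20 → ℝ) {τ : ℂ} (hτ : 0 < τ.im) : yp (sl x y τ) = y := by
  unfold yp
  rw [xp_sl x y hτ, rev_sl]
  have : (sl x y τ).1 = τ := rfl
  rw [this]
  simp

theorem sl_mem (x y : Fin 20 → ℝ) {τ : ℂ} (hτ : 0 < τ.im) : sl x y τ ∈ UP := hτ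

theorem bh_sl (x y : Fin 20 → ℝ) {τ : ℂ} (hτ : 0 < τ.im) :
    bh G (sl x y τ) = (bf G x x / 2) * τ.im := by
  rw [bh_eq (sl_mem x y hτ), xp_sl x y hτ]
  show τ.im * _ = _
  ring

/-- genericity with respect to short dual vectors -/
def Short (G : Matrix (Fin 20) (Fin 20) ℤ) (x : Fin 20 → ℝ) : Prop :=
  ∀ μ : Fin 20 → ℤ, 0 < bd G μ μ → bd G μ μ ≤ 2 → ∀ k : ℤ, dt μ x ≠ k

theorem sl_not_mir {x : Fin 20 → ℝ} (hx : Short G x) (y : Fin 20 → ℝ) {τ : ℂ} (hτ : 0 < τ.im) :
    sl x y τ ∉ Mir G := by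
  rw [not_mir (sl_mem x y hτ)]
  intro μ h0 h2
  left
  rw [xp_sl x y hτ]
  exact hx μ h0 h2

theorem ht_sl {x : Fin 20 → ℝ} (y : Fin 20 → ℝ) {τ : ℂ} (hτ : 0 < τ.im) (ω : ℂ) :
    ht G (ω, sl x y τ) = ω.im / τ.im - bf G x x / 2 := by
  unfold ht
  simp only [xp_sl x y hτ]
  rfl

theorem dt_sl (x y : Fin 20 → ℝ) (τ : ℂ) (μ : Fin 20 → ℤ) :
    dt μ (sl x y τ).2 = τ * (dt μ x : ℝ) + (dt μ y : ℝ) := by
  simp only [dt, sl, Complex.ofReal_sum, Finset.mul_sum, ← Finset.sum_add_distrib]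
  exact Finset.sum_congr rfl fun i _ => by push_cast; ring

theorem sl_period {X : Fin 20 → ℤ} {N : ℕ} (hN : 0 < N) (y : Fin 20 → ℝ) (τ : ℂ) :
    sl (xr X N) y (τ + N) = (τ + N, fun i => (sl (xr X N) y τ).2 i + (X i : ℂ)) := by
  have hN' : (N : ℂ) ≠ 0 := by exact_mod_cast hN.ne'
  refine Prod.ext rfl ?_
  funext i
  simp only [sl, xr]
  push_cast
  field_simp
  ring

theorem sl_continuous (x : Fin 20 → ℝ) :
    Continuous fun q : ℂ × (Fin 20 → ℝ) => sl x q.2 q.1 := by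
  unfold sl
  fun_prop

theorem sl_differentiable (x y : Fin 20 → ℝ) : Differentiable ℂ fun τ : ℂ => sl x y τ := by
  unfold sl
  fun_prop

/-- bound of `F` on the slice -/
theorem F_bound (hKD : JobKD) (h : PosSymm G) {k : ℤ} {F : TP → ℂ} (hF : TubeForm G k F)
    (X : Fin 20 → ℤ) {N : ℕ} (hN : 0 < N) {η : ℝ} (hη : 0 < η) : ∃ M : ℝ, 0 < M ∧
      ∀ (y : Fin 20 → ℝ) (τ ω : ℂ), 1 ≤ τ.im →
      (η + bf G (xr X N) (xr X N) / 2) * τ.im ≤ ω.im → ‖F (ω, sl (xr X N) y τ)‖ ≤ M := by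
  obtain ⟨M, hM⟩ := bound_slice hKD h hF X hN hη
  refine ⟨max M 1, lt_of_lt_of_le one_pos (le_max_right _ _), fun y τ ω hτ hω => ?_⟩
  refine (hM (ω, sl (xr X N) y τ) hτ (imv_sl _ _ _) hω).trans (le_max_left _ _)

variable {k : ℤ} {F : TP → ℂ} {φ : ℕ → ℂ × (Fin 20 → ℂ) → ℂ} {C m : ℕ}

/-- lower bound of the leading coefficient on the slice -/
theorem CM.lower (hKD : JobKD) (h : PosSymm G) (H : CM G k F φ C m)
    (X : Fin 20 → ℤ) {N : ℕ} (hN : 0 < N) (hx : Short G (xr X N)) (y : Fin 20 → ℝ) :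
    ∃ c a T₁ : ℝ, 0 < c ∧ ∀ τ : ℂ, T₁ ≤ τ.im →
      c * Real.exp (-(a * τ.im)) ≤ ‖φ C (sl (xr X N) y τ)‖ := by
  have hN' : (0 : ℝ) < N := by exact_mod_cast hN
  have hN1 : (1 : ℝ) ≤ N := by exact_mod_cast hN
  set x := xr X N with hxdef
  have him : ∀ t : ℂ, ((N : ℂ) * t).im = N * t.im := by
    intro t
    rw [Complex.mul_im]; simp
  set f : ℂ → ℂ := fun t => φ C (sl x y (N * t)) with hf
  have hHP : HP 0 f := by
    constructor
    · refine (H.fd.holo C).comp (t := UP) (f := fun t : ℂ => sl x y (N * t)) ?_ ?_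
      · exact ((sl_differentiable x y).comp (by fun_prop : Differentiable ℂ fun t : ℂ =>
          (N : ℂ) * t)).differentiableOn
      · intro t ht
        have ht' : 0 < t.im := ht
        refine sl_mem x y ?_
        rw [him]
        positivity
    · intro t ht
      simp only [hf]
      rw [mul_add, mul_one, hxdef, sl_period hN]
      have h1 : 0 < ((N : ℂ) * t).im := by rw [him]; positivity
      have h2 := law_z H.tf H.fd C (sl (xr X N) y (N * t)).2 X (τ := N * t + N) (by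
        simp only [Complex.add_im, Complex.natCast_im, add_zero]; exact h1)
      rw [h2]
      have h3 : ∀ n : ℕ, φ C ((N : ℂ) * t + n, (sl (xr X N) y (N * t)).2) =
          φ C (N * t, (sl (xr X N) y (N * t)).2) := by
        intro n
        induction n with
        | zero => simp
        | succ n ih =>
          rw [← ih]
          have := law_T H.tf H.fd C (sl (xr X N) y (N * t)).2 (τ := N * t + n) (by
            simp only [Complex.add_im, Complex.natCast_im, add_zero]; exact h1)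
          rw [← this]
          congr 2
          push_cast
          ring
      rw [h3]
      rfl
  obtain ⟨M, hM0, hM⟩ := F_bound hKD h H.tf X hN one_pos
  have hbound : ∀ t : ℂ, 1 ≤ t.im → ‖f t‖ ≤
      M * Real.exp ((2 * Real.pi * (1 + bf G x x / 2) * C * N) * t.im) := by
    intro t ht
    have h1 : 0 < ((N : ℂ) * t).im := by rw [him]; positivity
    have h2 : 1 ≤ ((N : ℂ) * t).im := by rw [him]; nlinarith
    set v : ℝ := (1 + bf G x x / 2) * ((N : ℂ) * t).im with hv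
    have hbv : bh G (sl x y (N * t)) < v := by
      rw [bh_sl x y h1, hv]
      nlinarith
    simp only [hf]
    rw [H.fd.coeff C _ v (sl_mem x y h1) hbv]
    have h3 : ∀ u ∈ Set.uIoc (0 : ℝ) 1, ‖F ((u : ℂ) + (v : ℂ) * Complex.I, sl x y (N * t)) *
        ee (-(C * ((u : ℂ) + (v : ℂ) * Complex.I)))‖ ≤
        M * Real.exp ((2 * Real.pi * (1 + bf G x x / 2) * C * N) * t.im) := by
      intro u _
      have hvim : ((u : ℂ) + (v : ℂ) * Complex.I).im = v := by simp
      rw [norm_mul, norm_ee]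
      refine mul_le_mul (hM y _ _ h2 (by rw [hvim])) (Real.exp_le_exp.2 ?_)
        (Real.exp_pos _).le hM0.le
      have h4 : (-((C : ℂ) * ((u : ℂ) + (v : ℂ) * Complex.I))).im = -(C * v) := by
        rw [Complex.neg_im, Complex.mul_im, hvim]; simp
      rw [h4, hv, him]
      apply le_of_eq
      ring
    have := intervalIntegral.norm_integral_le_of_norm_le_const h3
    simpa using this
  obtain ⟨c, a, T₁, hc, hlow⟩ := per_lower hHP ⟨Complex.I, by simp, by
    simp only [hf]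
    have h1 : 0 < ((N : ℂ) * Complex.I).im := by rw [him]; simpa using hN
    exact leading_ne_zero h H.tf H.fd H.hC H.hne (sl_mem x y h1) (sl_not_mir hx y h1)⟩ hbound
  refine ⟨c, a / N, N * T₁, hc, fun τ hτ => ?_⟩
  have hNC : (N : ℂ) ≠ 0 := by exact_mod_cast hN.ne'
  have h1 : τ = (N : ℂ) * (τ / N) := by
    rw [mul_div_cancel₀ _ hNC]
  have h2 : τ.im = N * (τ / N).im := by
    conv_lhs => rw [h1]
    rw [him]
  have h3 := hlow (τ / N) (by
    rw [h2] at hτ
    exact le_of_mul_le_mul_left hτ hN')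
  simp only [hf] at h3
  rw [← h1] at h3
  refine le_trans (le_of_eq ?_) h3
  congr 3
  rw [h2]
  field_simp

/-- bound of the normalised function on the slice, with a linear exponent -/
theorem CM.gp_slice (hKD : JobKD) (h : PosSymm G) (H : CM G k F φ C m)
    (X : Fin 20 → ℤ) {N : ℕ} (hN : 0 < N) (hx : Short G (xr X N)) (y : Fin 20 → ℝ)
    {η : ℝ} (hη : 0 < η) (w₀ : ℝ) :
    ∃ K T₁ : ℝ, 0 < K ∧ 1 ≤ T₁ ∧ ∀ τ : ℂ, T₁ ≤ τ.im →
      φ C (sl (xr X N) y τ) ≠ 0 ∧ ∀ w : ℝ, η ≤ w → w ≤ w₀ → ∀ s : ℂ,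
      ‖s‖ ≤ Real.exp (-(2 * Real.pi * ((w + bf G (xr X N) (xr X N) / 2) * τ.im))) →
      ‖gp φ C m (sl (xr X N) y τ) s‖ ≤ Real.exp (K * τ.im) := by
  set x := xr X N with hxdef
  obtain ⟨M, hM0, hM⟩ := F_bound hKD h H.tf X hN hη
  obtain ⟨c, a, T₁, hc, hlow⟩ := H.lower hKD h X hN hx y
  have hq := h.nonneg x
  have hpi := Real.pi_pos
  set K := |Real.log (M / c)| + 2 * Real.pi * (|w₀| + bf G x x / 2) * C + |a| + 1 with hK
  have hK0 : 0 < K := by rw [hK]; positivity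
  refine ⟨K, max T₁ 1, hK0, le_max_right _ _, fun τ hτ => ?_⟩
  have hT1 : T₁ ≤ τ.im := (le_max_left _ _).trans hτ
  have hT2 : 1 ≤ τ.im := (le_max_right _ _).trans hτ
  have hT0 : 0 < τ.im := by linarith
  have hne : φ C (sl x y τ) ≠ 0 :=
    leading_ne_zero h H.tf H.fd H.hC H.hne (sl_mem x y hT0) (sl_not_mir hx y hT0)
  refine ⟨hne, fun w hw1 hw2 s hs => ?_⟩
  set v := (w + bf G x x / 2) * τ.im with hv
  have hbv : bh G (sl x y τ) < v := by
    rw [bh_sl x y hT0, hv]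
    nlinarith
  have h1 := H.gp_bound (sl_mem x y hT0) hne hbv (M := M) (fun ω hω => hM y τ ω hT2 (by
    rw [hω, hv]
    nlinarith)) hs
  refine h1.trans ?_
  have h2 := hlow τ hT1
  have h3 : 0 < c * Real.exp (-(a * τ.im)) := by positivity
  calc M * Real.exp (2 * Real.pi * v * C) / ‖φ C (sl x y τ)‖ ≤
      M * Real.exp (2 * Real.pi * v * C) / (c * Real.exp (-(a * τ.im))) := by gcongr
    _ = (M / c) * Real.exp (2 * Real.pi * v * C + a * τ.im) := by
        rw [Real.exp_add, Real.exp_neg]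
        field_simp
    _ ≤ Real.exp |Real.log (M / c)| * Real.exp (2 * Real.pi * v * C + a * τ.im) := by
        gcongr
        calc M / c = Real.exp (Real.log (M / c)) := (Real.exp_log (by positivity)).symm
          _ ≤ _ := Real.exp_le_exp.2 (le_abs_self _)
    _ = Real.exp (|Real.log (M / c)| + (2 * Real.pi * v * C + a * τ.im)) :=
        (Real.exp_add _ _).symm
    _ ≤ Real.exp (K * τ.im) := by
        apply Real.exp_le_exp.2
        have e1 : |Real.log (M / c)| ≤ |Real.log (M / c)| * τ.im := by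
          nlinarith [abs_nonneg (Real.log (M / c))]
        have e2 : a * τ.im ≤ |a| * τ.im := mul_le_mul_of_nonneg_right (le_abs_self a) hT0.le
        have e3 : 2 * Real.pi * v * C ≤ 2 * Real.pi * (|w₀| + bf G x x / 2) * C * τ.im := by
          rw [hv]
          have : (w + bf G x x / 2) * τ.im ≤ (|w₀| + bf G x x / 2) * τ.im := by
            apply mul_le_mul_of_nonneg_right _ hT0.le
            linarith [le_abs_self w₀]
          calc 2 * Real.pi * ((w + bf G x x / 2) * τ.im) * C ≤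
              2 * Real.pi * ((|w₀| + bf G x x / 2) * τ.im) * C := by gcongr
            _ = _ := by ring
        rw [hK]
        nlinarith

/-- zeros of the normalised function -/
theorem CM.gp_zero (H : CM G k F φ C m) {p : ℂ × (Fin 20 → ℂ)} (hp : p ∈ UP) (h0 : φ C p ≠ 0)
    {v : ℝ} (hv : bh G p < v) {s : ℂ} (hs : ‖s‖ ≤ Real.exp (-(2 * Real.pi * v)))
    (hz : gp φ C m p s = 0) : ∃ ω : ℂ, ee ω = s ∧ v ≤ ω.im ∧ F (ω, p) = 0 := by
  have hpi := Real.pi_pos
  have hs0 : s ≠ 0 := by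
    rintro rfl
    simp [gp, H.hm.ne'] at hz
  obtain ⟨ω, hω, him⟩ := exists_ee hs0
  have h1 : v ≤ ω.im := by
    rw [him, le_div_iff₀ (by positivity)]
    have := Real.log_le_log (norm_pos_iff.2 hs0) hs
    rw [Real.log_exp] at this
    linarith
  refine ⟨ω, hω, h1, ?_⟩
  rw [← hω, H.gp_eq hp h0 (lt_of_lt_of_le hv h1)] at hz
  rcases div_eq_zero_iff.1 hz with h2 | h2
  · rcases mul_eq_zero.1 h2 with h3 | h3
    · exact h3
    · exact absurd h3 (ee_ne_zero _)
  · exact absurd h2 h0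

/-- **bound of the Jacobi form on a slice without zeros high up** -/
theorem CM.c_bound (hBC : JobBC) (hKD : JobKD) (h : PosSymm G) (H : CM G k F φ C m)
    {c : ℂ → (Fin 20 → ℂ) → ℂ} (hc : ∀ τ z, 0 < τ.im → φ (C + m) (τ, z) = φ C (τ, z) * c τ z)
    (X : Fin 20 → ℤ) {N : ℕ} (hN : 0 < N) (hx : Short G (xr X N)) (y : Fin 20 → ℝ)
    {w : ℝ} (hw : 0 < w) {T₀ : ℝ} (hfree : ∀ τ ω : ℂ, T₀ ≤ τ.im →
      (w + bf G (xr X N) (xr X N) / 2) * τ.im < ω.im → F (ω, sl (xr X N) y τ) ≠ 0) :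
    ∃ K T₁ : ℝ, 0 < K ∧ 1 ≤ T₁ ∧ ∀ τ : ℂ, T₁ ≤ τ.im →
      ‖c τ (sl (xr X N) y τ).2‖ ≤ K * τ.im *
        Real.exp (2 * Real.pi * m * (w + bf G (xr X N) (xr X N) / 2) * τ.im) := by
  set x := xr X N with hxdef
  obtain ⟨K, T₁, hK0, hT1, hK⟩ := H.gp_slice hKD h X hN hx y hw w
  have hpi := Real.pi_pos
  have hq := h.nonneg x
  refine ⟨2 * K * 2 ^ m, max T₁ T₀, by positivity, hT1.trans (le_max_left _ _), fun τ hτ => ?_⟩
  have ht1 : T₁ ≤ τ.im := (le_max_left _ _).trans hτ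
  have ht0 : T₀ ≤ τ.im := (le_max_right _ _).trans hτ
  have hT0 : 0 < τ.im := by linarith
  obtain ⟨hne, hgb⟩ := hK τ ht1
  set p := sl x y τ with hpdef
  have hp : p ∈ UP := sl_mem x y hT0
  set v := (w + bf G x x / 2) * τ.im with hv
  have hbv : bh G p < v := by
    rw [hpdef, bh_sl x y hT0, hv]
    nlinarith
  set R := Real.exp (-(2 * Real.pi * v)) with hR
  have hR0 : 0 < R := Real.exp_pos _
  have hRR : R < Real.exp (-(2 * Real.pi * bh G p)) := by
    rw [hR, Real.exp_lt_exp]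
    nlinarith
  have hHd := H.Hs_diff hp
  have hcont : ContinuousAt (fun s => Hs φ C m p s / φ C p) 0 := by
    have : DifferentiableAt ℂ (Hs φ C m p) 0 :=
      hHd.differentiableAt (Metric.isOpen_ball.mem_nhds (Metric.mem_ball_self (Real.exp_pos _)))
    exact (this.div_const _).continuousAt
  have key := hBC m R (K * τ.im) (gp φ C m p) (fun s => Hs φ C m p s / φ C p) H.hm hR0
    (by positivity) ((H.gp_diff hp).mono (Metric.ball_subset_ball hRR.le)) hcont
    (fun s _ => rfl) (by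
      intro s hs hz
      rw [Metric.mem_ball, dist_zero_right] at hs
      -- strict
      have hs0 : s ≠ 0 := by
        rintro rfl
        simp [gp, H.hm.ne'] at hz
      obtain ⟨ω, hω, him⟩ := exists_ee hs0
      have h1 : v < ω.im := by
        rw [him, lt_div_iff₀ (by positivity)]
        have := Real.log_lt_log (norm_pos_iff.2 hs0) hs
        rw [hR, Real.log_exp] at this
        linarith
      rw [← hω, H.gp_eq hp hne (hbv.trans h1)] at hz
      rcases div_eq_zero_iff.1 hz with h2 | h2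
      · rcases mul_eq_zero.1 h2 with h3 | h3
        · exact hfree τ ω ht0 h1 h3
        · exact absurd h3 (ee_ne_zero _)
      · exact absurd h2 hne) (by
      intro s hs
      rw [Metric.mem_ball, dist_zero_right] at hs
      exact hgb w le_rfl le_rfl s hs.le)
  simp only [Hs_zero, norm_div] at key
  have h1 : φ (C + m) p = φ C p * c τ p.2 := hc τ p.2 hT0
  have hnp : 0 < ‖φ C p‖ := norm_pos_iff.2 hne
  rw [h1, norm_mul, mul_div_cancel_left₀ _ hnp.ne'] at key
  refine key.trans (le_of_eq ?_)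
  rw [div_pow, hR, ← Real.exp_nat_mul, div_eq_mul_inv, ← Real.exp_neg]
  have e1 : -((m : ℝ) * -(2 * Real.pi * v)) = 2 * Real.pi * m * (w + bf G x x / 2) * τ.im := by
    rw [hv]; ring
  rw [e1]
  ring

end

end Pool.Agent.Y813.RL
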