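import Pool.Agent.Y813.RL.SZ
import Pool.Agent.Y813.RL.Pol

set_option autoImplicit false

/-!
# The gap of the two leading Fourier-Jacobi coefficients is one: preparations
-/

namespace Pool.Agent.Y813.RL

open Complex Set Finset Topology

noncomputable section

variable {G : Matrix (Fin 20) (Fin 20) ℤ}

theorem ee_int_mul_add (b : ℤ) (x : ℂ) : ee (x + b) = ee x := by
  rw [ee_add, ee_int, mul_one]

/-- a finite set of roots of unity -/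
def Eset (B : ℕ) : Finset ℂ :=
  (Finset.range (B + 1)).biUnion fun M => (Finset.range M).image fun b : ℕ => ee (-((b : ℂ) / M))

theorem Eset_card (B : ℕ) : (Eset B).card * 2 ≤ (B + 1) * B := by
  unfold Eset
  have h1 : ((Finset.range (B + 1)).biUnion fun M => (Finset.range M).image fun b : ℕ =>
      ee (-((b : ℂ) / M))).card ≤ ∑ M ∈ Finset.range (B + 1), M := by
    refine Finset.card_biUnion_le.trans (Finset.sum_le_sum fun M _ => ?_)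
    exact Finset.card_image_le.trans (by simp)
  have h2 := Finset.sum_range_id_mul_two (B + 1)
  simp only [Nat.add_sub_cancel] at h2
  rw [← h2]
  exact Nat.mul_le_mul_right 2 h1

theorem Eset_norm (B : ℕ) : ∀ ε ∈ Eset B, ‖ε‖ = 1 := by
  intro ε hε
  unfold Eset at hε
  simp only [Finset.mem_biUnion, Finset.mem_image] at hε
  obtain ⟨M, _, b, _, rfl⟩ := hε
  rw [norm_ee]
  have : (-((b : ℂ) / M)).im = 0 := by
    have e : -((b : ℂ) / M) = ((-((b : ℝ) / M) : ℝ) : ℂ) := by push_cast; ring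
    rw [e, Complex.ofReal_im]
  rw [this]
  simp

theorem mem_Eset {B : ℕ} {M : ℤ} (h1 : 1 ≤ M) (h2 : M ≤ B) (b : ℤ) :
    ee (-((b : ℂ) / M)) ∈ Eset B := by
  obtain ⟨K, rfl⟩ : ∃ K : ℕ, M = K := ⟨M.toNat, by omega⟩
  have hK : (0 : ℤ) < K := by omega
  have hKC : (K : ℂ) ≠ 0 := by
    have : K ≠ 0 := by omega
    exact_mod_cast this
  have e1 := Int.emod_nonneg b hK.ne'
  have e2 := Int.emod_lt_of_pos b hK
  obtain ⟨c, hc⟩ : ∃ c : ℕ, b % K = c := ⟨(b % K).toNat, by omega⟩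
  rw [hc] at e2
  unfold Eset
  simp only [Finset.mem_biUnion, Finset.mem_image, Finset.mem_range]
  refine ⟨K, by omega, c, by omega, ?_⟩
  have e3 : (b : ℂ) = K * ((b / K : ℤ) : ℂ) + c := by
    have := Int.mul_ediv_add_emod b K
    rw [hc] at this
    exact_mod_cast this.symm
  have e4 : -((b : ℂ) / ((K : ℤ) : ℂ)) = -((c : ℂ) / K) + ((-(b / K) : ℤ) : ℂ) := by
    rw [e3]
    push_cast
    field_simp
    ring
  rw [e4, ee_int_mul_add]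

/-- the bound for `M` -/
theorem exists_B {m : ℕ} (hm : 2 ≤ m) : ∃ B : ℕ, (B + 1) * B < m * 2 ∧
    ∀ M : ℤ, 1 ≤ M → 4 * M ^ 2 < 5 * (m : ℤ) → M ≤ B := by
  refine ⟨Nat.sqrt ((5 * m - 1) / 4), ?_, ?_⟩
  · set B := Nat.sqrt ((5 * m - 1) / 4) with hB
    have h1 : B ^ 2 ≤ (5 * m - 1) / 4 := Nat.sqrt_le' _
    have h2 : 4 * B ^ 2 < 5 * m := by
      have := (Nat.le_div_iff_mul_le (by norm_num : 0 < 4)).1 h1
      omega
    rcases Nat.lt_or_ge B 2 with h3 | h3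
    · interval_cases B <;> omega
    · nlinarith
  · intro M h1 h2
    obtain ⟨K, rfl⟩ : ∃ K : ℕ, M = K := ⟨M.toNat, by omega⟩
    have h3 : 4 * K ^ 2 < 5 * m := by exact_mod_cast h2
    have h4 : K ≤ Nat.sqrt ((5 * m - 1) / 4) := by
      rw [Nat.le_sqrt', Nat.le_div_iff_mul_le (by norm_num : 0 < 4)]
      omega
    exact_mod_cast h4

/-- the value of a wall -/
def val (G : Matrix (Fin 20) (Fin 20) ℤ) (M n : ℤ) (μ : Fin 20 → ℤ) : ℝ := bd G μ μ / 2 - M * n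

theorem nu_val (b M n : ℤ) (μ : Fin 20 → ℤ) : nu G 0 b M n μ = val G M n μ := by
  unfold nu val
  push_cast
  ring

/-- the wall types of height at least `η` -/
def WS (G : Matrix (Fin 20) (Fin 20) ℤ) (x : Fin 20 → ℝ) (η : ℝ) : Set (ℤ × (ℤ × (Fin 20 → ℤ))) :=
  {q | 1 ≤ q.1 ∧ 0 < val G q.1 q.2.1 q.2.2 ∧ val G q.1 q.2.1 q.2.2 ≤ 1 ∧ ∃ H : ℝ, η ≤ H ∧
    (q.1 : ℝ) * (H + bf G x x / 2) = -((q.2.1 : ℝ) + dt q.2.2 x) ∧
    val G q.1 q.2.1 q.2.2 = (q.1 : ℝ) ^ 2 * H +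
      bf G (lam G q.2.2 + (q.1 : ℝ) • x) (lam G q.2.2 + (q.1 : ℝ) • x) / 2}

theorem WS_M (h : PosSymm G) {x : Fin 20 → ℝ} {η : ℝ} {q : ℤ × (ℤ × (Fin 20 → ℤ))}
    (hq : q ∈ WS G x η) : (q.1 : ℝ) ^ 2 * η ≤ 1 := by
  obtain ⟨h1, h2, h3, H, h4, -, h5⟩ := hq
  have h6 := h.nonneg (lam G q.2.2 + (q.1 : ℝ) • x)
  have h7 : (0 : ℝ) ≤ (q.1 : ℝ) ^ 2 := sq_nonneg _
  nlinarith

theorem WS_bd (h : PosSymm G) {x : Fin 20 → ℝ} {η : ℝ} (hη : 0 < η) {q : ℤ × (ℤ × (Fin 20 → ℤ))}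
    (hq : q ∈ WS G x η) : bd G q.2.2 q.2.2 ≤ 4 + 2 * bf G x x / η := by
  have hM := WS_M h hq
  obtain ⟨h1, h2, h3, H, h4, -, h5⟩ := hq
  set u := lam G q.2.2 with hu
  set M : ℝ := (q.1 : ℝ) with hMdef
  have h6 := h.nonneg (u + M • x)
  have h7 : (0 : ℝ) ≤ M ^ 2 := sq_nonneg _
  have h8 := h.nonneg (u + (2 * M) • x)
  have h9 := h.nonneg x
  have e1 : bf G (u + M • x) (u + M • x) = bf G u u + 2 * M * bf G u x + M ^ 2 * bf G x x := by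
    rw [bf_add_left, bf_add_right, bf_add_right, bf_smul_left, bf_smul_left, bf_smul_right,
      bf_smul_right, bf_comm h.symm x u]
    ring
  have e2 : bf G (u + (2 * M) • x) (u + (2 * M) • x) =
      bf G u u + 4 * M * bf G u x + 4 * M ^ 2 * bf G x x := by
    rw [bf_add_left, bf_add_right, bf_add_right, bf_smul_left, bf_smul_left, bf_smul_right,
      bf_smul_right, bf_comm h.symm x u]
    ring
  rw [← bf_lam_lam h, ← hu]
  have h10 : M ^ 2 * bf G x x ≤ bf G x x / η := by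
    rw [le_div_iff₀ hη]
    nlinarith
  have h11 : bf G (u + M • x) (u + M • x) ≤ 2 := by nlinarith
  have h12 : 2 * bf G x x / η = 2 * (bf G x x / η) := by ring
  rw [h12]
  nlinarith

theorem WS_finite (h : PosSymm G) (x : Fin 20 → ℝ) {η : ℝ} (hη : 0 < η) :
    (WS G x η).Finite := by
  obtain ⟨K, hK⟩ := exists_nat_gt (1 / η)
  obtain ⟨K', hK'⟩ := exists_nat_gt ((4 + 2 * bf G x x / η) / 2 + 1)
  refine (((Set.finite_Icc (1 : ℤ) K).prod ((Set.finite_Icc (-(K' : ℤ)) K').prod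
    (short_finite h (4 + 2 * bf G x x / η)))).subset ?_)
  rintro ⟨M, n, μ⟩ hq
  have h1 := WS_M h hq
  have h2 := WS_bd h hη hq
  obtain ⟨h3, h4, h5, -⟩ := hq
  simp only at h1 h2 h3 h4 h5
  have h3' : (1 : ℝ) ≤ M := by exact_mod_cast h3
  have h6 : (M : ℝ) < K := by
    refine lt_of_le_of_lt ?_ hK
    rw [le_div_iff₀ hη]
    nlinarith
  unfold val at h4 h5
  have hbd0 : 0 ≤ bd G μ μ := by rw [← bf_lam_lam h]; exact h.nonneg _
  have h7 : |(M : ℝ) * n| ≤ (4 + 2 * bf G x x / η) / 2 + 1 := by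
    rw [abs_le]
    constructor <;> linarith
  have h8 : |(n : ℝ)| ≤ |(M : ℝ) * n| := by
    rw [abs_mul, abs_of_nonneg (by linarith : (0 : ℝ) ≤ M)]
    nlinarith [abs_nonneg (n : ℝ)]
  have h9 : |(n : ℝ)| < K' := by linarith
  have h10 : |n| < (K' : ℤ) := by
    have : ((|n| : ℤ) : ℝ) < ((K' : ℤ) : ℝ) := by push_cast; exact h9
    exact_mod_cast this
  have h11 := abs_lt.1 h10
  refine ⟨⟨h3, ?_⟩, ⟨⟨h11.1.le, h11.2.le⟩, h2⟩⟩
  have : M < (K : ℤ) := by exact_mod_cast h6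
  exact this.le

/-- the heights -/
def HS (G : Matrix (Fin 20) (Fin 20) ℤ) (x : Fin 20 → ℝ) (η : ℝ) : Set ℝ :=
  (fun q : ℤ × (ℤ × (Fin 20 → ℤ)) => -((q.2.1 : ℝ) + dt q.2.2 x) / q.1 - bf G x x / 2) '' WS G x η

theorem HS_finite (h : PosSymm G) (x : Fin 20 → ℝ) {η : ℝ} (hη : 0 < η) : (HS G x η).Finite :=
  (WS_finite h x hη).image _

/-- finite sets of reals have a positive gap -/
theorem exists_gap {S : Set ℝ} (hS : S.Finite) {η : ℝ} (hη : 0 < η) : ∃ δ : ℝ, 0 < δ ∧ δ < η ∧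
    ∀ a ∈ S, ∀ b ∈ S, a ≠ b → δ < |a - b| := by
  have hD : ((fun q : ℝ × ℝ => |q.1 - q.2|) '' ((S ×ˢ S) ∩ {q | q.1 ≠ q.2})).Finite :=
    ((hS.prod hS).inter_of_left _).image _
  have hev : ∀ᶠ δ in 𝓝[>] (0 : ℝ), ∀ d ∈ ((fun q : ℝ × ℝ => |q.1 - q.2|) ''
      ((S ×ˢ S) ∩ {q | q.1 ≠ q.2})), δ < d := by
    rw [Filter.eventually_all_finite hD]
    rintro d ⟨⟨a, b⟩, ⟨_, hne⟩, rfl⟩
    have : 0 < |a - b| := abs_pos.2 (sub_ne_zero.2 hne)
    exact (eventually_lt_nhds this).filter_mono nhdsWithin_le_nhds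
  have hev2 : ∀ᶠ δ in 𝓝[>] (0 : ℝ), δ < η := (eventually_lt_nhds hη).filter_mono nhdsWithin_le_nhds
  have hev3 : ∀ᶠ δ in 𝓝[>] (0 : ℝ), 0 < δ := eventually_mem_nhdsWithin
  obtain ⟨δ, h1, h2, h3⟩ := (hev.and (hev2.and hev3)).exists
  exact ⟨δ, h3, h2, fun a ha b hb hne => h1 _ ⟨(a, b), ⟨⟨ha, hb⟩, hne⟩, rfl⟩⟩

/-- zeros on slices define wall types -/
theorem slice_WS (h : PosSymm G) {k : ℤ} {F : TP → ℂ} (hF : TubeForm G k F) {x : Fin 20 → ℝ}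
    (hx : Short G x) (y : Fin 20 → ℝ) {τ ω : ℂ} (hτ : 0 < τ.im) {η : ℝ} (hη : 0 < η)
    (hT : 1 < τ.im ^ 2 * η) (hht : η ≤ ω.im / τ.im - bf G x x / 2) (hz : F (ω, sl x y τ) = 0) :
    ∃ (b M n : ℤ) (μ : Fin 20 → ℤ), (M, (n, μ)) ∈ WS G x η ∧
      (M : ℂ) * ω = -((b : ℂ) + (n * τ + dt μ (sl x y τ).2)) ∧
      ω.im / τ.im - bf G x x / 2 = -((n : ℝ) + dt μ x) / M - bf G x x / 2 := by
  obtain ⟨b, M, n, μ, h1, h2, h3, h4⟩ := slice_zero h hF hx y hτ hη hT hht hz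
  have h5 := wall_im hτ h3
  have h6 := nu_le_one h2
  rw [nu_val] at h4 h6
  have hM : (0 : ℝ) < M := by exact_mod_cast h1
  refine ⟨b, M, n, μ, ⟨h1, h6.1, h6.2, _, hht, ?_, h4⟩, ?_, ?_⟩
  · simp only
    rw [← h5]
    ring
  · unfold WEq at h3
    have e : (sl x y τ).1 = τ := rfl
    rw [e] at h3
    push_cast at h3
    linear_combination h3
  · rw [← h5]
    field_simp

theorem HS_WS {x : Fin 20 → ℝ} {η : ℝ} {q : ℤ × (ℤ × (Fin 20 → ℤ))} (hq : q ∈ WS G x η) :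
    η ≤ -((q.2.1 : ℝ) + dt q.2.2 x) / q.1 - bf G x x / 2 ∧
    (q.1 : ℝ) ^ 2 * (-((q.2.1 : ℝ) + dt q.2.2 x) / q.1 - bf G x x / 2) ≤
      1 - bf G (lam G q.2.2 + (q.1 : ℝ) • x) (lam G q.2.2 + (q.1 : ℝ) • x) / 2 := by
  obtain ⟨h1, h2, h3, H, h4, h5, h6⟩ := hq
  have hM : (0 : ℝ) < q.1 := by exact_mod_cast h1
  have h7 : -((q.2.1 : ℝ) + dt q.2.2 x) / q.1 - bf G x x / 2 = H := by
    rw [← h5]
    field_simp
    ring
  rw [h7]
  exact ⟨h4, by linarith⟩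

end

end Pool.Agent.Y813.RL
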