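import Pool.Agent.Y813.RL.Bf
import Pool.Agent.Y813.RL.Defs

set_option autoImplicit false

/-!
# The tube domain and reflective forms on it: definitions
-/

namespace Pool.Agent.Y813.RL

open Complex Set

noncomputable section

/-- the points `(omega, (tau, z))` -/
abbrev TP := ℂ × (ℂ × (Fin 20 → ℂ))

/-- the lower bound for the imaginary part of `omega` -/
def bh (G : Matrix (Fin 20) (Fin 20) ℤ) (p : ℂ × (Fin 20 → ℂ)) : ℝ :=
  bf G (imv p.2) (imv p.2) / (2 * p.1.im)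

/-- `H x C^20` -/
def UP : Set (ℂ × (Fin 20 → ℂ)) := {p | 0 < p.1.im}

/-- the tube domain -/
def Hd (G : Matrix (Fin 20) (Fin 20) ℤ) : Set TP := {W | W.2 ∈ UP ∧ bh G W.2 < W.1.im}

/-- the bilinear form of `K = U + L(-1)` -/
def kf {R : Type*} [CommRing R] (G : Matrix (Fin 20) (Fin 20) ℤ)
    (X Y : R × (R × (Fin 20 → R))) : R :=
  X.1 * Y.2.1 + X.2.1 * Y.1 - bf G X.2.2 Y.2.2

/-- cast of integral vectors -/
def cK (e : ℤ × (ℤ × (Fin 20 → ℤ))) : TP := ((e.1 : ℂ), ((e.2.1 : ℂ), fun i => (e.2.2 i : ℂ)))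

/-- the norm condition of the walls -/
def WallData (G : Matrix (Fin 20) (Fin 20) ℤ) (a b m n : ℤ) (μ : Fin 20 → ℤ) : Prop :=
  (bd G μ μ / 2 - a * b - m * n = 1 ∧ ∃ v : Fin 20 → ℤ, μ = G.mulVec v) ∨
  (0 < bd G μ μ / 2 - a * b - m * n ∧ bd G μ μ / 2 - a * b - m * n ≤ 1 / 2)

/-- a reflective modular form with trivial character in tube coordinates -/
structure TubeForm (G : Matrix (Fin 20) (Fin 20) ℤ) (k : ℤ) (F : TP → ℂ) : Prop where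
  holo : DifferentiableOn ℂ F (Hd G)
  tr : ∀ W ∈ Hd G, ∀ (a b : ℤ) (v : Fin 20 → ℤ),
    F (W.1 + a, (W.2.1 + b, fun i => W.2.2 i + v i)) = F W
  ei : ∀ W ∈ Hd G, ∀ e u : ℤ × (ℤ × (Fin 20 → ℤ)), kf G e e = 0 → kf G e u = 0 →
    F (W + kf G (cK e) W • cK u -
      (kf G (cK u) W + ((kf G u u : ℤ) : ℂ) / 2 * kf G (cK e) W) • cK e) = F W
  S : ∀ W ∈ Hd G, F (W.1 - bf G W.2.2 W.2.2 / (2 * W.2.1), (-1 / W.2.1, fun i => W.2.2 i / W.2.1))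
    = W.2.1 ^ k * F W
  swap : ∀ W ∈ Hd G, F (W.2.1, (W.1, W.2.2)) = F W
  zeros : ∀ W ∈ Hd G, F W = 0 → ∃ (a b m n : ℤ) (μ : Fin 20 → ℤ), WallData G a b m n μ ∧
    (a : ℂ) * (bf G W.2.2 W.2.2 / 2 - W.1 * W.2.1) + b + m * W.1 + n * W.2.1 + dt μ W.2.2 = 0
  nonconst : ¬ ∃ c : ℂ, ∀ W ∈ Hd G, F W = c

end

end Pool.Agent.Y813.RL
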