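import Pool.Agent.Y813.RL.Tube1

set_option autoImplicit false

/-!
# Tube coordinates
-/

namespace Pool.Agent.Y813.RL

open Complex Set Finset Pool.Agent.Y813.Refl

noncomputable section

/-- vectors of `M` in coordinates -/
def mk {R : Type*} (a b c d : R) (z : Fin 20 → R) : Fin 4 ⊕ Fin 20 → R := Sum.elim ![a, b, c, d] z

theorem mk_eta {R : Type*} (x : Fin 4 ⊕ Fin 20 → R) :
    x = mk (x (.inl 0)) (x (.inl 1)) (x (.inl 2)) (x (.inl 3)) (fun i => x (.inr i)) := by
  funext i
  rcases i with i | i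
  · fin_cases i <;> rfl
  · rfl

theorem gramM_symm {G : Matrix (Fin 20) (Fin 20) ℤ} (hG : G.IsSymm) : (gramM G).IsSymm := by
  unfold gramM
  refine Matrix.IsSymm.fromBlocks ?_ ?_ ?_
  · unfold Matrix.IsSymm gramUU
    decide
  · simp
  · unfold Matrix.IsSymm at *
    simp [hG]

theorem bf_mk {R : Type*} [CommRing R] (G : Matrix (Fin 20) (Fin 20) ℤ) (a b c d a' b' c' d' : R)
    (z z' : Fin 20 → R) :
    bf (gramM G) (mk a b c d z) (mk a' b' c' d' z') =
      a * b' + b * a' + c * d' + d * c' - bf G z z' := by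
  simp only [bf, Fintype.sum_sum_type, mk, Sum.elim_inl, Sum.elim_inr, gramM,
    Matrix.fromBlocks_apply₁₁, Matrix.fromBlocks_apply₁₂, Matrix.fromBlocks_apply₂₁,
    Matrix.fromBlocks_apply₂₂, gramUU, Fin.sum_univ_four]
  simp
  ring

variable (G : Matrix (Fin 20) (Fin 20) ℤ)

/-- the point of the quadric with tube coordinates `W` -/
def ZW (W : TP) : Fin 4 ⊕ Fin 20 → ℂ :=
  mk 1 (bf G W.2.2 W.2.2 / 2 - W.1 * W.2.1) W.1 W.2.1 W.2.2

theorem conj_mk (a b c d : ℂ) (z : Fin 20 → ℂ) :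
    (fun i => (starRingEnd ℂ) (mk a b c d z i)) =
      mk (starRingEnd ℂ a) (starRingEnd ℂ b) (starRingEnd ℂ c) (starRingEnd ℂ d)
        (fun i => starRingEnd ℂ (z i)) := by
  funext i
  rcases i with i | i
  · fin_cases i <;> rfl
  · rfl

theorem smul_mk (t a b c d : ℂ) (z : Fin 20 → ℂ) :
    (fun i => t * mk a b c d z i) = mk (t * a) (t * b) (t * c) (t * d) (fun i => t * z i) := by
  funext i
  rcases i with i | i
  · fin_cases i <;> rfl
  · rfl

theorem bf_conj_re (z : Fin 20 → ℂ) :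
    (bf G z (fun i => starRingEnd ℂ (z i))).re = bf G (rev z) (rev z) + bf G (imv z) (imv z) := by
  rw [bf_re]
  have h1 : rev (fun i => starRingEnd ℂ (z i)) = rev z := by funext i; simp [rev]
  have h2 : imv (fun i => starRingEnd ℂ (z i)) = -imv z := by funext i; simp [imv]
  rw [h1, h2, bf_neg_right]
  ring

theorem mem_quadric {Z : Fin 4 ⊕ Fin 20 → ℂ} : Z ∈ quadric (gramM G) ↔
    bf (gramM G) Z Z = 0 ∧ 0 < (bf (gramM G) Z (fun i => (starRingEnd ℂ) (Z i))).re := Iff.rfl

theorem quadric_mk (a b c d : ℂ) (z : Fin 20 → ℂ) : mk a b c d z ∈ quadric (gramM G) ↔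
    2 * (a * b + c * d) = bf G z z ∧
      bf G (rev z) (rev z) + bf G (imv z) (imv z) <
        2 * (a * starRingEnd ℂ b + c * starRingEnd ℂ d).re := by
  rw [mem_quadric, conj_mk, bf_mk, bf_mk]
  simp only [Complex.sub_re, bf_conj_re]
  refine and_congr ⟨fun h => by linear_combination h, fun h => by linear_combination h⟩ ?_
  have : (a * (starRingEnd ℂ) b + b * (starRingEnd ℂ) a + c * (starRingEnd ℂ) d +
      d * (starRingEnd ℂ) c).re = 2 * (a * starRingEnd ℂ b + c * starRingEnd ℂ d).re := by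
    simp [Complex.mul_re]
    ring
  rw [this]
  constructor <;> intro h <;> linarith

theorem ZW_mem {W : TP} (hτ : 0 < W.2.1.im) :
    ZW G W ∈ quadric (gramM G) ↔ bh G W.2 < W.1.im := by
  rw [ZW, quadric_mk, bh, div_lt_iff₀ (by positivity)]
  constructor
  · rintro ⟨_, h⟩
    simp only [one_mul, map_sub, map_mul, Complex.add_re, Complex.sub_re, Complex.conj_re,
      Complex.mul_re, Complex.conj_im, map_div₀] at h
    have h2 : ((starRingEnd ℂ) (bf G W.2.2 W.2.2) / (starRingEnd ℂ) 2).re =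
        (bf G (rev W.2.2) (rev W.2.2) - bf G (imv W.2.2) (imv W.2.2)) / 2 := by
      rw [← bf_re]
      have : (starRingEnd ℂ) (2 : ℂ) = ((2 : ℝ) : ℂ) := by
        rw [← Complex.conj_ofReal]; simp
      rw [this, Complex.div_ofReal_re, Complex.conj_re]
    rw [h2] at h
    linarith
  · intro h
    refine ⟨by ring, ?_⟩
    simp only [one_mul, map_sub, map_mul, Complex.add_re, Complex.sub_re, Complex.conj_re,
      Complex.mul_re, Complex.conj_im, map_div₀]
    have h2 : ((starRingEnd ℂ) (bf G W.2.2 W.2.2) / (starRingEnd ℂ) 2).re =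
        (bf G (rev W.2.2) (rev W.2.2) - bf G (imv W.2.2) (imv W.2.2)) / 2 := by
      rw [← bf_re]
      have : (starRingEnd ℂ) (2 : ℂ) = ((2 : ℝ) : ℂ) := by
        rw [← Complex.conj_ofReal]; simp
      rw [this, Complex.div_ofReal_re, Complex.conj_re]
    rw [h2]
    linarith

theorem eq_ZW {b c d : ℂ} {z : Fin 20 → ℂ} (h : mk 1 b c d z ∈ quadric (gramM G)) :
    mk 1 b c d z = ZW G (c, (d, z)) := by
  rw [quadric_mk] at h
  have : b = bf G z z / 2 - c * d := by linear_combination h.1 / 2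
  rw [this]
  rfl

/-- the base point -/
def W0 : TP := (Complex.I, (Complex.I, 0))

theorem ZW_W0 : ZW G W0 = Sum.elim ![1, 1, Complex.I, Complex.I] 0 := by
  have : bf G (0 : Fin 20 → ℂ) 0 = 0 := bf_zero_left _ _
  simp only [ZW, W0, this, mk]
  simp

theorem coneM_eq : coneM G = connectedComponentIn (quadric (gramM G)) (ZW G W0) := by
  rw [ZW_W0]
  rfl

end

end Pool.Agent.Y813.RL
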