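import Pool.Agent.Y813.RL.Tube2

set_option autoImplicit false

/-!
# The cone in tube coordinates
-/

namespace Pool.Agent.Y813.RL

open Complex Set Finset Pool.Agent.Y813.Refl

noncomputable section

variable {G : Matrix (Fin 20) (Fin 20) ℤ}

theorem convex_key (h : PosSymm G) {x y : Fin 20 → ℝ} {s t S T a b : ℝ} (hS : 0 < S) (hT : 0 < T)
    (ha : 0 ≤ a) (hb : 0 ≤ b) (hab : a + b = 1) (h1 : bf G x x < 2 * s * S)
    (h2 : bf G y y < 2 * t * T) :
    bf G (a • x + b • y) (a • x + b • y) < 2 * (a * s + b * t) * (a * S + b * T) := by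
  have e : bf G (a • x + b • y) (a • x + b • y) =
      a ^ 2 * bf G x x + 2 * (a * b) * bf G x y + b ^ 2 * bf G y y := by
    rw [bf_add_left, bf_add_right, bf_add_right, bf_smul_left, bf_smul_left, bf_smul_left,
      bf_smul_left, bf_smul_right, bf_smul_right, bf_smul_right, bf_smul_right,
      bf_comm h.symm y x]
    ring
  have hq := h.nonneg (T • x - S • y)
  have e2 : bf G (T • x - S • y) (T • x - S • y) =
      T ^ 2 * bf G x x - 2 * (S * T) * bf G x y + S ^ 2 * bf G y y := by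
    rw [bf_sub_left, bf_sub_right, bf_sub_right, bf_smul_left, bf_smul_left, bf_smul_left,
      bf_smul_left, bf_smul_right, bf_smul_right, bf_smul_right, bf_smul_right,
      bf_comm h.symm y x]
    ring
  rw [e2] at hq
  rw [e]
  have h3 : 2 * bf G x y ≤ 2 * (s * T + t * S) := by
    have : 2 * (S * T) * bf G x y ≤ T ^ 2 * (2 * s * S) + S ^ 2 * (2 * t * T) := by
      nlinarith [mul_le_mul_of_nonneg_left h1.le (sq_nonneg T),
        mul_le_mul_of_nonneg_left h2.le (sq_nonneg S)]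
    have h4 : (S * T) * (2 * bf G x y) ≤ (S * T) * (2 * (s * T + t * S)) := by linarith
    exact le_of_mul_le_mul_left h4 (by positivity)
  have h5 : 2 * (a * b) * bf G x y ≤ (a * b) * (2 * (s * T + t * S)) := by
    nlinarith [mul_le_mul_of_nonneg_left h3 (mul_nonneg ha hb)]
  rcases eq_or_lt_of_le ha with ha0 | ha0
  · have hb1 : b = 1 := by linarith
    subst hb1
    rw [← ha0]
    nlinarith
  · rcases eq_or_lt_of_le hb with hb0 | hb0
    · have ha1 : a = 1 := by linarith
      subst ha1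
      rw [← hb0]
      nlinarith
    · nlinarith [mul_lt_mul_of_pos_left h1 (pow_pos ha0 2), mul_lt_mul_of_pos_left h2 (pow_pos hb0 2)]

theorem mem_Hd {W : TP} : W ∈ Hd G ↔ 0 < W.2.1.im ∧
    bf G (imv W.2.2) (imv W.2.2) < 2 * W.1.im * W.2.1.im := by
  unfold Hd UP bh
  simp only [Set.mem_ofPred_eq]
  refine and_congr_right fun hT => ?_
  rw [div_lt_iff₀ (by positivity)]
  constructor <;> intro h <;> linarith

theorem convex_Hd (h : PosSymm G) : Convex ℝ (Hd G) := by
  intro W hW W' hW' a b ha hb hab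
  rw [mem_Hd] at *
  have e0 : (a • W + b • W').2.1.im = a * W.2.1.im + b * W'.2.1.im := by simp
  have e1 : (a • W + b • W').1.im = a * W.1.im + b * W'.1.im := by simp
  have e2 : imv (a • W + b • W').2.2 = a • imv W.2.2 + b • imv W'.2.2 := by
    funext i
    simp [imv]
  rw [e0, e1, e2]
  refine ⟨?_, convex_key h hW.1 hW'.1 ha hb hab hW.2 hW'.2⟩
  rcases eq_or_lt_of_le ha with ha0 | ha0
  · have : b = 1 := by linarith
    rw [← ha0, this]
    simpa using hW'.1
  · have := mul_pos ha0 hW.1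
    have := mul_nonneg hb hW'.1.le
    linarith

theorem continuous_imv : Continuous (imv : (Fin 20 → ℂ) → (Fin 20 → ℝ)) := by
  unfold imv
  fun_prop

theorem isOpen_Hd : IsOpen (Hd G) := by
  have : Hd G = {W | 0 < W.2.1.im ∧
      bf G (imv W.2.2) (imv W.2.2) < 2 * W.1.im * W.2.1.im} := by
    ext W; exact mem_Hd
  rw [this]
  have hc : Continuous fun W : TP => bf G (imv W.2.2) (imv W.2.2) := by
    have h1 : Continuous fun W : TP => imv W.2.2 := continuous_imv.comp (by fun_prop)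
    exact bf_contR G h1 h1
  exact (isOpen_lt continuous_const (by fun_prop : Continuous fun W : TP => W.2.1.im)).inter
    (isOpen_lt hc (by fun_prop : Continuous fun W : TP => 2 * W.1.im * W.2.1.im))

theorem continuous_mk {X : Type*} [TopologicalSpace X] {a b c d : X → ℂ} {z : X → Fin 20 → ℂ}
    (ha : Continuous a) (hb : Continuous b) (hc : Continuous c) (hd : Continuous d)
    (hz : Continuous z) : Continuous fun x => mk (a x) (b x) (c x) (d x) (z x) := by
  refine continuous_pi ?_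
  rintro (i | i)
  · match i with
    | 0 => exact ha
    | 1 => exact hb
    | 2 => exact hc
    | 3 => exact hd
  · exact (continuous_apply i).comp hz

theorem continuous_ZW : Continuous (ZW G) := by
  have h1 : Continuous fun W : TP => W.2.2 := by fun_prop
  have hc : Continuous fun W : TP => bf G W.2.2 W.2.2 := bf_contC G h1 h1
  exact continuous_mk continuous_const
    ((hc.div_const _).sub (by fun_prop : Continuous fun W : TP => W.1 * W.2.1))
    (by fun_prop) (by fun_prop) (by fun_prop)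

theorem W0_mem : W0 ∈ Hd G := by
  rw [mem_Hd]
  have : imv W0.2.2 = 0 := by funext i; simp [imv, W0]
  rw [this, bf_zero_left]
  simp [W0]

theorem ZW_mem_cone (h : PosSymm G) {W : TP} (hW : W ∈ Hd G) : ZW G W ∈ coneM G := by
  rw [coneM_eq]
  have hpre : IsPreconnected (ZW G '' Hd G) :=
    (convex_Hd h).isPreconnected.image _ continuous_ZW.continuousOn
  have hsub : ZW G '' Hd G ⊆ quadric (gramM G) := by
    rintro _ ⟨V, hV, rfl⟩
    exact (ZW_mem G hV.1).2 hV.2
  exact hpre.subset_connectedComponentIn ⟨W0, W0_mem, rfl⟩ hsub ⟨W, hW, rfl⟩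

theorem base_mem (G : Matrix (Fin 20) (Fin 20) ℤ) : ZW G W0 ∈ quadric (gramM G) :=
  (ZW_mem G (W0_mem (G := G)).1).2 W0_mem.2

/-- the sign function distinguishing the components -/
def sg (Z : Fin 4 ⊕ Fin 20 → ℂ) : ℝ := (Z (.inl 3) * starRingEnd ℂ (Z (.inl 0))).im

theorem norm_bf_self_le (h : PosSymm G) (z : Fin 20 → ℂ) :
    ‖bf G z z‖ ≤ bf G (rev z) (rev z) + bf G (imv z) (imv z) := by
  have h1 := bf_re G z z
  have h2 := bf_im G z z
  rw [bf_comm h.symm (imv z) (rev z)] at h2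
  have hcs := h.cs (rev z) (imv z)
  have ha := h.nonneg (rev z)
  have hb := h.nonneg (imv z)
  rw [Complex.norm_eq_sqrt_sq_add_sq, h1, h2]
  apply Real.sqrt_le_iff.2
  refine ⟨by positivity, ?_⟩
  nlinarith

theorem sg_ne_zero (h : PosSymm G) {Z : Fin 4 ⊕ Fin 20 → ℂ} (hZ : Z ∈ quadric (gramM G)) :
    sg Z ≠ 0 := by
  intro h0
  rw [mk_eta Z, quadric_mk] at hZ
  unfold sg at h0
  set a := Z (.inl 0)
  set b := Z (.inl 1)
  set c := Z (.inl 2)
  set d := Z (.inl 3)
  set z : Fin 20 → ℂ := fun i => Z (.inr i)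
  obtain ⟨hz1, hz2⟩ := hZ
  have hdc : starRingEnd ℂ d * a = d * starRingEnd ℂ a := by
    have := Complex.conj_eq_iff_im.2 h0
    rw [map_mul, Complex.conj_conj] at this
    exact this
  obtain ⟨l, hl, hla, hld⟩ : ∃ l : ℂ, ‖l‖ = 1 ∧ starRingEnd ℂ a = l * a ∧
      starRingEnd ℂ d = l * d := by
    by_cases ha : a = 0
    · by_cases hd : d = 0
      · exact ⟨1, by simp, by simp [ha], by simp [hd]⟩
      · refine ⟨starRingEnd ℂ d / d, ?_, by simp [ha], by field_simp⟩
        rw [norm_div, RCLike.norm_conj, div_self (norm_ne_zero_iff.2 hd)]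
    · refine ⟨starRingEnd ℂ a / a, ?_, by field_simp, ?_⟩
      · rw [norm_div, RCLike.norm_conj, div_self (norm_ne_zero_iff.2 ha)]
      · field_simp
        linear_combination hdc
  have e1 : (a * starRingEnd ℂ b + c * starRingEnd ℂ d).re = (l * (a * b + c * d)).re := by
    have : (a * starRingEnd ℂ b).re = (starRingEnd ℂ a * b).re := by
      simp [Complex.mul_re]
    rw [Complex.add_re, this, ← Complex.add_re, hla, hld]
    ring_nf
  have e2 : (l * (a * b + c * d)).re ≤ ‖a * b + c * d‖ := by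
    refine (Complex.re_le_norm _).trans ?_
    rw [norm_mul, hl, one_mul]
  have e3 : 2 * ‖a * b + c * d‖ = ‖bf G z z‖ := by
    rw [← hz1, norm_mul]
    simp
  have e4 := norm_bf_self_le h z
  rw [e1] at hz2
  linarith

theorem sg_pos (h : PosSymm G) {Z : Fin 4 ⊕ Fin 20 → ℂ} (hZ : Z ∈ coneM G) : 0 < sg Z := by
  have hcont : Continuous sg := by
    unfold sg
    fun_prop
  have hpre : IsPreconnected (sg '' coneM G) := by
    rw [coneM_eq]
    exact isPreconnected_connectedComponentIn.image _ hcont.continuousOn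
  have hbase : sg (ZW G W0) = 1 := by
    rw [ZW_W0]
    simp [sg]
  have hb : ZW G W0 ∈ coneM G := by
    rw [coneM_eq]
    exact mem_connectedComponentIn (base_mem G)
  by_contra hneg
  push Not at hneg
  have := hpre.Icc_subset ⟨Z, hZ, rfl⟩ ⟨ZW G W0, hb, rfl⟩ ⟨hneg, by rw [hbase]; norm_num⟩
  obtain ⟨V, hV, hV0⟩ := this
  have hVq : V ∈ quadric (gramM G) := by
    rw [coneM_eq] at hV
    exact connectedComponentIn_subset _ _ hV
  exact sg_ne_zero h hVq hV0

theorem cone_param (h : PosSymm G) {Z : Fin 4 ⊕ Fin 20 → ℂ} (hZ : Z ∈ coneM G) :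
    Z (.inl 0) ≠ 0 ∧ ∃ W ∈ Hd G, Z = fun i => Z (.inl 0) * ZW G W i := by
  have hs := sg_pos h hZ
  have hq : Z ∈ quadric (gramM G) := by
    rw [coneM_eq] at hZ
    exact connectedComponentIn_subset _ _ hZ
  have ha : Z (.inl 0) ≠ 0 := by
    intro h0
    simp [sg, h0] at hs
  refine ⟨ha, ?_⟩
  have hq' := hq
  rw [mk_eta Z, quadric_mk] at hq'
  have hZ' := mk_eta Z
  unfold sg at hs
  set a := Z (.inl 0)
  set b := Z (.inl 1)
  set c := Z (.inl 2)
  set d := Z (.inl 3)
  set z : Fin 20 → ℂ := fun i => Z (.inr i)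
  have e1 : (fun i => a⁻¹ * Z i) = mk 1 (a⁻¹ * b) (a⁻¹ * c) (a⁻¹ * d) (fun i => a⁻¹ * z i) := by
    conv_lhs => rw [hZ']
    rw [smul_mk, inv_mul_cancel₀ ha]
  have hmem : (fun i => a⁻¹ * Z i) ∈ quadric (gramM G) := by
    rw [mem_quadric] at hq ⊢
    have f1 : (fun i => a⁻¹ * Z i) = a⁻¹ • Z := by funext i; simp
    have f2 : (fun i => (starRingEnd ℂ) (a⁻¹ * Z i)) =
        (starRingEnd ℂ a⁻¹) • fun i => (starRingEnd ℂ) (Z i) := by
      funext i; simp
    rw [f1, f2, bf_smul_left, bf_smul_right, bf_smul_left, bf_smul_right, hq.1]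
    refine ⟨by simp, ?_⟩
    rw [← mul_assoc, Complex.mul_conj, Complex.re_ofReal_mul]
    exact mul_pos (Complex.normSq_pos.2 (inv_ne_zero ha)) hq.2
  rw [e1] at hmem
  have e2 := eq_ZW G hmem
  have hτ : 0 < (a⁻¹ * d).im := by
    have : a⁻¹ * d = (((Complex.normSq a)⁻¹ : ℝ) : ℂ) * (d * starRingEnd ℂ a) := by
      rw [Complex.inv_def]
      ring
    rw [this, Complex.im_ofReal_mul]
    exact mul_pos (inv_pos.2 (Complex.normSq_pos.2 ha)) hs
  refine ⟨(a⁻¹ * c, (a⁻¹ * d, fun i => a⁻¹ * z i)), ⟨hτ, ?_⟩, ?_⟩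
  · exact (ZW_mem G hτ).1 (e2 ▸ hmem)
  · rw [← e2, ← e1]
    funext i
    field_simp

end

end Pool.Agent.Y813.RL
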