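import Pool.Agent.Y813.RL.Tube3

set_option autoImplicit false

/-!
# Elements of the discriminant kernel
-/

namespace Pool.Agent.Y813.RL

open Complex Set Finset Pool.Agent.Y813.Refl

noncomputable section

section

variable {ι : Type} [Fintype ι] [DecidableEq ι] {B : Matrix ι ι ℤ}

omit [DecidableEq ι] in
theorem conj_act (g : Matrix ι ι ℤ) (Z : ι → ℂ) :
    (fun i => (starRingEnd ℂ) (act g Z i)) = act g (fun i => (starRingEnd ℂ) (Z i)) := by
  funext i
  simp [act]

theorem act_quadric {g : Matrix ι ι ℤ}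
    (h : ∀ x y : ι → ℤ, form B (act g x) (act g y) = form B x y) (Z : ι → ℂ) :
    act g Z ∈ quadric B ↔ Z ∈ quadric B := by
  unfold quadric
  rw [Set.mem_ofPred_eq, Set.mem_ofPred_eq, conj_act, form_act_of_int h, form_act_of_int h]

/-- the linear homeomorphism given by an integral matrix -/
def actH (g : Matrix.GeneralLinearGroup ι ℤ) : (ι → ℂ) ≃ₜ (ι → ℂ) where
  toFun := act g.val
  invFun := act (g⁻¹).val
  left_inv := fun x => by rw [← act_mul, ← Units.val_mul, inv_mul_cancel, Units.val_one, act_one]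
  right_inv := fun x => by rw [← act_mul, ← Units.val_mul, mul_inv_cancel, Units.val_one, act_one]
  continuous_toFun := by unfold act; fun_prop
  continuous_invFun := by unfold act; fun_prop

theorem mem_disc {Z₀ : ι → ℂ} (hZ₀ : Z₀ ∈ quadric B) {g : Matrix.GeneralLinearGroup ι ℤ}
    (h1 : ∀ x y : ι → ℤ, form B (act g.val x) (act g.val y) = form B x y)
    (h2 : act g.val Z₀ ∈ connectedComponentIn (quadric B) Z₀)
    (h3 : ∀ x : ι → ℚ, (∀ y : ι → ℤ, ∃ m : ℤ, form B x (fun i => (y i : ℚ)) = m) →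
      ∃ w : ι → ℤ, ∀ i, act g.val x i - x i = w i) :
    g ∈ discKernel B (connectedComponentIn (quadric B) Z₀) := by
  refine ⟨h1, fun Z => ?_, h3⟩
  have himg : actH g '' quadric B = quadric B := by
    ext Z
    constructor
    · rintro ⟨Y, hY, rfl⟩
      exact (act_quadric h1 Y).2 hY
    · intro hZ
      refine ⟨(actH g).symm Z, ?_, (actH g).apply_symm_apply Z⟩
      rw [← act_quadric h1]
      have : act g.val ((actH g).symm Z) = Z := (actH g).apply_symm_apply Z
      rwa [this]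
  have hcomp : actH g '' connectedComponentIn (quadric B) Z₀ =
      connectedComponentIn (quadric B) Z₀ := by
    rw [Homeomorph.image_connectedComponentIn _ hZ₀, himg]
    exact (connectedComponentIn_eq h2).symm
  constructor
  · intro hZ
    rw [← hcomp] at hZ
    obtain ⟨Y, hY, hYZ⟩ := hZ
    have : Y = Z := (actH g).injective hYZ
    rwa [← this]
  · intro hZ
    rw [← hcomp]
    exact ⟨Z, hZ, rfl⟩

omit [DecidableEq ι] in
theorem mem_quadric' {Z : ι → ℂ} : Z ∈ quadric B ↔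
    bf B Z Z = 0 ∧ 0 < (bf B Z (fun i => (starRingEnd ℂ) (Z i))).re := Iff.rfl

omit [DecidableEq ι] in
theorem path_mem {Z₀ : ι → ℂ} (γ : ℝ → ι → ℂ) (hγ : Continuous γ) (h0 : γ 0 = Z₀)
    (hq : ∀ s ∈ Icc (0 : ℝ) 1, γ s ∈ quadric B) :
    γ 1 ∈ connectedComponentIn (quadric B) Z₀ := by
  have hpre : IsPreconnected (γ '' Icc (0 : ℝ) 1) := isPreconnected_Icc.image _ hγ.continuousOn
  refine hpre.subset_connectedComponentIn ⟨0, by simp, h0⟩ ?_ ⟨1, by simp, rfl⟩
  rintro _ ⟨s, hs, rfl⟩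
  exact hq s hs

omit [DecidableEq ι] in
theorem conj_bf (x y : ι → ℂ) : starRingEnd ℂ (bf B x y) =
    bf B (fun i => starRingEnd ℂ (x i)) (fun i => starRingEnd ℂ (y i)) :=
  (bf_map B (starRingEnd ℂ) x y).symm

omit [DecidableEq ι] in
theorem tv_quadric (hB : B.IsSymm) {e a : ι → ℝ} {N : ℝ} (hee : bf B e e = 0)
    (hea : bf B e a = 0) (haa : bf B a a = 2 * N) {Z : ι → ℂ} (hZ : Z ∈ quadric B) :
    tv B (fun i => (e i : ℂ)) (fun i => (a i : ℂ)) (N : ℂ) Z ∈ quadric B := by
  have h1 : bf B (fun i => (e i : ℂ)) (fun i => (e i : ℂ)) = 0 := by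
    rw [bf_ofReal, hee]; simp
  have h2 : bf B (fun i => (e i : ℂ)) (fun i => (a i : ℂ)) = 0 := by
    rw [bf_ofReal, hea]; simp
  have h3 : bf B (fun i => (a i : ℂ)) (fun i => (a i : ℂ)) = 2 * (N : ℂ) := by
    rw [bf_ofReal, haa]; simp
  have hc : (fun i => (starRingEnd ℂ)
      (tv B (fun i => (e i : ℂ)) (fun i => (a i : ℂ)) (N : ℂ) Z i)) =
      tv B (fun i => (e i : ℂ)) (fun i => (a i : ℂ)) (N : ℂ)
        (fun i => (starRingEnd ℂ) (Z i)) := by
    have ha : ∀ w : ι → ℝ, starRingEnd ℂ (bf B (fun i => (w i : ℂ)) Z) =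
        bf B (fun i => (w i : ℂ)) (fun i => (starRingEnd ℂ) (Z i)) := by
      intro w
      rw [conj_bf]
      congr 1
      funext i
      simp
    funext i
    simp only [tv, Pi.add_apply, Pi.sub_apply, Pi.smul_apply, smul_eq_mul, map_add, map_sub,
      map_mul, ha, Complex.conj_ofReal]
  rw [mem_quadric'] at hZ ⊢
  rw [hc, tv_form hB h1 h2 h3, tv_form hB h1 h2 h3]
  exact hZ

theorem tvG_mem (hB : B.IsSymm) {Z₀ : ι → ℂ} (hZ₀ : Z₀ ∈ quadric B) {e a : ι → ℤ} {N : ℤ}
    (hee : bf B e e = 0) (hea : bf B e a = 0) (haa : bf B a a = 2 * N) :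
    tvG hB hee hea haa ∈ discKernel B (connectedComponentIn (quadric B) Z₀) := by
  have hee' : bf B (fun i => (e i : ℝ)) (fun i => (e i : ℝ)) = 0 := by
    rw [bf_intCast, hee]; simp
  have hea' : bf B (fun i => (e i : ℝ)) (fun i => (a i : ℝ)) = 0 := by
    rw [bf_intCast, hea]; simp
  have haa' : bf B (fun i => (a i : ℝ)) (fun i => (a i : ℝ)) = 2 * N := by
    rw [bf_intCast, haa]; simp
  apply mem_disc hZ₀
  · intro x y
    show bf B (act (tvM B e a N) x) (act (tvM B e a N) y) = bf B x y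
    rw [act_tvM hB, act_tvM hB]
    exact tv_form hB (by simpa using hee) (by simpa using hea) (by simpa using haa) x y
  · let γ : ℝ → ι → ℂ := fun s => tv B (fun i => ((e i : ℝ) : ℂ))
      (fun i => (((s * a i : ℝ)) : ℂ)) ((s ^ 2 * N : ℝ) : ℂ) Z₀
    have hγ1 : γ 1 = act (tvG hB hee hea haa).val Z₀ := by
      show _ = act (tvM B e a N) Z₀
      rw [act_tvM hB]
      simp only [γ]
      congr 1 <;> simp
    rw [← hγ1]
    apply path_mem γ
    · simp only [γ, tv]
      have : Continuous fun s : ℝ => bf B (fun i => (((s * a i : ℝ)) : ℂ)) Z₀ :=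
        bf_contC B (by fun_prop) continuous_const
      fun_prop
    · funext i
      have h0 : bf B (fun i => (((0 : ℝ) * a i : ℝ) : ℂ)) Z₀ = 0 := by
        have : (fun i => (((0 : ℝ) * a i : ℝ) : ℂ)) = (0 : ι → ℂ) := by funext i; simp
        rw [this, bf_zero_left]
      simp only [γ, tv, Pi.add_apply, Pi.sub_apply, Pi.smul_apply, smul_eq_mul, h0]
      simp
    · intro s _
      apply tv_quadric hB hee'
      · have : (fun i => s * (a i : ℝ)) = s • fun i => (a i : ℝ) := by funext i; simp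
        rw [this, bf_smul_right, hea', mul_zero]
      · have : (fun i => s * (a i : ℝ)) = s • fun i => (a i : ℝ) := by funext i; simp
        rw [this, bf_smul_right, bf_smul_left, haa']
        ring
      · exact hZ₀
  · intro x hx
    obtain ⟨m1, hm1⟩ := hx a
    obtain ⟨m2, hm2⟩ := hx e
    have hm1' : bf B (fun i => (a i : ℚ)) x = m1 := by rw [bf_comm hB]; exact hm1
    have hm2' : bf B (fun i => (e i : ℚ)) x = m2 := by rw [bf_comm hB]; exact hm2
    refine ⟨fun i => - m1 * e i + m2 * a i - N * m2 * e i, fun i => ?_⟩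
    show act (tvM B e a N) x i - x i = _
    rw [act_tvM hB]
    simp only [tv, Pi.add_apply, Pi.sub_apply, Pi.smul_apply, smul_eq_mul, hm1', hm2']
    push_cast
    ring

end

/-- integral block matrices acting on `2U` only -/
def blk (P : Matrix (Fin 4) (Fin 4) ℤ) : Matrix (Fin 4 ⊕ Fin 20) (Fin 4 ⊕ Fin 20) ℤ :=
  Matrix.fromBlocks P 0 0 1

/-- the invertible matrix -/
def blkG {P P' : Matrix (Fin 4) (Fin 4) ℤ} (h : P * P' = 1) (h' : P' * P = 1) :
    Matrix.GeneralLinearGroup (Fin 4 ⊕ Fin 20) ℤ :=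
  ⟨blk P, blk P', by simp [blk, Matrix.fromBlocks_multiply, h],
    by simp [blk, Matrix.fromBlocks_multiply, h']⟩

/-- the matrix of `S` -/
def PS : Matrix (Fin 4) (Fin 4) ℤ := !![0, 0, 0, 1; 0, 0, 1, 0; 0, -1, 0, 0; -1, 0, 0, 0]

/-- its inverse -/
def PS' : Matrix (Fin 4) (Fin 4) ℤ := !![0, 0, 0, -1; 0, 0, -1, 0; 0, 1, 0, 0; 1, 0, 0, 0]

/-- the swap -/
def PW : Matrix (Fin 4) (Fin 4) ℤ := !![1, 0, 0, 0; 0, 1, 0, 0; 0, 0, 0, 1; 0, 0, 1, 0]

theorem PS_mul : PS * PS' = 1 := by decide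

theorem PS_mul' : PS' * PS = 1 := by decide

theorem PW_mul : PW * PW = 1 := by decide

theorem act_blk_inr {R : Type*} [CommRing R] (P : Matrix (Fin 4) (Fin 4) ℤ)
    (x : Fin 4 ⊕ Fin 20 → R) (i : Fin 20) : act (blk P) x (.inr i) = x (.inr i) := by
  simp [act, blk, Fintype.sum_sum_type, Matrix.one_apply]

theorem act_PS {R : Type*} [CommRing R] (a b c d : R) (z : Fin 20 → R) :
    act (blk PS) (mk a b c d z) = mk d c (-b) (-a) z := by
  funext i
  rcases i with i | i
  · match i with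
    | 0 => simp [act, blk, mk, PS, Fintype.sum_sum_type, Fin.sum_univ_four]
    | 1 => simp [act, blk, mk, PS, Fintype.sum_sum_type, Fin.sum_univ_four]
    | 2 => simp [act, blk, mk, PS, Fintype.sum_sum_type, Fin.sum_univ_four]
    | 3 => simp [act, blk, mk, PS, Fintype.sum_sum_type, Fin.sum_univ_four]
  · rw [act_blk_inr]; rfl

theorem act_PW {R : Type*} [CommRing R] (a b c d : R) (z : Fin 20 → R) :
    act (blk PW) (mk a b c d z) = mk a b d c z := by
  funext i
  rcases i with i | i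
  · match i with
    | 0 => simp [act, blk, mk, PW, Fintype.sum_sum_type, Fin.sum_univ_four]
    | 1 => simp [act, blk, mk, PW, Fintype.sum_sum_type, Fin.sum_univ_four]
    | 2 => simp [act, blk, mk, PW, Fintype.sum_sum_type, Fin.sum_univ_four]
    | 3 => simp [act, blk, mk, PW, Fintype.sum_sum_type, Fin.sum_univ_four]
  · rw [act_blk_inr]; rfl

variable {G : Matrix (Fin 20) (Fin 20) ℤ}

/-- the coordinates of a dual vector in `2U` are integral -/
theorem dual_int (x : Fin 4 ⊕ Fin 20 → ℚ)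
    (hx : ∀ y : Fin 4 ⊕ Fin 20 → ℤ, ∃ m : ℤ, form (gramM G) x (fun i => (y i : ℚ)) = m)
    (i : Fin 4) : ∃ m : ℤ, x (.inl i) = m := by
  have key : ∀ y : Fin 4 ⊕ Fin 20 → ℤ, bf (gramM G) x (fun i => (y i : ℚ)) =
      x (.inl 0) * y (.inl 1) + x (.inl 1) * y (.inl 0) + x (.inl 2) * y (.inl 3) +
      x (.inl 3) * y (.inl 2) - bf G (fun i => x (.inr i)) (fun i => (y (.inr i) : ℚ)) := by
    intro y
    conv_lhs => rw [mk_eta x, mk_eta (fun i => (y i : ℚ))]
    rw [bf_mk]
  have hz : bf G (fun i => x (.inr i)) (0 : Fin 20 → ℚ) = 0 := bf_zero_right _ _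
  match i with
  | 0 =>
    obtain ⟨m, hm⟩ := hx (mk 0 1 0 0 0)
    refine ⟨m, ?_⟩
    rw [← hm]
    refine Eq.symm ((key _).trans ?_)
    simp [mk]
    exact hz
  | 1 =>
    obtain ⟨m, hm⟩ := hx (mk 1 0 0 0 0)
    refine ⟨m, ?_⟩
    rw [← hm]
    refine Eq.symm ((key _).trans ?_)
    simp [mk]
    exact hz
  | 2 =>
    obtain ⟨m, hm⟩ := hx (mk 0 0 0 1 0)
    refine ⟨m, ?_⟩
    rw [← hm]
    refine Eq.symm ((key _).trans ?_)
    simp [mk]
    exact hz
  | 3 =>
    obtain ⟨m, hm⟩ := hx (mk 0 0 1 0 0)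
    refine ⟨m, ?_⟩
    rw [← hm]
    refine Eq.symm ((key _).trans ?_)
    simp [mk]
    exact hz

theorem blk_disc (P : Matrix (Fin 4) (Fin 4) ℤ) (x : Fin 4 ⊕ Fin 20 → ℚ)
    (hx : ∀ y : Fin 4 ⊕ Fin 20 → ℤ, ∃ m : ℤ, form (gramM G) x (fun i => (y i : ℚ)) = m) :
    ∃ w : Fin 4 ⊕ Fin 20 → ℤ, ∀ i, act (blk P) x i - x i = w i := by
  choose m hm using dual_int x hx
  refine ⟨Sum.elim (fun i => ∑ j, P i j * m j - m i) 0, ?_⟩
  rintro (i | i)
  · simp only [Sum.elim_inl]
    have : act (blk P) x (.inl i) = ∑ j, (P i j : ℚ) * x (.inl j) := by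
      simp [act, blk, Fintype.sum_sum_type]
    rw [this]
    simp only [hm]
    push_cast
    ring
  · rw [act_blk_inr]
    simp

theorem PS_mem : blkG PS_mul PS_mul' ∈ discKernel (gramM G) (coneM G) := by
  rw [coneM_eq]
  apply mem_disc (base_mem G)
  · intro x y
    show bf _ (act (blk PS) x) (act (blk PS) y) = bf _ x y
    rw [mk_eta x, mk_eta y, act_PS, act_PS, bf_mk, bf_mk]
    ring
  · let γ : ℝ → Fin 4 ⊕ Fin 20 → ℂ := fun s =>
      Complex.exp (s * (Real.pi / 2 * Complex.I)) • ZW G W0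
    have hγ1 : γ 1 = act (blkG PS_mul PS_mul').val (ZW G W0) := by
      show _ = act (blk PS) (ZW G W0)
      have : ZW G W0 = mk 1 1 Complex.I Complex.I 0 := by rw [ZW_W0]; rfl
      simp only [γ]
      rw [this, act_PS]
      have h2 : Complex.exp (((1 : ℝ) : ℂ) * (Real.pi / 2 * Complex.I)) = Complex.I := by
        rw [Complex.ofReal_one, one_mul, Complex.exp_pi_div_two_mul_I]
      rw [h2]
      have h3 := smul_mk Complex.I 1 1 Complex.I Complex.I 0
      have h4 : (Complex.I • mk (1 : ℂ) 1 Complex.I Complex.I (0 : Fin 20 → ℂ)) =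
          fun i => Complex.I * mk (1 : ℂ) 1 Complex.I Complex.I (0 : Fin 20 → ℂ) i := by
        funext i; rfl
      rw [h4, h3]
      congr 1 <;> simp
      funext i
      simp
    rw [← hγ1]
    apply path_mem γ
    · simp only [γ]
      fun_prop
    · simp [γ]
    · intro s _
      have hb := base_mem G
      rw [mem_quadric] at hb ⊢
      simp only [γ]
      have f2 : (fun i => (starRingEnd ℂ)
          ((Complex.exp (s * (Real.pi / 2 * Complex.I)) • ZW G W0) i)) =
          (starRingEnd ℂ (Complex.exp (s * (Real.pi / 2 * Complex.I)))) •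
            fun i => (starRingEnd ℂ) (ZW G W0 i) := by
        funext i; simp
      rw [f2, bf_smul_left, bf_smul_right, bf_smul_left, bf_smul_right, hb.1]
      refine ⟨by simp, ?_⟩
      rw [← mul_assoc, Complex.mul_conj, Complex.re_ofReal_mul]
      exact mul_pos (Complex.normSq_pos.2 (Complex.exp_ne_zero _)) hb.2
  · exact blk_disc PS

theorem PW_mem : blkG PW_mul PW_mul ∈ discKernel (gramM G) (coneM G) := by
  rw [coneM_eq]
  apply mem_disc (base_mem G)
  · intro x y
    show bf _ (act (blk PW) x) (act (blk PW) y) = bf _ x y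
    rw [mk_eta x, mk_eta y, act_PW, act_PW, bf_mk, bf_mk]
    ring
  · have : act (blkG PW_mul PW_mul).val (ZW G W0) = ZW G W0 := by
      show act (blk PW) (ZW G W0) = ZW G W0
      have : ZW G W0 = mk 1 1 Complex.I Complex.I 0 := by rw [ZW_W0]; rfl
      rw [this, act_PW]
    rw [this]
    exact mem_connectedComponentIn (base_mem G)
  · exact blk_disc PW

end

end Pool.Agent.Y813.RL
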