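import Pool.Agent.Y813.RL.Gen
import Pool.Agent.Y813.RL.Exp

set_option autoImplicit false

/-!
# Geometry of the walls
-/

namespace Pool.Agent.Y813.RL

open Complex Set Finset

noncomputable section

variable {G : Matrix (Fin 20) (Fin 20) ℤ}

/-- the dual vector with coordinates `μ` -/
def lam (G : Matrix (Fin 20) (Fin 20) ℤ) (μ : Fin 20 → ℤ) : Fin 20 → ℝ :=
  (G.map (Int.cast : ℤ → ℝ))⁻¹.mulVec fun j => (μ j : ℝ)

theorem bf_eq_sum (x y : Fin 20 → ℝ) :
    bf G x y = ∑ i, x i * (G.map (Int.cast : ℤ → ℝ)).mulVec y i := by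
  simp only [bf, Matrix.mulVec, dotProduct, Matrix.map_apply, Finset.mul_sum, mul_assoc]

theorem bf_lam (h : PosSymm G) (μ : Fin 20 → ℤ) (y : Fin 20 → ℝ) :
    bf G (lam G μ) y = dt μ y := by
  rw [bf_comm h.symm, bf_eq_sum, lam, Matrix.mulVec_mulVec,
    Matrix.mul_nonsing_inv _ (isUnit_det h), Matrix.one_mulVec]
  unfold dt
  exact Finset.sum_congr rfl fun i _ => by ring

theorem bf_lam_lam (h : PosSymm G) (μ ν : Fin 20 → ℤ) : bf G (lam G μ) (lam G ν) = bd G μ ν := by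
  rw [bf_lam h]
  rfl

theorem lam_mulVec (h : PosSymm G) (v : Fin 20 → ℤ) : lam G (G.mulVec v) = fun i => (v i : ℝ) := by
  have h1 : (fun j => ((G.mulVec v j : ℤ) : ℝ)) =
      (G.map (Int.cast : ℤ → ℝ)).mulVec (fun j => (v j : ℝ)) := by
    funext j
    simp [Matrix.mulVec, dotProduct]
  unfold lam
  rw [h1, Matrix.mulVec_mulVec, Matrix.nonsing_inv_mul _ (isUnit_det h), Matrix.one_mulVec]

theorem mulVec_lam (h : PosSymm G) (μ : Fin 20 → ℤ) (i : Fin 20) :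
    (μ i : ℝ) = bf G (Pi.single i 1) (lam G μ) := by
  rw [bf_eq_sum, lam, Matrix.mulVec_mulVec,
    Matrix.mul_nonsing_inv _ (isUnit_det h), Matrix.one_mulVec]
  simp [Pi.single_apply]

theorem dt_re (μ : Fin 20 → ℤ) (z : Fin 20 → ℂ) : (dt μ z).re = dt μ (rev z) := by
  simp [dt, rev]

theorem dt_im (μ : Fin 20 → ℤ) (z : Fin 20 → ℂ) : (dt μ z).im = dt μ (imv z) := by
  simp [dt, imv]

/-- the covector of a wall -/
def Pw (G : Matrix (Fin 20) (Fin 20) ℤ) (m n : ℤ) (μ : Fin 20 → ℤ) : ℝ × (ℝ × (Fin 20 → ℝ)) :=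
  ((n : ℝ), ((m : ℝ), -lam G μ))

theorem kf_Pw (h : PosSymm G) (m n : ℤ) (μ : Fin 20 → ℤ) (Y : ℝ × (ℝ × (Fin 20 → ℝ))) :
    kf G (Pw G m n μ) Y = n * Y.2.1 + m * Y.1 + dt μ Y.2.2 := by
  simp only [kf, Pw, bf_neg_left, bf_lam h]
  ring

theorem kf_Pw_Pw (h : PosSymm G) (m n : ℤ) (μ : Fin 20 → ℤ) :
    kf G (Pw G m n μ) (Pw G m n μ) = 2 * m * n - bd G μ μ := by
  simp only [kf, Pw, bf_neg_left, bf_neg_right, bf_lam_lam h]
  ring

/-- the wall equation -/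
def WEq (G : Matrix (Fin 20) (Fin 20) ℤ) (a b m n : ℤ) (μ : Fin 20 → ℤ) (W : TP) : Prop :=
  (a : ℂ) * (bf G W.2.2 W.2.2 / 2 - W.1 * W.2.1) + b + m * W.1 + n * W.2.1 + dt μ W.2.2 = 0

theorem WEq_im (h : PosSymm G) {a b m n : ℤ} {μ : Fin 20 → ℤ} {W : TP} (hW : WEq G a b m n μ W) :
    kf G (Pw G m n μ) (imW W) = a * kf G (reW W) (imW W) := by
  have h1 := congrArg Complex.im hW
  rw [kf_Pw h]
  simp only [Complex.add_im, Complex.zero_im, Complex.mul_im, Complex.intCast_re,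
    Complex.intCast_im, zero_mul, add_zero, Complex.sub_im, dt_im] at h1
  have h2 : (bf G W.2.2 W.2.2 / 2).im = bf G (rev W.2.2) (imv W.2.2) := by
    have : (bf G W.2.2 W.2.2 / 2) = (((1 / 2 : ℝ)) : ℂ) * bf G W.2.2 W.2.2 := by
      push_cast; ring
    rw [this, Complex.im_ofReal_mul, bf_im, bf_comm h.symm (imv W.2.2) (rev W.2.2)]
    ring
  rw [h2] at h1
  simp only [imW, reW, kf]
  linarith

theorem WEq_re (h : PosSymm G) {a b m n : ℤ} {μ : Fin 20 → ℤ} {W : TP} (hW : WEq G a b m n μ W) :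
    kf G (Pw G m n μ) (reW W) =
      a * (kf G (reW W) (reW W) - kf G (imW W) (imW W)) / 2 - b := by
  have h1 := congrArg Complex.re hW
  rw [kf_Pw h]
  simp only [Complex.add_re, Complex.zero_re, Complex.mul_re, Complex.mul_im, Complex.intCast_re,
    Complex.intCast_im, zero_mul, sub_zero, Complex.sub_re, dt_re] at h1
  have h2 : (bf G W.2.2 W.2.2 / 2).re =
      (bf G (rev W.2.2) (rev W.2.2) - bf G (imv W.2.2) (imv W.2.2)) / 2 := by
    have : (bf G W.2.2 W.2.2 / 2) = (((1 / 2 : ℝ)) : ℂ) * bf G W.2.2 W.2.2 := by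
      push_cast; ring
    rw [this, Complex.re_ofReal_mul, bf_re]
    ring
  rw [h2] at h1
  simp only [imW, reW, kf]
  linarith

/-- the invariant `ν` of a wall -/
def nu (G : Matrix (Fin 20) (Fin 20) ℤ) (a b m n : ℤ) (μ : Fin 20 → ℤ) : ℝ :=
  bd G μ μ / 2 - a * b - m * n

theorem wall_a (h : PosSymm G) {a b m n : ℤ} {μ : Fin 20 → ℤ} {W : TP} (hWm : W ∈ Hd G)
    (hW : WEq G a b m n μ W) (hν : nu G a b m n μ ≤ 1) (hY : 2 < kf G (imW W) (imW W)) :
    a = 0 := by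
  by_contra ha
  have ha' : (a : ℝ) ≠ 0 := by exact_mod_cast ha
  have hWm' := mem_Hd'.1 hWm
  have h1 := WEq_im h hW
  have h2 := WEq_re h hW
  set P := Pw G m n μ with hP
  have h3 : kf G P P = 2 * m * n - bd G μ μ := kf_Pw_Pw h m n μ
  set X' := reW W + (-(a : ℝ)⁻¹) • P with hX'
  have h4 : kf G X' (imW W) = 0 := by
    rw [hX', kf_add_left, kf_smul_left, h1]
    field_simp
    ring
  have h5 : kf G X' X' = kf G (imW W) (imW W) - 2 * nu G a b m n μ / (a : ℝ) ^ 2 := by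
    rw [hX', kf_add_left, kf_add_right, kf_add_right, kf_smul_left, kf_smul_left, kf_smul_right,
      kf_smul_right, kf_comm h.symm (reW W) P, h2, h3]
    unfold nu
    field_simp
    ring
  have h6 := rcs h (X := X') (Y := imW W) (by
    have := hWm'.1
    exact ne_of_gt this) hWm'.2
  rw [h4] at h6
  have h7 : kf G X' X' ≤ 0 := by
    by_contra hc
    push Not at hc
    have := mul_pos hc hWm'.2
    linarith
  rw [h5] at h7
  have h8 : (1 : ℝ) ≤ (a : ℝ) ^ 2 := by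
    have : (1 : ℤ) ≤ a ^ 2 := by
      have := Int.one_le_abs ha
      nlinarith [sq_abs a]
    exact_mod_cast this
  have h9 : 2 * nu G a b m n μ / (a : ℝ) ^ 2 ≤ 2 := by
    rw [div_le_iff₀ (by positivity)]
    nlinarith
  linarith

/-- the direction `x = Im z / Im tau` -/
def xp (p : ℂ × (Fin 20 → ℂ)) : Fin 20 → ℝ := (p.1.im)⁻¹ • imv p.2

/-- the height -/
def ht (G : Matrix (Fin 20) (Fin 20) ℤ) (W : TP) : ℝ :=
  W.1.im / W.2.1.im - bf G (xp W.2) (xp W.2) / 2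

theorem kf_im_eq {W : TP} (hτ : 0 < W.2.1.im) :
    kf G (imW W) (imW W) = 2 * W.2.1.im ^ 2 * ht G W := by
  simp only [ht, xp, bf_smul_left, bf_smul_right, kf, imW]
  field_simp
  ring

theorem ht_pos {W : TP} (hW : W ∈ Hd G) : 0 < ht G W := by
  have h1 := mem_Hd'.1 hW
  rw [kf_im_eq h1.1] at h1
  have := h1.1
  by_contra hc
  push Not at hc
  have := h1.2
  nlinarith [mul_nonneg (sq_nonneg W.2.1.im) (neg_nonneg.2 hc)]

/-- for `a = 0` the height is determined by the wall -/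
theorem height_id (h : PosSymm G) {b m n : ℤ} {μ : Fin 20 → ℤ} {W : TP} (hτ : 0 < W.2.1.im)
    (hW : WEq G 0 b m n μ W) :
    nu G 0 b m n μ = (m : ℝ) ^ 2 * ht G W +
      bf G (lam G μ + (m : ℝ) • xp W.2) (lam G μ + (m : ℝ) • xp W.2) / 2 := by
  have h1 := WEq_im h hW
  rw [kf_Pw h] at h1
  simp only [Int.cast_zero, zero_mul, imW] at h1
  have h2 : (n : ℝ) = -(m * (W.1.im / W.2.1.im)) - dt μ (xp W.2) := by
    unfold xp
    rw [dt_smul]
    field_simp
    linarith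
  rw [bf_add_left, bf_add_right, bf_add_right, bf_smul_left, bf_smul_left, bf_smul_right,
    bf_smul_right, bf_comm h.symm (xp W.2) (lam G μ), bf_lam_lam h, bf_lam h]
  unfold nu ht
  rw [h2]
  push_cast
  ring

theorem nu_le_one {a b m n : ℤ} {μ : Fin 20 → ℤ} (hw : WallData G a b m n μ) :
    0 < nu G a b m n μ ∧ nu G a b m n μ ≤ 1 := by
  unfold nu
  rcases hw with ⟨h1, _⟩ | ⟨h1, h2⟩
  · rw [h1]; norm_num
  · exact ⟨h1, by linarith⟩

/-- **zeros high up** -/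
theorem zero_wall (h : PosSymm G) {k : ℤ} {F : TP → ℂ} (hF : TubeForm G k F) {W : TP}
    (hW : W ∈ Hd G) (hFW : F W = 0) (hY : 1 < W.2.1.im ^ 2 * ht G W) :
    ∃ (b m n : ℤ) (μ : Fin 20 → ℤ), WallData G 0 b m n μ ∧ WEq G 0 b m n μ W := by
  obtain ⟨a, b, m, n, μ, hw, he⟩ := hF.zeros W hW hFW
  have hwe : WEq G a b m n μ W := he
  have ha := wall_a h hW hwe (nu_le_one hw).2 (by
    rw [kf_im_eq (mem_Hd'.1 hW).1]
    linarith)
  subst ha
  exact ⟨b, m, n, μ, hw, hwe⟩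

theorem WallData_neg {b m n : ℤ} {μ : Fin 20 → ℤ} (hw : WallData G 0 b m n μ) :
    WallData G 0 (-b) (-m) (-n) (-μ) := by
  have hbd : bd G (-μ) (-μ) = bd G μ μ := by
    unfold bd
    have : (fun j => (((-μ) j : ℤ) : ℝ)) = -fun j => (μ j : ℝ) := by
      funext j; simp
    rw [this, Matrix.mulVec_neg]
    simp
  unfold WallData at *
  rw [hbd]
  rcases hw with ⟨h1, v, hv⟩ | h1
  · left
    refine ⟨by push_cast; push_cast at h1; linarith, -v, ?_⟩
    rw [Matrix.mulVec_neg, hv]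
  · right
    push_cast at h1 ⊢
    exact ⟨by linarith [h1.1], by linarith [h1.2]⟩

theorem WEq_neg {b m n : ℤ} {μ : Fin 20 → ℤ} {W : TP} (hw : WEq G 0 b m n μ W) :
    WEq G 0 (-b) (-m) (-n) (-μ) W := by
  unfold WEq at *
  have : dt (-μ) W.2.2 = -dt μ W.2.2 := by simp [dt]
  rw [this]
  push_cast at *
  linear_combination -hw

/-- coordinate bound for dual vectors -/
theorem mu_bound (h : PosSymm G) (μ : Fin 20 → ℤ) (i : Fin 20) :
    ((μ i : ℝ)) ^ 2 ≤ (G i i : ℝ) * bd G μ μ := by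
  have h1 := h.cs (Pi.single i 1) (lam G μ)
  rw [← mulVec_lam h, bf_lam_lam h] at h1
  have h2 : bf G (Pi.single i (1 : ℝ)) (Pi.single i 1) = (G i i : ℝ) := by
    simp [bf, Pi.single_apply]
  rwa [h2] at h1

/-- coordinate bound -/
theorem coord_bound (h : PosSymm G) : ∃ K : ℝ, 0 < K ∧ ∀ (x : Fin 20 → ℝ) (i : Fin 20),
    (x i) ^ 2 ≤ K * bf G x x := by
  classical
  have h0 : ∀ i, 0 ≤ bf G (lam G (Pi.single i 1)) (lam G (Pi.single i 1)) := fun i => h.nonneg _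
  refine ⟨1 + ∑ i, bf G (lam G (Pi.single i 1)) (lam G (Pi.single i 1)), ?_, ?_⟩
  · have := Finset.sum_nonneg fun i (_ : i ∈ Finset.univ) => h0 i
    linarith
  · intro x i
    have h1 := h.cs (lam G (Pi.single i 1)) x
    rw [bf_lam h] at h1
    have h2 : dt (Pi.single i 1) x = x i := by
      simp [dt, Pi.single_apply]
    rw [h2] at h1
    refine h1.trans ?_
    apply mul_le_mul_of_nonneg_right _ (h.nonneg x)
    have := Finset.single_le_sum (f := fun i => bf G (lam G (Pi.single i 1))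
      (lam G (Pi.single i 1))) (fun i _ => h0 i) (Finset.mem_univ i)
    linarith

/-- finitely many short dual vectors, with a uniform bound for the coordinates -/
theorem short_bound (h : PosSymm G) (c : ℝ) : ∃ Q : ℕ, ∀ μ : Fin 20 → ℤ, bd G μ μ ≤ c →
    ∀ i, |μ i| ≤ Q := by
  classical
  obtain ⟨Q, hQ⟩ := exists_nat_gt (1 + ∑ i, |(G i i : ℝ)| * |c|)
  refine ⟨Q, fun μ hμ i => ?_⟩
  have h1 := mu_bound h μ i
  have hbd : 0 ≤ bd G μ μ := by rw [← bf_lam_lam h]; exact h.nonneg _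
  have h2 : (G i i : ℝ) * bd G μ μ ≤ |(G i i : ℝ)| * |c| := by
    calc (G i i : ℝ) * bd G μ μ ≤ |(G i i : ℝ)| * bd G μ μ :=
          mul_le_mul_of_nonneg_right (le_abs_self _) hbd
      _ ≤ |(G i i : ℝ)| * |c| :=
          mul_le_mul_of_nonneg_left (hμ.trans (le_abs_self _)) (abs_nonneg _)
  have h3 : |(G i i : ℝ)| * |c| ≤ ∑ i, |(G i i : ℝ)| * |c| :=
    Finset.single_le_sum (f := fun i => |(G i i : ℝ)| * |c|)
      (fun i _ => by positivity) (Finset.mem_univ i)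
  have h4 : (μ i : ℝ) ^ 2 < Q := by linarith
  have h5 : (|μ i| : ℤ) ^ 2 < Q := by
    have : ((μ i ^ 2 : ℤ) : ℝ) < ((Q : ℤ) : ℝ) := by push_cast; exact h4
    have := Int.cast_lt.1 this
    rwa [sq_abs]
  have h6 : (0 : ℤ) ≤ |μ i| := abs_nonneg _
  nlinarith

end

end Pool.Agent.Y813.RL
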